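import Pool.Agent.TH967.VT.UpA
import Pool.Agent.H160R2.CV.Sharp
import Pool.Agent.W424.NC.ArmUp

/-!
The volume of the cluster at and below the critical point: the upper bound.
-/

set_option autoImplicit false

namespace Pool.Agent.TH967.VT
open Finset H974 Pool.Agent.H160R2.CV H362P
open Pool.Agent.H160R2.CV.Quad

theorem Bc_bx (R : ℕ) : Bc (0, 0) R = bx R := by
  ext x
  rw [mem_Bc, mem_bx']
  have : x - ((0, 0) : Vtx) = x := by
    have : ((0, 0) : Vtx) = 0 := rfl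
    rw [this, sub_zero]
  rw [this]

theorem near_point {M : ℕ} {n : ℝ} {F : Finset Edg} (hV : Vol n (↑F : Set Edg))
    (h5 : ¬ OE (Ou (0, 0) (4 * M + M)) {(0, 0)} (↑F : Set Edg)) :
    n ≤ YT (fun v => v = (0, 0)) (Bc (0, 0) (5 * M)) F := by
  classical
  obtain ⟨T, hT, hr⟩ := hV
  refine hT.trans ?_
  have h2 : (T.card : ℝ) = ∑ x ∈ T, ind (OE (fun v => v = (0, 0)) {x} (↑F : Set Edg)) := by
    rw [Finset.card_eq_sum_ones, Nat.cast_sum]
    apply Finset.sum_congr rfl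
    intro x hx
    rw [ind_of, Nat.cast_one]
    intro u hu
    rw [Finset.mem_singleton] at hu
    exact ⟨(0, 0), rfl, by rw [hu]; exact (hr x hx).symm⟩
  rw [h2]
  unfold YT
  apply Finset.sum_le_sum_of_subset_of_nonneg
  · intro x hx
    rw [Bc_bx, mem_bx']
    by_contra hc
    apply h5
    intro u hu
    rw [Finset.mem_singleton] at hu
    refine ⟨x, ?_, by rw [hu]; exact hr x hx⟩
    unfold Ou
    have : x - ((0, 0) : Vtx) = x := by
      have : ((0, 0) : Vtx) = 0 := rfl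
      rw [this, sub_zero]
    rw [this]
    omega
  · intro _ _ _
    exact ind_nonneg _

/-- Large clusters which stay in a box. -/
theorem up_near {q K0 C1 : ℝ} (h0 : 0 ≤ q) (h1 : q ≤ 1 / 2) {M : ℕ} (hM : 2 ≤ M)
    (hA : ArmUp (1 / 2) K0 (16 * M)) (hK : 1 ≤ K0)
    (hC1 : ∀ n : ℕ, 1 ≤ n → ∀ S : Finset Edg,
      ∑ x ∈ bx n, Pr P S (fun F => Reach (↑F) (0, 0) x) ≤ C1 * ((n : ℝ) ^ 2 * ar n ^ 2))
    {t : ℝ} (ht0 : 0 ≤ t) (ht : t * (2 ^ 188 * GG K0 (2 * M)) ≤ 1 / 4) (m : ℕ) {n : ℝ}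
    (hn : 1 ≤ t * n) :
    Pr (fun _ => q) (boxE m) (fun F => Vol n (↑F : Set Edg) ∧
      ¬ OE (Ou (0, 0) (4 * M + M)) {(0, 0)} (↑F : Set Edg)) ≤
      4 * t * (C1 * (((5 * M : ℕ) : ℝ) ^ 2 * ar (5 * M) ^ 2)) * Real.exp (-(t * n)) := by
  classical
  have ok := okq h0 (by linarith)
  obtain ⟨S, hS⟩ : ∃ S : Finset Edg, S = boxE (m + 10 * M) := ⟨_, rfl⟩
  obtain ⟨T, hT⟩ : ∃ T : Vtx → Prop, T = fun v => v = (0, 0) := ⟨_, rfl⟩
  obtain ⟨Y, hY⟩ : ∃ Y : Finset Edg → ℝ, Y = YT T (Bc (0, 0) (5 * M)) := ⟨_, rfl⟩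
  have hinc : ∀ F G : Finset Edg, F ⊆ G → Y F ≤ Y G := by
    intro F G h
    rw [hY]
    exact YT_incr h
  have s1 : Pr (fun _ => q) (boxE m) (fun F => Vol n (↑F : Set Edg) ∧
      ¬ OE (Ou (0, 0) (4 * M + M)) {(0, 0)} (↑F : Set Edg)) ≤
      Pr (fun _ => q) (boxE m) (fun F => n ≤ Y F) := by
    apply Pr_mono ok
    intro F _ h
    rw [hY, hT]
    exact near_point h.1 h.2
  have s2 : Pr (fun _ => q) (boxE m) (fun F => n ≤ Y F) ≤
      Pr (fun _ => q) S (fun F => n ≤ Y F) := by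
    have h2 : Pr (fun _ => q) S (fun F => n ≤ Y (F ∩ boxE m)) =
        Pr (fun _ => q) (boxE m) (fun F => n ≤ Y (F ∩ boxE m)) :=
      Pr_local (by rw [hS]; exact boxE_mono (by omega)) (fun F _ => by
        rw [Finset.inter_assoc, Finset.inter_self])
    have h3 : Pr (fun _ => q) (boxE m) (fun F => n ≤ Y F) =
        Pr (fun _ => q) (boxE m) (fun F => n ≤ Y (F ∩ boxE m)) := by
      apply Pr_congr
      intro F hF
      rw [Finset.inter_eq_left.mpr hF]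
    rw [h3, ← h2]
    apply Pr_mono ok
    intro F _ h
    exact h.trans (hinc _ _ Finset.inter_subset_left)
  have s3 : Pr (fun _ => q) S (fun F => n ≤ Y F) ≤ Pr P S (fun F => n ≤ Y F) := by
    apply Pr_mono_param ok (okq (by norm_num) (by norm_num)) (fun _ => h1)
    intro F G h _ hF
    exact hF.trans (hinc _ _ h)
  have hg := good_pt (q := 1 / 2) (K0 := K0) (N := 2 * M) (R1 := 5 * M) (by omega) (by omega)
    (by rw [show 8 * (2 * M) = 16 * M by ring]; exact hA) hK le_rfl (by norm_num) (0, 0) (S := S) (by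
      rw [bo_zero, hS]; exact boxE_mono (by omega))
  rw [← hT] at hg
  have s4 := hg.expo1 ht0 ht
  rw [← hY] at s4
  have s5 : ∑ x ∈ Bc (0, 0) (5 * M), Pr (fun _ => (1 / 2 : ℝ)) S (fun F => OE T {x} (↑F)) ≤
      C1 * (((5 * M : ℕ) : ℝ) ^ 2 * ar (5 * M) ^ 2) := by
    rw [Bc_bx]
    refine le_trans (le_of_eq ?_) (hC1 (5 * M) (by omega) S)
    apply Finset.sum_congr rfl
    intro x _
    apply Pr_congr
    intro F _
    rw [hT]
    constructor
    · intro h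
      obtain ⟨v, hv, hr⟩ := h x (Finset.mem_singleton_self _)
      rw [hv] at hr
      exact hr.symm
    · intro h u hu
      rw [Finset.mem_singleton] at hu
      exact ⟨(0, 0), rfl, by rw [hu]; exact h.symm⟩
  have hexp : (2 : ℝ) ≤ Real.exp (t * n) := by
    have := Real.add_one_le_exp (t * n)
    linarith
  have s6 : Pr P S (fun F => n ≤ Y F) ≤
      2 * Real.exp (-(t * n)) * (Ex P S (fun F => Real.exp (t * Y F)) - 1) := by
    have e1 : 2 * Real.exp (-(t * n)) * (Ex P S (fun F => Real.exp (t * Y F)) - 1) =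
        Ex P S (fun F => 2 * Real.exp (-(t * n)) * (Real.exp (t * Y F) - 1)) := by
      rw [Ex_mul_left, Ex_sub, Ex_const]
    rw [e1]
    unfold Pr
    apply Ex_mono (okq (q := 1 / 2) (by norm_num) (by norm_num))
    intro F _
    have hY0 : 0 ≤ Y F := by rw [hY]; exact YT_nonneg _ _ _
    have h1 : 1 ≤ Real.exp (t * Y F) := Real.one_le_exp (by positivity)
    by_cases h : n ≤ Y F
    · rw [ind_of h]
      have h2 : Real.exp (t * n) ≤ Real.exp (t * Y F) :=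
        Real.exp_le_exp.mpr (mul_le_mul_of_nonneg_left h ht0)
      have h3 : Real.exp (-(t * n)) * Real.exp (t * n) = 1 := by
        rw [← Real.exp_add]; simp
      have h4 := Real.exp_pos (-(t * n))
      have h5 : Real.exp (t * n) / 2 ≤ Real.exp (t * Y F) - 1 := by linarith
      calc (1 : ℝ) = 2 * Real.exp (-(t * n)) * (Real.exp (t * n) / 2) := by linarith
        _ ≤ _ := mul_le_mul_of_nonneg_left h5 (by positivity)
    · rw [ind_not_of h]
      have : 0 ≤ Real.exp (t * Y F) - 1 := by linarith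
      positivity
  refine (s1.trans (s2.trans (s3.trans s6))).trans ?_
  have hp : 0 < Real.exp (-(t * n)) := Real.exp_pos _
  have s7 : Ex P S (fun F => Real.exp (t * Y F)) - 1 ≤
      2 * t * (C1 * (((5 * M : ℕ) : ℝ) ^ 2 * ar (5 * M) ^ 2)) := by
    have := mul_le_mul_of_nonneg_left s5 (show 0 ≤ 2 * t by linarith)
    have s4' : Ex P S (fun F => Real.exp (t * Y F)) ≤ 1 + 2 * t *
      ∑ x ∈ Bc (0, 0) (5 * M), Pr (fun _ => (1 / 2 : ℝ)) S (fun F => OE T {x} (↑F)) := s4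
    linarith
  calc 2 * Real.exp (-(t * n)) * (Ex P S (fun F => Real.exp (t * Y F)) - 1)
      ≤ 2 * Real.exp (-(t * n)) * (2 * t * (C1 * (((5 * M : ℕ) : ℝ) ^ 2 * ar (5 * M) ^ 2))) :=
        mul_le_mul_of_nonneg_left s7 (by positivity)
    _ = _ := by ring

theorem crit_arm : ∃ K0 : ℝ, 1 ≤ K0 ∧ ∀ n : ℕ, ArmUp (1 / 2) K0 n := by
  obtain ⟨c, C, hc, hC, h⟩ := Pool.Agent.W424.NC.arm_crit
  refine ⟨max C 1, le_max_right _ _, fun n k hk _ => ((h k hk).2).trans ?_⟩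
  exact mul_le_mul_of_nonneg_right (le_max_left _ _) (by positivity)

theorem crit_vol : ∃ C : ℝ, 0 < C ∧ ∀ n : ℕ, 1 ≤ n → ∀ m : ℕ,
    Pr P (boxE m) (fun F => Vol (n : ℝ) (↑F : Set Edg)) ≤ C * (n : ℝ) ^ (-(5 / 91 : ℝ)) := by
  obtain ⟨c, C, hc, hC, h⟩ := sharp_vol Pool.Agent.H160R2.SA.arSharp
  refine ⟨C, hC, fun n hn m => le_trans ?_ (h n hn).2⟩
  have e : {ω : sqLattice.edgeSet → Bool | (n : ℕ∞) ≤ (cluster0 ω).encard} =
      {ω | Vol n (opn ω)} := by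
    ext ω
    exact InfAux.encard_iff ω n
  rw [e]
  exact InfAux.lower (fun F : Set Edg => Vol n F) (fun F G hFG h => InfAux.vol_mono hFG h) m

theorem Sub_pow {q : ℝ} (h0 : 0 ≤ q) (h1 : q ≤ 1) {N : ℕ} (hN : 2 ≤ N)
    (he : eps (1 - q) N ≤ 1 / 100) : Sub q (2 ^ 8 * N) ((1 / 4 : ℝ) ^ 256) := by
  intro S hS
  have := Pool.Agent.W424.NC.pr_nblk_pow h0 h1 hN he 8 (S := S) hS
  refine this.trans (le_of_eq ?_)
  norm_num

/-- Upper bound for the tail of the volume, at and below the critical point. -/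
theorem up_vol : ∃ c C : ℝ, 0 < c ∧ 0 < C ∧ ∀ q : ℝ, 0 ≤ q → q ≤ 1 / 2 → ∀ n : ℕ, 1 ≤ n →
    ∀ m : ℕ, Pr (fun _ => q) (boxE m) (fun F => Vol (n : ℝ) (↑F : Set Edg)) ≤
      C * (n : ℝ) ^ (-(5 / 91 : ℝ)) * Real.exp (-(c * (n * (1 / 2 - q) ^ (91 / 36 : ℝ)))) := by
  obtain ⟨K0, hK, hA⟩ := crit_arm
  obtain ⟨C0, hC0, hcr⟩ := crit_vol
  obtain ⟨C1, hC1, hmo⟩ := first_moment
  obtain ⟨E, hE, hfar⟩ := Pool.Agent.W424.NC.farN
  have hK0 : 0 < K0 := by linarith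
  obtain ⟨t0, ht0⟩ : ∃ t0 : ℝ, t0 = 1 / (400 * (2 ^ 188 * (3888 * K0))) := ⟨_, rfl⟩
  have ht0p : 0 < t0 := by rw [ht0]; positivity
  obtain ⟨e0, he0⟩ : ∃ e0 : ℝ, e0 = (256 * E) ^ (-(91 / 48 : ℝ)) := ⟨_, rfl⟩
  have he0p : 0 < e0 := by rw [he0]; positivity
  obtain ⟨C2, hC2⟩ : ∃ C2 : ℝ, C2 = (2 * 32 ^ 49) * K0 + 4 * t0 * (C1 * (25 * K0 ^ 2)) := ⟨_, rfl⟩
  have hC2p : 0 < C2 := by rw [hC2]; positivity
  refine ⟨t0 * e0 / 2, 3 * C0 + C2 * (2 * (1 / t0 + 1)), by positivity, by positivity, ?_⟩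
  intro q h0 h1 n hn m
  have ok := okq h0 (show q ≤ 1 by linarith)
  have hn1 : (1 : ℝ) ≤ n := by exact_mod_cast hn
  have hn0 : (0 : ℝ) < n := by linarith
  have hpn : 0 < (n : ℝ) ^ (-(5 / 91 : ℝ)) := by positivity
  have hcrit : Pr (fun _ => q) (boxE m) (fun F => Vol (n : ℝ) (↑F : Set Edg)) ≤
      C0 * (n : ℝ) ^ (-(5 / 91 : ℝ)) := by
    refine le_trans ?_ (hcr n hn m)
    apply Pr_mono_param ok (okq (by norm_num) (by norm_num)) (fun _ => h1)
    intro F G h _ hF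
    exact InfAux.vol_mono (by exact_mod_cast h) hF
  obtain ⟨s, hs⟩ : ∃ s : ℝ, s = 1 / 2 - q := ⟨_, rfl⟩
  rw [← hs]
  have hs0 : 0 ≤ s := by linarith
  obtain ⟨u, hu⟩ : ∃ u : ℝ, u = s ^ (91 / 36 : ℝ) := ⟨_, rfl⟩
  rw [← hu]
  have hu0 : 0 ≤ u := by rw [hu]; positivity
  have hexp1 : (1 / 3 : ℝ) ≤ Real.exp (-1) := by
    rw [Real.exp_neg, one_div]
    apply inv_anti₀ (Real.exp_pos _)
    have := Real.exp_one_lt_d9
    linarith
  have easy : t0 * e0 * (n * u) ≤ 1 →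
      Pr (fun _ => q) (boxE m) (fun F => Vol (n : ℝ) (↑F : Set Edg)) ≤
      (3 * C0 + C2 * (2 * (1 / t0 + 1))) * (n : ℝ) ^ (-(5 / 91 : ℝ)) *
        Real.exp (-(t0 * e0 / 2 * (n * u))) := by
    intro h
    have h2 : Real.exp (-1) ≤ Real.exp (-(t0 * e0 / 2 * (n * u))) := by
      apply Real.exp_le_exp.mpr
      have : 0 ≤ t0 * e0 * (n * u) := by positivity
      linarith
    calc Pr (fun _ => q) (boxE m) (fun F => Vol (n : ℝ) (↑F : Set Edg))
        ≤ C0 * (n : ℝ) ^ (-(5 / 91 : ℝ)) := hcrit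
      _ = 3 * C0 * (n : ℝ) ^ (-(5 / 91 : ℝ)) * (1 / 3) := by ring
      _ ≤ 3 * C0 * (n : ℝ) ^ (-(5 / 91 : ℝ)) * Real.exp (-(t0 * e0 / 2 * (n * u))) :=
          mul_le_mul_of_nonneg_left (hexp1.trans h2) (by positivity)
      _ ≤ _ := by
          apply mul_le_mul_of_nonneg_right _ (Real.exp_pos _).le
          apply mul_le_mul_of_nonneg_right _ hpn.le
          have : 0 ≤ C2 * (2 * (1 / t0 + 1)) := by positivity
          linarith
  rcases le_or_gt (t0 * e0 * (n * u)) 1 with hle | hgt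
  · exact easy hle
  have hs1 : 0 < s := by
    rcases hs0.eq_or_lt with h | h
    · rw [hu, ← h, Real.zero_rpow (by norm_num), mul_zero, mul_zero] at hgt
      linarith
    · exact h
  obtain ⟨N, hN2, hNE, hN1, heps⟩ := hfar q h0 (by linarith)
  rw [← hs] at hNE hN1
  obtain ⟨M, hM⟩ : ∃ M : ℕ, M = 2 ^ 8 * N := ⟨_, rfl⟩
  have hM2 : 2 ≤ M := by omega
  have hMr : (M : ℝ) = 256 * N := by rw [hM]; push_cast; norm_num
  have hM0 : (0 : ℝ) < M := by
    have : 0 < M := by omega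
    exact_mod_cast this
  have hsub : Sub q M ((1 / 4 : ℝ) ^ 256) := by
    rw [hM]
    exact Sub_pow h0 (by linarith) hN2 heps
  obtain ⟨A, hAe⟩ : ∃ A : ℝ, A = (M : ℝ) ^ (91 / 48 : ℝ) := ⟨_, rfl⟩
  have hA0 : 0 < A := by rw [hAe]; positivity
  have hA1 : 1 ≤ A := by
    rw [hAe]
    exact Real.one_le_rpow (by exact_mod_cast (by omega : 1 ≤ M)) (by norm_num)
  obtain ⟨t, ht⟩ : ∃ t : ℝ, t = t0 / A := ⟨_, rfl⟩
  have htp : 0 < t := by rw [ht]; positivity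
  have hGG : GG K0 M = 3888 * K0 * A := by unfold GG; rw [hAe]
  have hGG2 : GG K0 (2 * M) ≤ 4 * (3888 * K0 * A) := by
    unfold GG
    have h2 : (((2 * M : ℕ)) : ℝ) ^ (91 / 48 : ℝ) ≤ 4 * A := by
      push_cast
      rw [Real.mul_rpow (by norm_num) hM0.le, ← hAe]
      apply mul_le_mul_of_nonneg_right _ hA0.le
      calc (2 : ℝ) ^ (91 / 48 : ℝ) ≤ (2 : ℝ) ^ (2 : ℝ) :=
            Real.rpow_le_rpow_of_exponent_le (by norm_num) (by norm_num)
        _ = 4 := by norm_num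
    calc 3888 * K0 * (((2 * M : ℕ)) : ℝ) ^ (91 / 48 : ℝ) ≤ 3888 * K0 * (4 * A) :=
          mul_le_mul_of_nonneg_left h2 (by positivity)
      _ = _ := by ring
  have htA : t * A = t0 := by rw [ht]; field_simp
  have ht1 : 100 * t * (2 ^ 188 * GG K0 M) ≤ 1 / 4 := by
    rw [hGG]
    have : 100 * t * (2 ^ 188 * (3888 * K0 * A)) = 100 * (2 ^ 188 * (3888 * K0)) * (t * A) := by ring
    rw [this, htA, ht0]
    have hp : (0 : ℝ) < 2 ^ 188 * (3888 * K0) := by positivity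
    have : 100 * (2 ^ 188 * (3888 * K0)) * (1 / (400 * (2 ^ 188 * (3888 * K0)))) = 1 / 4 := by
      generalize (2 : ℝ) ^ 188 * (3888 * K0) = Z at hp ⊢
      field_simp
      norm_num
    rw [this]
  have ht2 : t * (2 ^ 188 * GG K0 (2 * M)) ≤ 1 / 4 := by
    have h2 : t * (2 ^ 188 * GG K0 (2 * M)) ≤ t * (2 ^ 188 * (4 * (3888 * K0 * A))) := by
      apply mul_le_mul_of_nonneg_left _ htp.le
      exact mul_le_mul_of_nonneg_left hGG2 (by positivity)
    have h3 : t * (2 ^ 188 * (4 * (3888 * K0 * A))) ≤ 100 * t * (2 ^ 188 * GG K0 M) := by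
      rw [hGG]
      have : 0 ≤ t * (2 ^ 188 * (3888 * K0 * A)) := by positivity
      nlinarith
    linarith
  -- the exponent
  have htn : t0 * e0 * (n * u) ≤ t * n := by
    have h2 : e0 * u * A ≤ 1 := by
      have h3 : (M : ℝ) * s ^ (4 / 3 : ℝ) ≤ 256 * E := by rw [hMr]; linarith
      have h4 : ((M : ℝ) * s ^ (4 / 3 : ℝ)) ^ (91 / 48 : ℝ) ≤ (256 * E) ^ (91 / 48 : ℝ) :=
        Real.rpow_le_rpow (by positivity) h3 (by norm_num)
      have h5 : ((M : ℝ) * s ^ (4 / 3 : ℝ)) ^ (91 / 48 : ℝ) = A * u := by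
        rw [Real.mul_rpow hM0.le (by positivity), ← Real.rpow_mul hs0, hAe, hu]
        norm_num
      rw [h5] at h4
      have h6 : e0 * (256 * E) ^ (91 / 48 : ℝ) = 1 := by
        rw [he0, ← Real.rpow_add (by positivity)]
        norm_num
      calc e0 * u * A = e0 * (A * u) := by ring
        _ ≤ e0 * (256 * E) ^ (91 / 48 : ℝ) := mul_le_mul_of_nonneg_left h4 he0p.le
        _ = 1 := h6
    calc t0 * e0 * (n * u) = (t * A) * e0 * (n * u) := by rw [htA]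
      _ = t * n * (e0 * u * A) := by ring
      _ ≤ t * n * 1 := mul_le_mul_of_nonneg_left h2 (by positivity)
      _ = t * n := mul_one _
  have htn1 : 1 ≤ t * n := by linarith
  -- the two parts
  have hδ1 : 2 * (1 / 4 : ℝ) ^ 256 ≤ ((1 / 1024 : ℝ) ^ 25) ^ 2 := by norm_num
  have p1 := up_far h0 h1 hM2 (hA (8 * M)) hK (δ := (1 / 4 : ℝ) ^ 256) (by positivity) hsub hδ1
    htp.le ht1 m (n : ℝ)
  have p2 := up_near h0 h1 hM2 (hA (16 * M)) hK hmo htp.le ht2 m (n := (n : ℝ)) htn1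
  have p3 : Pr (fun _ => q) (boxE m) (fun F => Vol (n : ℝ) (↑F : Set Edg)) ≤
      Pr (fun _ => q) (boxE m) (fun F => Vol n (↑F : Set Edg) ∧
        OE (Ou (0, 0) (4 * M + M)) {(0, 0)} (↑F : Set Edg)) +
      Pr (fun _ => q) (boxE m) (fun F => Vol n (↑F : Set Edg) ∧
        ¬ OE (Ou (0, 0) (4 * M + M)) {(0, 0)} (↑F : Set Edg)) := by
    refine le_trans (Pr_mono ok ?_) (Pr_or_le ok _ _ _)
    intro F _ h
    by_cases h2 : OE (Ou (0, 0) (4 * M + M)) {(0, 0)} (↑F : Set Edg)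
    · exact Or.inl ⟨h, h2⟩
    · exact Or.inr ⟨h, h2⟩
  obtain ⟨B, hB⟩ : ∃ B : ℝ, B = (M : ℝ) ^ (-(5 / 48 : ℝ)) := ⟨_, rfl⟩
  have hB0 : 0 < B := by rw [hB]; positivity
  have harm : arm (1 / 2) M ≤ K0 * B := by rw [hB]; exact hA M M (by omega) le_rfl
  have harm5 : ar (5 * M) ≤ K0 * B := (arm_anti (by norm_num) (by norm_num) (by omega)).trans harm
  have har0 : 0 ≤ ar (5 * M) := (ar_pos _).le
  have hAB : A * B = (M : ℝ) ^ (86 / 48 : ℝ) := by
    rw [hAe, hB, ← Real.rpow_add hM0]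
    norm_num
  have hM2B : (M : ℝ) ^ 2 * B ^ 2 = A * B := by
    rw [hAB, hB, ← Real.rpow_natCast (M : ℝ) 2, ← Real.rpow_natCast ((M : ℝ) ^ (-(5 / 48 : ℝ))) 2,
      ← Real.rpow_mul hM0.le, ← Real.rpow_add hM0]
    norm_num
  have p4 : 4 * t * (C1 * (((5 * M : ℕ) : ℝ) ^ 2 * ar (5 * M) ^ 2)) ≤
      4 * t0 * (C1 * (25 * K0 ^ 2)) * B := by
    have h2 : ((5 * M : ℕ) : ℝ) ^ 2 * ar (5 * M) ^ 2 ≤ (25 * (M : ℝ) ^ 2) * (K0 * B) ^ 2 := by
      have e : ((5 * M : ℕ) : ℝ) ^ 2 = 25 * (M : ℝ) ^ 2 := by push_cast; ring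
      rw [e]
      exact mul_le_mul_of_nonneg_left (pow_le_pow_left₀ har0 harm5 2) (by positivity)
    have h3 : (25 * (M : ℝ) ^ 2) * (K0 * B) ^ 2 = 25 * K0 ^ 2 * (A * B) := by
      rw [← hM2B]; ring
    calc 4 * t * (C1 * (((5 * M : ℕ) : ℝ) ^ 2 * ar (5 * M) ^ 2))
        ≤ 4 * t * (C1 * (25 * K0 ^ 2 * (A * B))) := by
          apply mul_le_mul_of_nonneg_left _ (by positivity)
          apply mul_le_mul_of_nonneg_left _ hC1.le
          rw [← h3]; exact h2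
      _ = 4 * (t * A) * (C1 * (25 * K0 ^ 2)) * B := by ring
      _ = _ := by rw [htA]
  have hexpp : 0 < Real.exp (-(t * n)) := Real.exp_pos _
  have p5 : Pr (fun _ => q) (boxE m) (fun F => Vol (n : ℝ) (↑F : Set Edg)) ≤
      C2 * B * Real.exp (-(t * n)) := by
    have h2 : (2 * 32 ^ 49) * arm (1 / 2) M * Real.exp (-(t * n)) ≤
        (2 * 32 ^ 49) * K0 * B * Real.exp (-(t * n)) := by
      apply mul_le_mul_of_nonneg_right _ hexpp.le
      calc (2 * 32 ^ 49) * arm (1 / 2) M ≤ (2 * 32 ^ 49) * (K0 * B) :=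
            mul_le_mul_of_nonneg_left harm (by positivity)
        _ = _ := by ring
    have h3 := mul_le_mul_of_nonneg_right p4 hexpp.le
    have h4 : C2 * B * Real.exp (-(t * n)) = (2 * 32 ^ 49) * K0 * B * Real.exp (-(t * n)) +
        4 * t0 * (C1 * (25 * K0 ^ 2)) * B * Real.exp (-(t * n)) := by rw [hC2]; ring
    rw [h4]
    linarith
  -- B in terms of n
  have hBn : B ≤ (n : ℝ) ^ (-(5 / 91 : ℝ)) * ((1 / t0 + 1) * (t * n)) := by
    have e1 : B = A ^ (-(5 / 91 : ℝ)) := by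
      rw [hAe, hB, ← Real.rpow_mul hM0.le]
      norm_num
    have e2 : A = n * (t0 / (t * n)) := by
      rw [← htA]; field_simp
    have h3 : A ^ (-(5 / 91 : ℝ)) = (n : ℝ) ^ (-(5 / 91 : ℝ)) * (t0 / (t * n)) ^ (-(5 / 91 : ℝ)) := by
      nth_rewrite 1 [e2]
      exact Real.mul_rpow hn0.le (by positivity)
    rw [e1, h3]
    apply mul_le_mul_of_nonneg_left _ hpn.le
    have h4 : (t0 / (t * n)) ^ (-(5 / 91 : ℝ)) = ((t * n) / t0) ^ (5 / 91 : ℝ) := by
      rw [← inv_div, Real.inv_rpow (by positivity), Real.rpow_neg (by positivity), inv_inv]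
    rw [h4]
    have h5 : (t * n) / t0 ≤ (1 / t0 + 1) * (t * n) := by
      have : (1 / t0 + 1) * (t * n) = (t * n) / t0 + t * n := by ring
      rw [this]; linarith
    have h6 : 1 ≤ (1 / t0 + 1) * (t * n) := by
      have : 0 < 1 / t0 := by positivity
      nlinarith
    calc ((t * n) / t0) ^ (5 / 91 : ℝ) ≤ ((1 / t0 + 1) * (t * n)) ^ (5 / 91 : ℝ) :=
          Real.rpow_le_rpow (by positivity) h5 (by norm_num)
      _ ≤ ((1 / t0 + 1) * (t * n)) ^ (1 : ℝ) :=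
          Real.rpow_le_rpow_of_exponent_le h6 (by norm_num)
      _ = _ := Real.rpow_one _
  have hy : (t * n) * Real.exp (-(t * n)) ≤ 2 * Real.exp (-(t * n / 2)) := by
    have e1 : Real.exp (-(t * n)) = Real.exp (-(t * n / 2)) * Real.exp (-(t * n / 2)) := by
      rw [← Real.exp_add]; congr 1; ring
    have e2 : Real.exp (t * n / 2) * Real.exp (-(t * n / 2)) = 1 := by
      rw [← Real.exp_add]; simp
    have e3 : t * n / 2 ≤ Real.exp (t * n / 2) := by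
      have := Real.add_one_le_exp (t * n / 2)
      linarith
    have e4 : 0 < Real.exp (-(t * n / 2)) := Real.exp_pos _
    have e5 : (t * n) * Real.exp (-(t * n / 2)) ≤ 2 := by
      have := mul_le_mul_of_nonneg_right e3 e4.le
      rw [e2] at this
      linarith
    rw [e1, ← mul_assoc]
    exact mul_le_mul_of_nonneg_right e5 e4.le
  have hlast : Real.exp (-(t * n / 2)) ≤ Real.exp (-(t0 * e0 / 2 * (n * u))) := by
    apply Real.exp_le_exp.mpr
    linarith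
  calc Pr (fun _ => q) (boxE m) (fun F => Vol (n : ℝ) (↑F : Set Edg))
      ≤ C2 * B * Real.exp (-(t * n)) := p5
    _ ≤ C2 * ((n : ℝ) ^ (-(5 / 91 : ℝ)) * ((1 / t0 + 1) * (t * n))) * Real.exp (-(t * n)) := by
        apply mul_le_mul_of_nonneg_right _ hexpp.le
        exact mul_le_mul_of_nonneg_left hBn hC2p.le
    _ = C2 * (1 / t0 + 1) * (n : ℝ) ^ (-(5 / 91 : ℝ)) * ((t * n) * Real.exp (-(t * n))) := by ring
    _ ≤ C2 * (1 / t0 + 1) * (n : ℝ) ^ (-(5 / 91 : ℝ)) * (2 * Real.exp (-(t * n / 2))) :=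
        mul_le_mul_of_nonneg_left hy (by positivity)
    _ = C2 * (2 * (1 / t0 + 1)) * (n : ℝ) ^ (-(5 / 91 : ℝ)) * Real.exp (-(t * n / 2)) := by ring
    _ ≤ C2 * (2 * (1 / t0 + 1)) * (n : ℝ) ^ (-(5 / 91 : ℝ)) *
          Real.exp (-(t0 * e0 / 2 * (n * u))) :=
        mul_le_mul_of_nonneg_left hlast (by positivity)
    _ ≤ _ := by
        apply mul_le_mul_of_nonneg_right _ (Real.exp_pos _).le
        apply mul_le_mul_of_nonneg_right _ hpn.le
        linarith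

end Pool.Agent.TH967.VT
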