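import Pool.Agent.H362P.Base

/-!
Bond percolation on the square lattice at a parameter `q ≥ 1/2`: the price of one more vertex
which is connected to a given set of vertices.
-/

set_option autoImplicit false

namespace Pool.Agent.TH967.VT
open Finset H974 Pool.Agent.H160R2.CV H362P
open Pool.Agent.H160R2.CV.Quad

/-- every vertex of `X` is connected to the set `T` -/
def OE (T : Vtx → Prop) (X : Finset Vtx) (F : Set Edg) : Prop := ∀ u ∈ X, ∃ v, T v ∧ Reach F u v

theorem OE.mono {T : Vtx → Prop} {X : Finset Vtx} {F G : Set Edg} (h : F ⊆ G) (hF : OE T X F) :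
    OE T X G := fun u hu => by
  obtain ⟨v, hv, hr⟩ := hF u hu
  exact ⟨v, hv, hr.mono h⟩

theorem OE_incr (T : Vtx → Prop) (S : Finset Edg) (X : Finset Vtx) :
    IncrE S (fun F => OE T X (↑F)) :=
  fun _ _ h _ hF => OE.mono (by exact_mod_cast h) hF

theorem indepq {q : ℝ} (h0 : 0 ≤ q) (h1 : q ≤ 1) (S S1 S2 : Finset Edg) (hd : Disjoint S1 S2)
    {A B : Finset Edg → Prop} (hA : IncA A) (hB : IncA B) (hA' : LocE S1 A) (hB' : LocE S2 B) :
    Pr (fun _ => q) S (fun F => A F ∧ B F) ≤ Pr (fun _ => q) S1 A * Pr (fun _ => q) S2 B := by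
  have ok := okq h0 h1
  have hi : IncA (fun F => A F ∧ B F) := fun F G h hF => ⟨hA F G h hF.1, hB F G h hF.2⟩
  have e1 : Pr (fun _ => q) S (fun F => A F ∧ B F) ≤
      Pr (fun _ => q) (S ∪ (S1 ∪ S2)) (fun F => A F ∧ B F) :=
    Pr_mono_set ok Finset.subset_union_left (fun F G h _ => hi F G h)
  have s1 : S1 ⊆ S ∪ (S1 ∪ S2) := Finset.subset_union_left.trans Finset.subset_union_right
  have s2 : S2 ⊆ S ∪ (S1 ∪ S2) := Finset.subset_union_right.trans Finset.subset_union_right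
  have e2 := Pr_indep (p := fun _ => q) s1 s2 hd (A := A) (B := B) (fun F _ => hA' F)
    (fun F _ => hB' F)
  have e3 : Pr (fun _ => q) (S ∪ (S1 ∪ S2)) A = Pr (fun _ => q) S1 A :=
    Pr_local s1 (fun F _ => hA' F)
  have e4 : Pr (fun _ => q) (S ∪ (S1 ∪ S2)) B = Pr (fun _ => q) S2 B :=
    Pr_local s2 (fun F _ => hB' F)
  rw [e3, e4] at e2
  exact e1.trans e2.le

theorem pr_LAq {q : ℝ} (h0 : 0 ≤ q) (h1 : q ≤ 1) (S : Finset Edg) (v : Vtx) (m : ℕ) :
    Pr (fun _ => q) S (LA v m) ≤ arm q m := by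
  refine le_trans (Pr_mono (okq h0 h1) ?_) (arm_bound h0 h1 S v m)
  rintro F _ ⟨w, -, k2, k3⟩
  exact ⟨w, by omega, k3.mono Set.inter_subset_left⟩

theorem pr_CAq {q : ℝ} (h0 : 1 / 2 ≤ q) (h1 : q ≤ 1) {c : Vtx} {n : ℕ} (hn : 1 ≤ n)
    {S : Finset Edg} (hS : bo c (3 * n) ⊆ S) :
    (1 / 2 : ℝ) ^ 188 ≤ Pr (fun _ => q) S (CA c n (3 * n)) :=
  (pr_CA hn hS).trans (Pr_mono_param Quad.okP (okq (by linarith) h1) (fun _ => h0)
    (CA_incr S c n (3 * n)))

/-- The price of one more vertex. -/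
theorem add_out {q : ℝ} (h0 : 1 / 2 ≤ q) (h1 : q ≤ 1) {T : Vtx → Prop} {X : Finset Vtx}
    {x : Vtx} {a : ℕ} (hT : ∀ v, T v → a ≤ nv (v - x)) (hX : ∀ u ∈ X, a ≤ nv (u - x))
    {S : Finset Edg} (hS : bo x a ⊆ S) :
    Pr (fun _ => q) S (fun F => OE T (insert x X) (↑F)) ≤
      2 ^ 188 * (arm q (a / 3) * Pr (fun _ => q) S (fun F => OE T X (↑F))) := by
  classical
  have hq0 : 0 ≤ q := by linarith
  have ok := okq hq0 h1
  have hX0 : 0 ≤ Pr (fun _ => q) S (fun F => OE T X (↑F)) := Pr_nonneg ok _ _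
  rcases Nat.lt_or_ge a 3 with h3 | h3
  · have e : a / 3 = 0 := by omega
    rw [e, arm_zero]
    have h4 : Pr (fun _ => q) S (fun F => OE T (insert x X) (↑F)) ≤
        Pr (fun _ => q) S (fun F => OE T X (↑F)) :=
      Pr_mono ok (fun F _ hF u hu => hF u (Finset.mem_insert_of_mem hu))
    have h5 : (1 : ℝ) ≤ 2 ^ 188 := one_le_pow₀ (by norm_num)
    nlinarith
  set r := a / 3 with hr
  have hr1 : 1 ≤ r := by omega
  have h3r : 3 * r ≤ a := by omega
  set B := bo x r with hB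
  set S2 := S \ B with hS2
  set E : Finset Edg → Prop := fun F => OE T X (↑(F ∩ S2) ∪ ↑B) with hE
  have hEi : IncA E := by
    intro F G h hF
    refine OE.mono (Set.union_subset_union_left _ ?_) hF
    exact_mod_cast Finset.inter_subset_inter_right h
  have hEl : LocE S2 E := by
    intro F
    rw [hE]
    simp only [Finset.inter_assoc, Finset.inter_self]
  have hd : Disjoint B S2 := by rw [hS2]; exact Finset.disjoint_sdiff
  have s1 : Pr (fun _ => q) S (fun F => OE T (insert x X) (↑F)) ≤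
      Pr (fun _ => q) S (fun F => LA x r F ∧ E F) := by
    apply Pr_mono ok
    intro F hFS hF
    constructor
    · obtain ⟨v, hv, hr⟩ := hF x (Finset.mem_insert_self _ _)
      exact LA_of_reach (u := v) (by have := hT v hv; omega) hr
    · intro u hu
      obtain ⟨v, hv, hr⟩ := hF u (Finset.mem_insert_of_mem hu)
      refine ⟨v, hv, hr.mono ?_⟩
      intro e he
      by_cases h1 : e ∈ B
      · exact Or.inr (by exact_mod_cast h1)
      · left
        rw [Finset.mem_coe, Finset.mem_inter, hS2, Finset.mem_sdiff]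
        exact ⟨Finset.mem_coe.mp he, hFS (Finset.mem_coe.mp he), h1⟩
  have s2 := indepq hq0 h1 S B S2 hd (LA_inc x r) hEi (LA_loc (Finset.Subset.refl _)) hEl
  have s3 : Pr (fun _ => q) B (LA x r) ≤ arm q r := pr_LAq hq0 h1 _ _ _
  have s4 : Pr (fun _ => q) S2 E ≤ Pr (fun _ => q) S E :=
    Pr_mono_set ok Finset.sdiff_subset (fun F G h _ => hEi F G h)
  have hcirc : (1 / 2 : ℝ) ^ 188 ≤ Pr (fun _ => q) S (CA x r (3 * r)) := by
    apply pr_CAq h0 h1 hr1
    refine Finset.Subset.trans ?_ hS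
    unfold bo
    apply RE_subset <;> push_cast <;> omega
  have s5 : Pr (fun _ => q) S E * Pr (fun _ => q) S (CA x r (3 * r)) ≤
      Pr (fun _ => q) S (fun F => OE T X (↑F)) := by
    refine (Pr_harris ok (fun F G h _ => hEi F G h) (CA_incr S x r (3 * r))).trans ?_
    apply Pr_mono ok
    rintro F _ ⟨h1, h2⟩
    intro u hu
    obtain ⟨v, hv, hr⟩ := h1 u hu
    refine ⟨v, hv, unwire_in (c := x) (R1 := r) (R2 := 3 * r) (by omega) h2 (A := ↑B) ?_
      (h3r.trans (hX u hu)) (h3r.trans (hT v hv)) ?_⟩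
    · intro e he
      exact bo_ends (Finset.mem_coe.mp he)
    · refine hr.mono (Set.union_subset_union_left _ ?_)
      exact_mod_cast Finset.inter_subset_left
  have p0 : 0 ≤ Pr (fun _ => q) S E := Pr_nonneg ok _ _
  have p1 : 0 ≤ arm q r := arm_nonneg hq0 h1 r
  have s6 : Pr (fun _ => q) S E ≤ 2 ^ 188 * Pr (fun _ => q) S (fun F => OE T X (↑F)) := by
    have h1 : Pr (fun _ => q) S E * (1 / 2 : ℝ) ^ 188 ≤
        Pr (fun _ => q) S (fun F => OE T X (↑F)) :=
      (mul_le_mul_of_nonneg_left hcirc p0).trans s5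
    have h2 : Pr (fun _ => q) S E = 2 ^ 188 * (Pr (fun _ => q) S E * (1 / 2 : ℝ) ^ 188) := by
      rw [mul_comm (Pr (fun _ => q) S E), ← mul_assoc, ← mul_pow]; norm_num
    rw [h2]
    exact mul_le_mul_of_nonneg_left h1 (by positivity)
  calc Pr (fun _ => q) S (fun F => OE T (insert x X) (↑F))
      ≤ Pr (fun _ => q) B (LA x r) * Pr (fun _ => q) S2 E := s1.trans s2
    _ ≤ arm q r * (2 ^ 188 * Pr (fun _ => q) S (fun F => OE T X (↑F))) :=
        mul_le_mul s3 (s4.trans s6) (Pr_nonneg ok _ _) p1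
    _ = _ := by ring

/-! ### moments -/

/-- the number of vertices of `D` which are connected to `T` -/
noncomputable def YT (T : Vtx → Prop) (D : Finset Vtx) (F : Finset Edg) : ℝ :=
  ∑ x ∈ D, ind (OE T {x} (↑F))

theorem YT_nonneg (T : Vtx → Prop) (D : Finset Vtx) (F : Finset Edg) : 0 ≤ YT T D F :=
  Finset.sum_nonneg fun _ _ => ind_nonneg _

/-- moments of `YT` on the event `OE T X` -/
noncomputable def Mo (q : ℝ) (S : Finset Edg) (T : Vtx → Prop) (D : Finset Vtx) (k : ℕ)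
    (X : Finset Vtx) : ℝ :=
  Ex (fun _ => q) S (fun F => ind (OE T X (↑F)) * (YT T D F) ^ k)

theorem OE_insert {T : Vtx → Prop} {x : Vtx} {X : Finset Vtx} {F : Set Edg} :
    OE T (insert x X) F ↔ OE T X F ∧ OE T {x} F := by
  unfold OE
  simp only [Finset.mem_insert, Finset.mem_singleton]
  constructor
  · intro h
    exact ⟨fun u hu => h u (Or.inr hu), fun u hu => h u (Or.inl hu)⟩
  · rintro ⟨h1, h2⟩ u (hu | hu)
    · exact h2 u hu
    · exact h1 u hu

theorem Mo_zero (q : ℝ) (S : Finset Edg) (T : Vtx → Prop) (D : Finset Vtx) (X : Finset Vtx) :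
    Mo q S T D 0 X = Pr (fun _ => q) S (fun F => OE T X (↑F)) := by
  unfold Mo Pr
  simp

theorem Mo_succ (q : ℝ) (S : Finset Edg) (T : Vtx → Prop) (D : Finset Vtx) (k : ℕ)
    (X : Finset Vtx) : Mo q S T D (k + 1) X = ∑ x ∈ D, Mo q S T D k (insert x X) := by
  unfold Mo
  rw [← Ex_sum]
  apply Ex_congr
  intro F _
  have h1 : ∀ x ∈ D, ind (OE T (insert x X) (↑F)) * (YT T D F) ^ k =
      (ind (OE T X (↑F)) * (YT T D F) ^ k) * ind (OE T {x} (↑F)) := by
    intro x _
    rw [ind_congr OE_insert, ind_and]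
    ring
  rw [Finset.sum_congr rfl h1, ← Finset.mul_sum, pow_succ]
  unfold YT
  ring

theorem Mo_nonneg {q : ℝ} (h0 : 0 ≤ q) (h1 : q ≤ 1) (S : Finset Edg) (T : Vtx → Prop)
    (D : Finset Vtx) (k : ℕ) (X : Finset Vtx) : 0 ≤ Mo q S T D k X :=
  Ex_nonneg (okq h0 h1) fun _ _ => mul_nonneg (ind_nonneg _) (pow_nonneg (YT_nonneg _ _ _) _)

/-- The moments in terms of the price of one more vertex. -/
theorem Mo_le {q : ℝ} (h0 : 0 ≤ q) (h1 : q ≤ 1) {S : Finset Edg} {T : Vtx → Prop}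
    {D : Finset Vtx} {K : ℝ} (hK : 0 ≤ K)
    (H : ∀ X, X ⊆ D → ∑ x ∈ D, Pr (fun _ => q) S (fun F => OE T (insert x X) (↑F)) ≤
      K * ((X.card : ℝ) + 1) * Pr (fun _ => q) S (fun F => OE T X (↑F)))
    (k : ℕ) : ∀ X, X ⊆ D → Mo q S T D k X ≤
      K ^ k * ((X.card + 1).ascFactorial k : ℕ) * Pr (fun _ => q) S (fun F => OE T X (↑F)) := by
  induction k with
  | zero =>
    intro X _
    rw [Mo_zero]
    simp
  | succ k ih =>
    intro X hX
    rw [Mo_succ]
    have h1' : ∀ x ∈ D, Mo q S T D k (insert x X) ≤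
        (K ^ k * ((X.card + 2).ascFactorial k : ℕ)) *
          Pr (fun _ => q) S (fun F => OE T (insert x X) (↑F)) := by
      intro x hx
      refine (ih (insert x X) (Finset.insert_subset hx hX)).trans ?_
      apply mul_le_mul_of_nonneg_right _ (Pr_nonneg (okq h0 h1) _ _)
      apply mul_le_mul_of_nonneg_left _ (pow_nonneg hK _)
      have h2 : (insert x X).card ≤ X.card + 1 := Finset.card_insert_le _ _
      exact_mod_cast Nat.ascFactorial_le k (by omega)
    refine (Finset.sum_le_sum h1').trans ?_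
    rw [← Finset.mul_sum]
    refine (mul_le_mul_of_nonneg_left (H X hX) (by positivity)).trans (le_of_eq ?_)
    have e : (X.card + 1) * (X.card + 2).ascFactorial k = (X.card + 1).ascFactorial (k + 1) := by
      rw [Nat.ascFactorial_succ]
      exact Nat.succ_ascFactorial (X.card + 1) k
    rw [← e]
    push_cast
    ring

end Pool.Agent.TH967.VT
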