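import Pool.Agent.H974R2.Basic

/-!
Connected sets of `ℤ²`, products of local functions, and a coloured version of Hölder's
inequality.
-/

set_option autoImplicit false

namespace Pool.Agent.TH967.VT
open Finset H974

/-- nearest neighbours of `ℤ²` -/
def nnb (a b : ℤ × ℤ) : Prop :=
  (a.1 = b.1 ∧ (b.2 = a.2 + 1 ∨ a.2 = b.2 + 1)) ∨ (a.2 = b.2 ∧ (b.1 = a.1 + 1 ∨ a.1 = b.1 + 1))

/-- `A` is connected and contains `o` -/
def ConnA (A : Finset (ℤ × ℤ)) (o : ℤ × ℤ) : Prop :=
  o ∈ A ∧ ∀ x ∈ A, Relation.ReflTransGen (fun a b => a ∈ A ∧ b ∈ A ∧ nnb a b) o x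

/-- the four neighbours -/
def nbr (a : ℤ × ℤ) : Finset (ℤ × ℤ) :=
  {(a.1 + 1, a.2), (a.1 - 1, a.2), (a.1, a.2 + 1), (a.1, a.2 - 1)}

theorem mem_nbr {a b : ℤ × ℤ} (h : nnb a b) : b ∈ nbr a := by
  obtain ⟨a1, a2⟩ := a
  obtain ⟨b1, b2⟩ := b
  unfold nnb at h
  unfold nbr
  simp only [Finset.mem_insert, Finset.mem_singleton, Prod.mk.injEq] at h ⊢
  omega

theorem card_nbr (a : ℤ × ℤ) : (nbr a).card ≤ 4 := Finset.card_le_four

/-- the outer boundary -/
def bdA (A : Finset (ℤ × ℤ)) : Finset (ℤ × ℤ) := A.biUnion nbr \ A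

theorem card_bdA (A : Finset (ℤ × ℤ)) : (A ∪ bdA A).card ≤ 5 * A.card := by
  have h1 : (bdA A).card ≤ A.card * 4 := by
    unfold bdA
    exact (Finset.card_le_card Finset.sdiff_subset).trans
      (Finset.card_biUnion_le_card_mul _ _ _ (fun v _ => card_nbr v))
  have h2 := Finset.card_union_le A (bdA A)
  omega

theorem conn_sub {A A' S : Finset (ℤ × ℤ)} {o : ℤ × ℤ} (hA : ConnA A o) (hAS : A ⊆ S)
    (ho : o ∈ A') (hd : Disjoint S (bdA A')) : A ⊆ A' := by
  intro x hx
  have h := hA.2 x hx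
  induction h with
  | refl => exact ho
  | tail h1 h2 ih =>
    obtain ⟨hb, hc, hn⟩ := h2
    have ih' := ih hb
    by_contra hcon
    apply Finset.disjoint_left.1 hd (hAS hc)
    unfold bdA
    rw [Finset.mem_sdiff, Finset.mem_biUnion]
    exact ⟨⟨_, ih', mem_nbr hn⟩, hcon⟩

/-- The number of connected sets. -/
theorem animal_sum (W : Finset (ℤ × ℤ)) (o : ℤ × ℤ) (𝒜 : Finset (Finset (ℤ × ℤ)))
    (h : ∀ A ∈ 𝒜, A ⊆ W ∧ ConnA A o) : ∑ A ∈ 𝒜, (1 / 32 : ℝ) ^ A.card ≤ 1 := by
  classical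
  obtain ⟨U, hU⟩ : ∃ U : Finset (ℤ × ℤ) → Finset (Finset (ℤ × ℤ)),
      U = fun A => W.powerset.filter (fun S => A ⊆ S ∧ Disjoint S (bdA A)) := ⟨_, rfl⟩
  have hmem : ∀ A S, S ∈ U A ↔ S ⊆ W ∧ A ⊆ S ∧ Disjoint S (bdA A) := by
    intro A S
    rw [hU]
    simp only [Finset.mem_filter, Finset.mem_powerset]
  have hdis : ∀ A ∈ 𝒜, ∀ A' ∈ 𝒜, A ≠ A' → Disjoint (U A) (U A') := by
    intro A hA A' hA' hne
    rw [Finset.disjoint_left]
    intro S h1 h2
    rw [hmem] at h1 h2
    exact hne (Finset.Subset.antisymm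
      (conn_sub (h A hA).2 h1.2.1 (h A' hA').2.1 h2.2.2)
      (conn_sub (h A' hA').2 h2.2.1 (h A hA).2.1 h1.2.2))
  have hcard : ∀ A ∈ 𝒜, (2 : ℝ) ^ W.card * (1 / 32 : ℝ) ^ A.card ≤ ((U A).card : ℝ) := by
    intro A hA
    have h1 : (W \ (A ∪ bdA A)).powerset.card ≤ (U A).card := by
      apply Finset.card_le_card_of_injOn (fun T => A ∪ T)
      · intro T hT
        rw [Finset.mem_coe, Finset.mem_powerset] at hT
        rw [Finset.mem_coe, hmem]
        refine ⟨Finset.union_subset (h A hA).1 (hT.trans Finset.sdiff_subset),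
          Finset.subset_union_left, ?_⟩
        rw [Finset.disjoint_union_left]
        constructor
        · unfold bdA
          exact Finset.disjoint_sdiff
        · rw [Finset.disjoint_left]
          intro x hx hxB
          exact (Finset.mem_sdiff.1 (hT hx)).2 (Finset.mem_union_right _ hxB)
      · intro T hT T' hT' he
        rw [Finset.mem_coe, Finset.mem_powerset] at hT hT'
        have hkey : ∀ T : Finset (ℤ × ℤ), T ⊆ W \ (A ∪ bdA A) → T = (A ∪ T) \ A := by
          intro T hT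
          ext x
          rw [Finset.mem_sdiff, Finset.mem_union]
          constructor
          · intro hx
            exact ⟨Or.inr hx, fun hxC => (Finset.mem_sdiff.1 (hT hx)).2
              (Finset.mem_union_left _ hxC)⟩
          · rintro ⟨h1 | h1, h2⟩
            · exact absurd h1 h2
            · exact h1
        rw [hkey T hT, hkey T' hT']
        exact congrArg (· \ A) he
    rw [Finset.card_powerset] at h1
    have h2 := card_bdA A
    have h3 : W.card ≤ (W \ (A ∪ bdA A)).card + 5 * A.card := by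
      have := Finset.le_card_sdiff (A ∪ bdA A) W
      omega
    have h4 : 2 ^ W.card ≤ 32 ^ A.card * (U A).card := by
      calc 2 ^ W.card ≤ 2 ^ ((W \ (A ∪ bdA A)).card + 5 * A.card) :=
            Nat.pow_le_pow_right (by norm_num) h3
        _ = 32 ^ A.card * 2 ^ (W \ (A ∪ bdA A)).card := by
            rw [pow_add, pow_mul, mul_comm]
            norm_num
        _ ≤ _ := Nat.mul_le_mul_left _ h1
    have h5 : (2 : ℝ) ^ W.card ≤ 32 ^ A.card * ((U A).card : ℝ) := by exact_mod_cast h4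
    have h6 : (1 / 32 : ℝ) ^ A.card * 32 ^ A.card = 1 := by
      rw [← mul_pow]; norm_num
    calc (2 : ℝ) ^ W.card * (1 / 32 : ℝ) ^ A.card
        ≤ (32 ^ A.card * ((U A).card : ℝ)) * (1 / 32 : ℝ) ^ A.card :=
          mul_le_mul_of_nonneg_right h5 (by positivity)
      _ = ((1 / 32 : ℝ) ^ A.card * 32 ^ A.card) * ((U A).card : ℝ) := by ring
      _ = _ := by rw [h6, one_mul]
  have hsum : ∑ A ∈ 𝒜, (U A).card ≤ 2 ^ W.card := by
    rw [← Finset.card_biUnion (fun A hA A' hA' hne => hdis A hA A' hA' hne),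
      ← Finset.card_powerset]
    apply Finset.card_le_card
    intro S hS
    rw [Finset.mem_biUnion] at hS
    obtain ⟨A, _, hS⟩ := hS
    rw [hmem] at hS
    exact Finset.mem_powerset.2 hS.1
  have h2W : (0 : ℝ) < (2 : ℝ) ^ W.card := by positivity
  have h7 : (2 : ℝ) ^ W.card * ∑ A ∈ 𝒜, (1 / 32 : ℝ) ^ A.card ≤ (2 : ℝ) ^ W.card * 1 := by
    rw [Finset.mul_sum, mul_one]
    refine (Finset.sum_le_sum hcard).trans ?_
    exact_mod_cast hsum
  exact le_of_mul_le_mul_left h7 h2W

/-! ### products of local functions -/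

section Prod

variable {E : Type*} [DecidableEq E]

theorem Ex_prod_indep {p : E → ℝ} {U : Finset E} {ι : Type*} [DecidableEq ι] (B : Finset ι)
    (Sz : ι → Finset E) (f : ι → Finset E → ℝ) (hS : ∀ z ∈ B, Sz z ⊆ U)
    (hd : ∀ z ∈ B, ∀ z' ∈ B, z ≠ z' → Disjoint (Sz z) (Sz z'))
    (hf : ∀ z ∈ B, ∀ F, f z F = f z (F ∩ Sz z)) :
    Ex p U (fun F => ∏ z ∈ B, f z F) = ∏ z ∈ B, Ex p U (f z) := by
  induction B using Finset.induction_on with
  | empty => simp [Ex_const]
  | insert a B ha ih =>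
    rw [Finset.prod_insert ha]
    have ih' := ih (fun z hz => hS z (Finset.mem_insert_of_mem hz))
      (fun z hz z' hz' => hd z (Finset.mem_insert_of_mem hz) z' (Finset.mem_insert_of_mem hz'))
      (fun z hz => hf z (Finset.mem_insert_of_mem hz))
    rw [← ih']
    have e : (fun F => ∏ z ∈ insert a B, f z F) = fun F => f a F * ∏ z ∈ B, f z F := by
      funext F
      rw [Finset.prod_insert ha]
    rw [e]
    apply Ex_mul_indep (S := Sz a) (T := B.biUnion Sz)
    · exact hS a (Finset.mem_insert_self _ _)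
    · rw [Finset.biUnion_subset]
      exact fun z hz => hS z (Finset.mem_insert_of_mem hz)
    · rw [Finset.disjoint_biUnion_right]
      intro z hz
      exact hd a (Finset.mem_insert_self _ _) z (Finset.mem_insert_of_mem hz)
        (fun h => ha (h ▸ hz))
    · exact fun F _ => hf a (Finset.mem_insert_self _ _) F
    · intro F _
      apply Finset.prod_congr rfl
      intro z hz
      have hz' : z ∈ insert a B := Finset.mem_insert_of_mem hz
      rw [hf z hz' F, hf z hz' (F ∩ B.biUnion Sz)]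
      congr 1
      ext x
      simp only [Finset.mem_inter, Finset.mem_biUnion]
      constructor
      · rintro ⟨h1, h2⟩
        exact ⟨⟨h1, z, hz, h2⟩, h2⟩
      · rintro ⟨⟨h1, _⟩, h2⟩
        exact ⟨h1, h2⟩

/-- the inequality between the geometric and the arithmetic mean for 25 numbers -/
theorem amgm25 (b : Fin 25 → ℝ) (hb : ∀ i, 0 ≤ b i) :
    ∏ i, b i ≤ ∑ i, (1 / 25 : ℝ) * b i ^ 25 := by
  have h := Real.geom_mean_le_arith_mean_weighted (Finset.univ : Finset (Fin 25))
    (fun _ => (1 / 25 : ℝ)) (fun i => b i ^ 25) (fun _ _ => by norm_num) (by simp)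
    (fun i _ => pow_nonneg (hb i) 25)
  refine le_trans (le_of_eq ?_) h
  apply Finset.prod_congr rfl
  intro i _
  have h2 := Real.pow_rpow_inv_natCast (hb i) (n := 25) (by norm_num)
  rw [← one_div] at h2
  exact_mod_cast h2.symm

/-- Hölder's inequality for a product whose factors are coloured with 25 colours. -/
theorem holder25 {p : E → ℝ} (hp : Ok p) (U : Finset E) {ι : Type*} [DecidableEq ι]
    (A : Finset ι) (κ : ι → Fin 25) (w : ι → Finset E → ℝ) (hw : ∀ z ∈ A, ∀ F, 0 ≤ w z F)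
    {r : ℝ} (hr : 0 < r)
    (H : ∀ i, Ex p U (fun F => ∏ z ∈ A.filter (fun z => κ z = i), w z F ^ 25) ≤
      (r ^ 25) ^ (A.filter (fun z => κ z = i)).card) :
    Ex p U (fun F => ∏ z ∈ A, w z F) ≤ r ^ A.card := by
  have h1 : ∀ F, ∏ z ∈ A, w z F ≤ r ^ A.card * ∑ i : Fin 25, (1 / 25 : ℝ) *
      ((∏ z ∈ A.filter (fun z => κ z = i), w z F ^ 25) /
        (r ^ 25) ^ (A.filter (fun z => κ z = i)).card) := by
    intro F
    have e1 : ∏ z ∈ A, w z F = r ^ A.card * ∏ i : Fin 25, ∏ z ∈ A.filter (fun z => κ z = i),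
        (w z F / r) := by
      rw [Finset.prod_fiberwise A κ (fun z => w z F / r)]
      rw [Finset.prod_div_distrib, Finset.prod_const]
      field_simp
    rw [e1]
    apply mul_le_mul_of_nonneg_left _ (by positivity)
    refine (amgm25 _ (fun i => Finset.prod_nonneg fun z hz =>
      div_nonneg (hw z (Finset.mem_filter.1 hz).1 F) hr.le)).trans (le_of_eq ?_)
    apply Finset.sum_congr rfl
    intro i _
    congr 1
    rw [← Finset.prod_pow]
    simp only [div_pow]
    rw [Finset.prod_div_distrib, Finset.prod_const]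
  have h2 : Ex p U (fun F => ∏ z ∈ A, w z F) ≤ Ex p U (fun F => r ^ A.card *
      ∑ i : Fin 25, (1 / 25 : ℝ) * ((∏ z ∈ A.filter (fun z => κ z = i), w z F ^ 25) /
        (r ^ 25) ^ (A.filter (fun z => κ z = i)).card)) := Ex_mono hp (fun F _ => h1 F)
  refine h2.trans ?_
  rw [Ex_mul_left, Ex_sum]
  have h3 : ∑ i : Fin 25, Ex p U (fun F => (1 / 25 : ℝ) *
      ((∏ z ∈ A.filter (fun z => κ z = i), w z F ^ 25) /
        (r ^ 25) ^ (A.filter (fun z => κ z = i)).card)) ≤ ∑ _i : Fin 25, (1 / 25 : ℝ) := by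
    apply Finset.sum_le_sum
    intro i _
    rw [Ex_mul_left]
    have e : (fun F => (∏ z ∈ A.filter (fun z => κ z = i), w z F ^ 25) /
        (r ^ 25) ^ (A.filter (fun z => κ z = i)).card) =
        fun F => ((r ^ 25) ^ (A.filter (fun z => κ z = i)).card)⁻¹ *
          (∏ z ∈ A.filter (fun z => κ z = i), w z F ^ 25) := by
      funext F
      rw [div_eq_inv_mul]
    rw [e, Ex_mul_left]
    have hpos : 0 < (r ^ 25) ^ (A.filter (fun z => κ z = i)).card := by positivity
    have h4 := mul_le_mul_of_nonneg_left (H i) (inv_pos.2 hpos).le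
    rw [inv_mul_cancel₀ hpos.ne'] at h4
    linarith
  have h5 : ∑ _i : Fin 25, (1 / 25 : ℝ) = 1 := by simp
  rw [h5] at h3
  calc _ ≤ r ^ A.card * 1 := mul_le_mul_of_nonneg_left h3 (by positivity)
    _ = _ := mul_one _

end Prod

end Pool.Agent.TH967.VT
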