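import Pool.Agent.TH967.VT.Sum
import Pool.Agent.TH967.VT.Anim
import Pool.Agent.H974R2.Static

/-!
Blocks of size `M` below the critical point: crossings of blocks and exponential moments.
-/

set_option autoImplicit false

namespace Pool.Agent.TH967.VT
open Finset H974 Pool.Agent.H160R2.CV H362P
open Pool.Agent.H160R2.CV.Quad

/-- outside of the box of radius `R` around `c` -/
def Ou (c : Vtx) (R : ℕ) (v : Vtx) : Prop := R ≤ nv (v - c)

theorem OE_loc {c : Vtx} {R : ℕ} {x : Vtx} (hx : nv (x - c) ≤ R) {F : Set Edg} :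
    OE (Ou c R) {x} F ↔ OE (Ou c R) {x} (F ∩ ↑(bo c R)) := by
  constructor
  · intro h u hu
    rw [Finset.mem_singleton] at hu
    subst hu
    obtain ⟨v, hv, hr⟩ := h u (Finset.mem_singleton_self _)
    obtain ⟨w, k1, k2, k3⟩ := first_exit (a := c.1 - R) (b := c.1 + R) (c := c.2 - R)
      (d := c.2 + R) (u := u) (v := v) (by
        unfold nv at hx
        simp only [Prod.fst_sub, Prod.snd_sub] at hx
        unfold inR
        omega) hr (by
        unfold Ou nv at hv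
        simp only [Prod.fst_sub, Prod.snd_sub] at hv
        omega)
    refine ⟨w, ?_, k3⟩
    unfold Ou nv
    simp only [Prod.fst_sub, Prod.snd_sub]
    unfold inR at k1
    omega
  · exact OE.mono Set.inter_subset_left

theorem YT_loc {c : Vtx} {R R1 : ℕ} (hR : R1 ≤ R) (F : Finset Edg) :
    YT (Ou c R) (Bc c R1) F = YT (Ou c R) (Bc c R1) (F ∩ bo c R) := by
  unfold YT
  apply Finset.sum_congr rfl
  intro x hx
  rw [mem_Bc] at hx
  apply ind_congr
  rw [Finset.coe_inter]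
  exact OE_loc (by omega)

/-- a crossing of the block of radius `M` around `c` -/
def Act (c : Vtx) (M : ℕ) (F : Finset Edg) : Prop :=
  ∃ u : Vtx, nv (u - c) ≤ M - 1 ∧ OE (Ou c (M + M)) {u} (↑F)

theorem Act_loc {c : Vtx} {M : ℕ} (F : Finset Edg) :
    Act c M F ↔ Act c M (F ∩ bo c (M + M)) := by
  unfold Act
  constructor
  · rintro ⟨u, hu, h⟩
    refine ⟨u, hu, ?_⟩
    rw [Finset.coe_inter]
    exact (OE_loc (by omega)).mp h
  · rintro ⟨u, hu, h⟩
    refine ⟨u, hu, ?_⟩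
    rw [Finset.coe_inter] at h
    exact (OE_loc (by omega)).mpr h

theorem nblk_cross {F : Finset Edg} {R1 R2 : ℤ} (_h1 : 0 ≤ R1) (h2 : R1 < R2) {u v : Vtx}
    (hu : inR (-R1) R1 (-R1) R1 u)
    (h : Reach (↑F : Set Edg) u v) (hv : v.1 ≤ -R2 ∨ R2 ≤ v.1 ∨ v.2 ≤ -R2 ∨ R2 ≤ v.2) :
    ¬ Blk R1 R2 F := by
  unfold inR at hu
  obtain ⟨w, k1, k2, k3⟩ := first_exit (a := -R2) (b := R2) (c := -R2) (d := R2)
    (by unfold inR; omega) h hv
  rintro ⟨hb1, hb2⟩
  rcases k2 with k2 | k2 | k2 | k2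
  · apply hb1
    right
    obtain ⟨y1, y2, m1, m2, m3, -⟩ := sub_LR (a := -R2) (b := -R1) (c := -R2) (d := R2) (by omega)
      (by rintro x y ⟨-, h⟩ _ _; simp only [mem_coe, mem_RE_true] at h; omega)
      (by rintro x y ⟨-, h⟩ _ _; simp only [mem_coe, mem_RE_false] at h; omega)
      k3.symm k2.le (show -R1 ≤ u.1 by omega)
    exact ⟨y1, y2, m1, m2, m3.mono (by rintro e ⟨⟨h4, -⟩, h5⟩; exact ⟨h4, h5⟩)⟩
  · apply hb1
    left
    obtain ⟨y1, y2, m1, m2, m3, -⟩ := sub_LR (a := R1) (b := R2) (c := -R2) (d := R2) (by omega)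
      (by rintro x y ⟨-, h⟩ _ _; simp only [mem_coe, mem_RE_true] at h; omega)
      (by rintro x y ⟨-, h⟩ _ _; simp only [mem_coe, mem_RE_false] at h; omega)
      k3 (show u.1 ≤ R1 by omega) k2.ge
    exact ⟨y1, y2, m1, m2, m3.mono (by rintro e ⟨⟨h4, -⟩, h5⟩; exact ⟨h4, h5⟩)⟩
  · apply hb2
    right
    obtain ⟨y1, y2, m1, m2, m3, -⟩ := sub_TB (a := -R2) (b := R2) (c := -R2) (d := -R1) (by omega)
      (by rintro x y ⟨-, h⟩ _ _; simp only [mem_coe, mem_RE_false] at h; omega)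
      (by rintro x y ⟨-, h⟩ _ _; simp only [mem_coe, mem_RE_true] at h; omega)
      k3.symm k2.le (show -R1 ≤ u.2 by omega)
    exact ⟨y1, y2, m1, m2, m3.mono (by rintro e ⟨⟨h4, -⟩, h5⟩; exact ⟨h4, h5⟩)⟩
  · apply hb2
    left
    obtain ⟨y1, y2, m1, m2, m3, -⟩ := sub_TB (a := -R2) (b := R2) (c := R1) (d := R2) (by omega)
      (by rintro x y ⟨-, h⟩ _ _; simp only [mem_coe, mem_RE_false] at h; omega)
      (by rintro x y ⟨-, h⟩ _ _; simp only [mem_coe, mem_RE_true] at h; omega)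
      k3 (show u.2 ≤ R1 by omega) k2.ge
    exact ⟨y1, y2, m1, m2, m3.mono (by rintro e ⟨⟨h4, -⟩, h5⟩; exact ⟨h4, h5⟩)⟩

/-- annuli of radii `M - 1`, `2 M - 1` are rarely crossed -/
def Sub (q : ℝ) (M : ℕ) (δ : ℝ) : Prop :=
  ∀ S : Finset Edg, annE (M - 1) (2 * M - 1) ⊆ S →
    Pr (fun _ => q) S (fun F => ¬ Blk ((M - 1 : ℕ) : ℤ) ((2 * M - 1 : ℕ) : ℤ) F) ≤ δ

theorem pr_Act {q : ℝ} (h0 : 0 ≤ q) (h1 : q ≤ 1) {M : ℕ} (hM : 2 ≤ M) {δ : ℝ}
    (hδ : Sub q M δ) {c : Vtx} {S : Finset Edg} (hS : bo c (M + M) ⊆ S) :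
    Pr (fun _ => q) S (Act c M) ≤ δ := by
  have s1 : annE (M - 1) (2 * M - 1) ⊆ (trl (-c.1) (-c.2)).mp S := by
    have h2 : annE (M - 1) (2 * M - 1) ⊆ boxE (M + M) := by
      unfold annE
      exact Finset.sdiff_subset.trans (boxE_mono (by omega))
    refine h2.trans ?_
    rw [← trl_bo c (M + M)]
    exact LSym.mp_mono _ hS
  refine le_trans ?_ (hδ _ s1)
  rw [LSym.pr]
  apply Pr_mono (okq h0 h1)
  rintro F _ ⟨u, hu, h⟩
  obtain ⟨v, hv, hr⟩ := h u (Finset.mem_singleton_self _)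
  have h3 := (trl (-c.1) (-c.2)).reach hr
  rw [← LSym.coe_mp, trl_neg, trl_neg] at h3
  refine nblk_cross (u := u - c) (v := v - c) (by positivity) (by omega) ?_ h3 ?_
  · unfold nv at hu
    unfold inR
    omega
  · unfold Ou nv at hv
    omega

theorem YT_incr {T : Vtx → Prop} {D : Finset Vtx} {F G : Finset Edg} (h : F ⊆ G) :
    YT T D F ≤ YT T D G :=
  Finset.sum_le_sum fun x _ => ind_mono (OE.mono (by exact_mod_cast h))

/-- Exponential moments at and below `1/2`. -/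
theorem exp_low {q : ℝ} (h0 : 0 ≤ q) (h1 : q ≤ 1 / 2) {S : Finset Edg} {T : Vtx → Prop}
    {D : Finset Vtx} {d : Vtx → ℕ} {G : ℝ} (h : Good (1 / 2) S T D d G) {t : ℝ} (ht0 : 0 ≤ t)
    (ht : t * (2 ^ 188 * G) ≤ 1 / 4) {X : Finset Vtx} (hX : X ⊆ D) (hc : X.card ≤ 1) :
    Ex (fun _ => q) S (fun F => ind (OE T X (↑F)) * Real.exp (t * YT T D F)) ≤
      2 * Pr (fun _ => (1 / 2 : ℝ)) S (fun F => OE T X (↑F)) := by
  refine le_trans (Ex_mono_param (okq h0 (by linarith)) (okq (by norm_num) (by norm_num))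
    (fun _ => h1) ?_) (h.expo ht0 ht hX hc)
  intro F F' hF _
  apply mul_le_mul (ind_mono (OE.mono (by exact_mod_cast hF))) _ (Real.exp_pos _).le (ind_nonneg _)
  apply Real.exp_le_exp.mpr
  exact mul_le_mul_of_nonneg_left (YT_incr hF) ht0

theorem exp_low0 {q : ℝ} (h0 : 0 ≤ q) (h1 : q ≤ 1 / 2) {S : Finset Edg} {T : Vtx → Prop}
    {D : Finset Vtx} {d : Vtx → ℕ} {G : ℝ} (h : Good (1 / 2) S T D d G) {t : ℝ} (ht0 : 0 ≤ t)
    (ht : t * (2 ^ 188 * G) ≤ 1 / 4) :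
    Ex (fun _ => q) S (fun F => Real.exp (t * YT T D F)) ≤ 2 := by
  have h2 := exp_low h0 h1 h ht0 ht (Finset.empty_subset D) (by simp)
  have e : Ex (fun _ => q) S (fun F => Real.exp (t * YT T D F)) =
      Ex (fun _ => q) S (fun F => ind (OE T ∅ (↑F)) * Real.exp (t * YT T D F)) := by
    apply Ex_congr
    intro F _
    have h3 : OE T ∅ (↑F : Set Edg) := fun u hu => absurd hu (Finset.notMem_empty u)
    rw [ind_of h3, one_mul]
  rw [e]
  have h4 : Pr (fun _ => (1 / 2 : ℝ)) S (fun F => OE T ∅ (↑F)) ≤ 1 :=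
    Pr_le_one (okq (by norm_num) (by norm_num)) _ _
  linarith

/-- the weight of a block -/
noncomputable def wt (t : ℝ) (M : ℕ) (c : Vtx) (F : Finset Edg) : ℝ :=
  ind (Act c M F) * Real.exp (t * YT (Ou c (M + M)) (Bc c M) F)

theorem wt_nonneg (t : ℝ) (M : ℕ) (c : Vtx) (F : Finset Edg) : 0 ≤ wt t M c F :=
  mul_nonneg (ind_nonneg _) (Real.exp_pos _).le

theorem wt_loc (t : ℝ) (M : ℕ) (c : Vtx) (F : Finset Edg) :
    wt t M c F = wt t M c (F ∩ bo c (M + M)) := by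
  unfold wt
  rw [← YT_loc (by omega), ind_congr (Act_loc (c := c) (M := M) F)]

theorem wt_pow (t : ℝ) (M : ℕ) (c : Vtx) (F : Finset Edg) {k : ℕ} (hk : k ≠ 0) :
    wt t M c F ^ k = wt (k * t) M c F := by
  unfold wt
  rw [mul_pow, ← Real.exp_nat_mul]
  congr 1
  · by_cases h : Act c M F
    · rw [ind_of h, one_pow]
    · rw [ind_not_of h, zero_pow hk]
  · congr 1
    ring

theorem wt_ex {q K0 : ℝ} (h0 : 0 ≤ q) (h1 : q ≤ 1 / 2) {M : ℕ} (hM : 2 ≤ M)
    (hA : ArmUp (1 / 2) K0 (8 * M)) (hK : 1 ≤ K0) {δ : ℝ} (hδ0 : 0 ≤ δ) (hδ : Sub q M δ) {c : Vtx}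
    {S : Finset Edg} (hS : bo c (M + M) ⊆ S) {t : ℝ} (ht0 : 0 ≤ t)
    (ht : 2 * t * (2 ^ 188 * GG K0 M) ≤ 1 / 4) :
    Ex (fun _ => q) S (wt t M c) ≤ Real.sqrt (2 * δ) := by
  have ok := okq h0 (by linarith)
  have hg := good_out (q := 1 / 2) (K0 := K0) (N := M) (R1 := M) (by omega) (by omega) hA hK le_rfl
    (by norm_num) c hS
  have h2 := Ex_cs ok S (fun F => ind (Act c M F))
    (fun F => Real.exp (t * YT (Ou c (M + M)) (Bc c M) F))
  have e1 : Ex (fun _ => q) S (fun F => (ind (Act c M F)) ^ 2) =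
      Pr (fun _ => q) S (Act c M) := by
    unfold Pr
    apply Ex_congr
    intro F _
    rw [sq, ind_sq]
  have e2 : Ex (fun _ => q) S (fun F => (Real.exp (t * YT (Ou c (M + M)) (Bc c M) F)) ^ 2) ≤ 2 := by
    have e3 : Ex (fun _ => q) S (fun F => (Real.exp (t * YT (Ou c (M + M)) (Bc c M) F)) ^ 2) =
        Ex (fun _ => q) S (fun F => Real.exp (2 * t * YT (Ou c (M + M)) (Bc c M) F)) := by
      apply Ex_congr
      intro F _
      rw [← Real.exp_nat_mul]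
      congr 1
      push_cast
      ring
    rw [e3]
    exact exp_low0 h0 h1 hg (by linarith) ht
  have e4 := pr_Act h0 (by linarith) hM hδ hS
  apply Real.le_sqrt_of_sq_le
  refine h2.trans ?_
  rw [e1]
  calc _ ≤ δ * 2 := mul_le_mul e4 e2 (Ex_nonneg ok fun F _ => sq_nonneg _) hδ0
    _ = 2 * δ := mul_comm _ _

/-- the centre of a block -/
def cz (M : ℕ) (z : ℤ × ℤ) : Vtx := (M * z.1, M * z.2)

/-- the colour of a block -/
def col (z : ℤ × ℤ) : Fin 25 :=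
  ⟨(z.1 % 5).toNat * 5 + (z.2 % 5).toNat, by omega⟩

theorem col_disj {M : ℕ} (hM : 1 ≤ M) {z z' : ℤ × ℤ} (hne : z ≠ z') (hc : col z = col z') :
    Disjoint (bo (cz M z) (M + M)) (bo (cz M z') (M + M)) := by
  apply bo_disj
  obtain ⟨a, b⟩ := z
  obtain ⟨a', b'⟩ := z'
  unfold col at hc
  simp only [Fin.mk.injEq] at hc
  have h1 : a % 5 = a' % 5 ∧ b % 5 = b' % 5 := by omega
  have h2 : a ≠ a' ∨ b ≠ b' := by
    by_contra hcon
    push Not at hcon
    exact hne (Prod.ext hcon.1 hcon.2)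
  unfold cz nv
  simp only [Prod.fst_sub, Prod.snd_sub]
  have key : ∀ x y : ℤ, x % 5 = y % 5 → x ≠ y → M + M + (M + M) + 1 ≤ ((M : ℤ) * x - M * y).natAbs := by
    intro x y h3 h4
    have h5 : 5 ≤ (x - y).natAbs := by omega
    rw [← mul_sub, Int.natAbs_mul, Int.natAbs_natCast]
    calc M + M + (M + M) + 1 ≤ M * 5 := by omega
      _ ≤ M * (x - y).natAbs := Nat.mul_le_mul_left _ h5
  rcases h2 with h2 | h2
  · have := key a a' h1.1 h2
    omega
  · have := key b b' h1.2 h2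
    omega

/-- The weights of many blocks. -/
theorem blocks {q K0 : ℝ} (h0 : 0 ≤ q) (h1 : q ≤ 1 / 2) {M : ℕ} (hM : 2 ≤ M)
    (hA : ArmUp (1 / 2) K0 (8 * M)) (hK : 1 ≤ K0) {δ : ℝ} (hδ0 : 0 ≤ δ) (hδ : Sub q M δ)
    (hδ1 : 2 * δ ≤ ((1 / 1024 : ℝ) ^ 25) ^ 2) (A : Finset (ℤ × ℤ))
    {S : Finset Edg} (hS : ∀ z ∈ A, bo (cz M z) (M + M) ⊆ S) {t : ℝ} (ht0 : 0 ≤ t)
    (ht : 50 * t * (2 ^ 188 * GG K0 M) ≤ 1 / 4) :
    Ex (fun _ => q) S (fun F => ∏ z ∈ A, wt t M (cz M z) F) ≤ (1 / 1024 : ℝ) ^ A.card := by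
  have ok := okq h0 (by linarith)
  apply holder25 ok S A col (fun z F => wt t M (cz M z) F) (fun z _ F => wt_nonneg _ _ _ _)
    (by norm_num)
  intro i
  have e1 : (fun F => ∏ z ∈ A.filter (fun z => col z = i), wt t M (cz M z) F ^ 25) =
      fun F => ∏ z ∈ A.filter (fun z => col z = i), wt (25 * t) M (cz M z) F := by
    funext F
    apply Finset.prod_congr rfl
    intro z _
    rw [wt_pow _ _ _ _ (by norm_num)]
    norm_num
  rw [e1, Ex_prod_indep (A.filter (fun z => col z = i)) (fun z => bo (cz M z) (M + M))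
    (fun z F => wt (25 * t) M (cz M z) F)
    (fun z hz => hS z (Finset.mem_filter.1 hz).1)
    (fun z hz z' hz' hne => col_disj (by omega) hne
      ((Finset.mem_filter.1 hz).2.trans (Finset.mem_filter.1 hz').2.symm))
    (fun z _ F => wt_loc _ _ _ _)]
  rw [← Finset.prod_const]
  apply Finset.prod_le_prod
  · intro z _
    exact Ex_nonneg ok fun F _ => wt_nonneg _ _ _ _
  · intro z hz
    refine (wt_ex h0 h1 hM hA hK hδ0 hδ (hS z (Finset.mem_filter.1 hz).1) (by positivity)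
      (by linarith)).trans ?_
    rw [Real.sqrt_le_left (by positivity)]
    exact hδ1

end Pool.Agent.TH967.VT
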