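import Pool.Agent.TH967.VT.Sup
import Pool.Agent.W424.NC.TwoLow

/-!
The volume of the cluster below the critical point: the lower bound.
-/

set_option autoImplicit false

namespace Pool.Agent.TH967.VT
open Finset H974 Filter MeasureTheory Pool.Agent.H160R2.CV H362P
open Pool.Agent.H160R2.CV.Quad

theorem arm_OE {q : ℝ} (h0 : 0 ≤ q) (h1 : q ≤ 1) {T : Vtx → Prop} {x : Vtx} {n : ℕ}
    (hT : ∀ v, n ≤ nv (v - x) → T v) {S : Finset Edg} (hS : bo x n ⊆ S) :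
    arm q n ≤ Pr (fun _ => q) S (fun F => OE T {x} (↑F : Set Edg)) := by
  obtain ⟨a, b⟩ := x
  have h2 := pr_shift_arm q (x1 := a) (x2 := b) (n := n) (S := S) hS
  rw [← h2]
  apply Pr_mono (okq h0 h1)
  rintro F _ ⟨w, hw, hr⟩ u hu
  rw [Finset.mem_singleton] at hu
  subst hu
  have h3 := hr.mono (G := (↑((trl (-a) (-b)).mp F) : Set Edg)) Set.inter_subset_left
  refine ⟨w + (a, b), hT _ ?_, ?_⟩
  · rw [add_sub_cancel_right]
    unfold onB at hw
    unfold nv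
    omega
  · have e1 : (trl (-a) (-b)).ψ (a, b) = (0, 0) := by rw [trl_ψ]; simp
    have e2 : (trl (-a) (-b)).ψ (w + (a, b)) = w := by
      have := trl_neg (a, b) (w + (a, b))
      simp only at this
      rw [this, add_sub_cancel_right]
    rw [LSym.coe_mp] at h3
    have h4 : Reach ((trl (-a) (-b)).φ '' ↑F) ((trl (-a) (-b)).ψ (a, b))
        ((trl (-a) (-b)).ψ (w + (a, b))) := by rw [e1, e2]; exact h3
    rw [LSym.reach_iff] at h4
    exact h4

/-- A second moment bound. -/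
theorem pz {q : ℝ} (ok : Ok (fun _ : Edg => q)) (S : Finset Edg) {Y : Finset Edg → ℝ}
    (hY : ∀ F, 0 ≤ Y F) {e W : ℝ} (he : 0 < e) (hW : 0 < W) (h1 : e ≤ Ex (fun _ => q) S Y)
    (h2 : Ex (fun _ => q) S (fun F => Y F ^ 2) ≤ W) :
    e ^ 2 / (8 * W) ≤ Pr (fun _ => q) S (fun F => e / 4 ≤ Y F) := by
  obtain ⟨l, hl⟩ : ∃ l : ℝ, l = 4 * W / e := ⟨_, rfl⟩
  have hl0 : 0 < l := by rw [hl]; positivity
  have key : Ex (fun _ => q) S Y ≤ Ex (fun _ => q) S (fun F =>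
      (e / 4 + (1 / l) * Y F ^ 2) + l * ind (e / 4 ≤ Y F)) := by
    apply Ex_mono ok
    intro F _
    have hy := hY F
    by_cases h : e / 4 ≤ Y F
    · rw [ind_of h]
      rcases le_or_gt (Y F) l with h3 | h3
      · have : 0 ≤ (1 / l) * Y F ^ 2 := by positivity
        linarith
      · have : Y F ≤ (1 / l) * Y F ^ 2 := by
          rw [one_div, ← div_eq_inv_mul, le_div_iff₀ hl0]
          nlinarith
        linarith
    · rw [ind_not_of h]
      push Not at h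
      have : 0 ≤ (1 / l) * Y F ^ 2 := by positivity
      linarith
  rw [Ex_add, Ex_mul_left, Ex_add, Ex_mul_left, Ex_const] at key
  have h3 : Ex (fun _ => q) S (fun F => ind (e / 4 ≤ Y F)) =
      Pr (fun _ => q) S (fun F => e / 4 ≤ Y F) := rfl
  rw [h3] at key
  have h4 : 1 / l * Ex (fun _ => q) S (fun F => Y F ^ 2) ≤ e / 4 := by
    calc 1 / l * Ex (fun _ => q) S (fun F => Y F ^ 2) ≤ 1 / l * W :=
          mul_le_mul_of_nonneg_left h2 (by positivity)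
      _ = e / 4 := by rw [hl]; field_simp
  have h5 : e / 2 ≤ l * Pr (fun _ => q) S (fun F => e / 4 ≤ Y F) := by linarith
  calc e ^ 2 / (8 * W) = (e / 2) / l := by rw [hl]; field_simp; ring
    _ ≤ _ := by
        rw [div_le_iff₀ hl0]
        linarith

/-- the volume at distance at most `m` from `c`, connected to distance `2 m` -/
noncomputable def Yc (c : Vtx) (m : ℕ) (F : Finset Edg) : ℝ := YT (Ou c (m + m)) (Bc c m) F

/-- A box contains many connected vertices. -/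
theorem box_vol {K0 : ℝ} (hK : 1 ≤ K0) {a : ℝ} (ha : 0 < a) : ∃ ρ : ℝ, 0 < ρ ∧ ρ ≤ 1 ∧ ∀ (q : ℝ) (m : ℕ),
    0 ≤ q → q ≤ 1 / 2 → 1 ≤ m → ArmUp (1 / 2) K0 (8 * m) →
    a * (m : ℝ) ^ (-(5 / 48 : ℝ)) ≤ arm q (3 * m) → ∀ (c : Vtx) (S : Finset Edg),
    bo c (4 * m) ⊆ S →
    ρ ≤ Pr (fun _ => q) S (fun F => a * (m : ℝ) ^ (91 / 48 : ℝ) ≤ Yc c m F) := by
  have hK0 : 0 < K0 := by linarith
  obtain ⟨W, hW⟩ : ∃ W : ℝ, W = (2 ^ 188 * (3888 * K0)) ^ 2 * 2 := ⟨_, rfl⟩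
  have hW0 : 0 < W := by rw [hW]; positivity
  refine ⟨min ((4 * a) ^ 2 / (8 * W)) 1, lt_min (by positivity) one_pos, min_le_right _ _, ?_⟩
  intro q m h0 h1 hm hA harm c S hS
  have ok := okq h0 (show q ≤ 1 by linarith)
  have hm0 : (0 : ℝ) < m := by exact_mod_cast hm
  obtain ⟨g, hg⟩ : ∃ g : ℝ, g = (m : ℝ) ^ (91 / 48 : ℝ) := ⟨_, rfl⟩
  have hg0 : 0 < g := by rw [hg]; positivity
  have hgood := good_out (q := 1 / 2) (K0 := K0) (N := m) (R1 := m) hm (by omega) hA hK le_rfl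
    (by norm_num) c (S := S) ((bo_sub_bo (by rw [sub_self]; unfold nv; simp; omega)).trans hS)
  have hmo := hgood.mo 2 ∅ (Finset.empty_subset _)
  have hEX : 4 * a * g ≤ Ex (fun _ => q) S (Yc c m) := by
    unfold Yc YT
    rw [Ex_sum]
    have h2 : ∀ x ∈ Bc c m, a * (m : ℝ) ^ (-(5 / 48 : ℝ)) ≤
        Ex (fun _ => q) S (fun F => ind (OE (Ou c (m + m)) {x} (↑F : Set Edg))) := by
      intro x hx
      rw [mem_Bc] at hx
      refine harm.trans (arm_OE h0 (by linarith) (T := Ou c (m + m)) ?_ ?_)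
      · intro v hv
        unfold Ou
        have := nv_tri' v c x
        rw [nv_comm' c x] at this
        omega
      · exact (bo_sub_bo (by omega)).trans hS
    refine le_trans ?_ (Finset.sum_le_sum h2)
    rw [Finset.sum_const, nsmul_eq_mul, card_Bc]
    have e : g = (m : ℝ) ^ 2 * (m : ℝ) ^ (-(5 / 48 : ℝ)) := by
      rw [hg, ← Real.rpow_natCast (m : ℝ) 2, ← Real.rpow_add hm0]
      norm_num
    rw [e]
    have hp : 0 < (m : ℝ) ^ (-(5 / 48 : ℝ)) := by positivity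
    have h3 : 4 * (m : ℝ) ^ 2 ≤ (2 * (m : ℝ) + 1) ^ 2 := by nlinarith
    calc 4 * a * ((m : ℝ) ^ 2 * (m : ℝ) ^ (-(5 / 48 : ℝ))) =
          4 * (m : ℝ) ^ 2 * (a * (m : ℝ) ^ (-(5 / 48 : ℝ))) := by ring
      _ ≤ _ := mul_le_mul_of_nonneg_right h3 (by positivity)
  have hEX2 : Ex (fun _ => q) S (fun F => Yc c m F ^ 2) ≤ W * g ^ 2 := by
    have h2 : Ex (fun _ => q) S (fun F => Yc c m F ^ 2) ≤
        Ex (fun _ => (1 / 2 : ℝ)) S (fun F => Yc c m F ^ 2) := by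
      apply Ex_mono_param ok (okq (by norm_num) (by norm_num)) (fun _ => h1)
      intro F F' hF _
      exact pow_le_pow_left₀ (YT_nonneg _ _ _) (YT_incr hF) 2
    have h3 : Ex (fun _ => (1 / 2 : ℝ)) S (fun F => Yc c m F ^ 2) =
        Mo (1 / 2) S (fun v => m + m ≤ nv (v - c)) (Bc c m) 2 ∅ := by
      unfold Mo
      apply Ex_congr
      intro F _
      rw [ind_of (show OE (fun v => m + m ≤ nv (v - c)) ∅ (↑F : Set Edg) from
        fun u hu => absurd hu (Finset.notMem_empty _)), one_mul]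
      rfl
    have h4 : Pr (fun _ => (1 / 2 : ℝ)) S
        (fun F => OE (fun v => m + m ≤ nv (v - c)) ∅ (↑F : Set Edg)) ≤ 1 :=
      Pr_le_one (okq (by norm_num) (by norm_num)) _ _
    rw [← h3] at hmo
    refine h2.trans (hmo.trans ?_)
    have e2 : (((∅ : Finset Vtx).card + 1).ascFactorial 2 : ℕ) = 2 := by decide
    rw [e2]
    have e3 : GG K0 m = 3888 * K0 * g := by unfold GG; rw [hg]
    rw [e3]
    have e4 : (2 ^ 188 * (3888 * K0 * g)) ^ 2 * ((2 : ℕ) : ℝ) = W * g ^ 2 := by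
      rw [hW]; push_cast; ring
    have h6 := mul_le_mul_of_nonneg_left h4
      (show 0 ≤ (2 ^ 188 * (3888 * K0 * g)) ^ 2 * ((2 : ℕ) : ℝ) by positivity)
    rw [mul_one, e4] at h6
    rw [e4]
    exact h6
  have h5 := pz ok S (Y := Yc c m) (fun F => YT_nonneg _ _ _) (e := 4 * a * g)
    (W := W * g ^ 2) (by positivity) (by positivity) hEX hEX2
  refine (min_le_left _ _).trans ?_
  have e5 : (4 * a * g) ^ 2 / (8 * (W * g ^ 2)) = (4 * a) ^ 2 / (8 * W) := by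
    field_simp
  rw [e5] at h5
  refine h5.trans (Pr_mono ok ?_)
  intro F _ h
  rw [← hg]
  have : 4 * a * g / 4 = a * g := by ring
  rw [this] at h
  exact h

/-- the centres of the boxes -/
def cj (m j : ℕ) : Vtx := (4 * (m : ℤ) * j, 0)

theorem YT_card (T : Vtx → Prop) (D : Finset Vtx) (F : Finset Edg) : ∃ X : Finset Vtx,
    X ⊆ D ∧ YT T D F = X.card ∧ ∀ x ∈ X, OE T {x} (↑F : Set Edg) := by
  classical
  refine ⟨D.filter fun x => OE T {x} (↑F : Set Edg), Finset.filter_subset _ _, ?_, ?_⟩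
  · unfold YT
    rw [Finset.card_filter]
    push_cast
    apply Finset.sum_congr rfl
    intro x _
    by_cases h : OE T {x} (↑F : Set Edg)
    · rw [ind_of h, if_pos h]
    · rw [ind_not_of h, if_neg h]
  · intro x hx
    exact (Finset.mem_filter.mp hx).2

theorem low_point {m J : ℕ} (hm : 1 ≤ m) {v : ℝ} {F : Finset Edg} (hA : Arm (2 * m) F)
    (hB : ∀ j, j < J + 1 → CA (cj m j) m (2 * m) F ∧ v ≤ Yc (cj m j) m F)
    (hL : LRc (-((2 * m : ℕ) : ℤ)) ((4 * m * J + 2 * m : ℕ) : ℤ) (-(m : ℤ)) m F) :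
    Vol (((J : ℝ) + 1) * v) (↑F : Set Edg) := by
  classical
  obtain ⟨y, y', hy, hy', hp⟩ := hL
  have hm' : (1 : ℤ) ≤ m := by exact_mod_cast hm
  -- the long path visits every box
  have visit : ∀ j, j < J + 1 → ∃ y1 : ℤ, Reach (↑F : Set Edg) (-((2 * m : ℕ) : ℤ), y) (4 * (m : ℤ) * j, y1) ∧
      ∀ z, (∀ u w : Vtx, nv (u - cj m j) ≤ m → 2 * m ≤ nv (w - cj m j) → Reach (↑F : Set Edg) u w →
        Reach (↑F : Set Edg) u z) → Reach (↑F : Set Edg) (4 * (m : ℤ) * j, y1) z := by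
    intro j hj
    have hjJ : (4 * (m : ℤ) * j) ≤ 4 * m * J := by
      have : (j : ℤ) ≤ J := by exact_mod_cast (by omega : j ≤ J)
      nlinarith
    have hj0 : 0 ≤ 4 * (m : ℤ) * j := by positivity
    push_cast at hp ⊢
    obtain ⟨y1, y2, k1, k2, k3, k4⟩ := sub_LR (a := 4 * (m : ℤ) * j) (b := 4 * (m : ℤ) * J + 2 * m)
      (c := -(m : ℤ)) (d := m) (by omega)
      (by rintro x y ⟨-, h⟩ _ _; simp only [mem_coe, mem_LRE_true] at h; omega)
      (by rintro x y ⟨-, h⟩ _ _; simp only [mem_coe, mem_LRE_false] at h; omega) hp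
      (by simp only; omega) le_rfl
    refine ⟨y1, k4.mono Set.inter_subset_left, fun z hz => ?_⟩
    refine hz (4 * (m : ℤ) * j, y1) (4 * (m : ℤ) * J + 2 * m, y2) ?_ ?_
      (k3.mono (by rintro e ⟨⟨h7, -⟩, -⟩; exact h7))
    · unfold nv cj
      simp only [Prod.fst_sub, Prod.snd_sub]
      omega
    · unfold nv cj
      simp only [Prod.fst_sub, Prod.snd_sub]
      omega
  -- the origin
  have h00 : Reach (↑F : Set Edg) (0, 0) (-((2 * m : ℕ) : ℤ), y) := by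
    obtain ⟨hC, -⟩ := hB 0 (by omega)
    obtain ⟨z, hz⟩ := CA_meet (by omega) hC
    have e0 : cj m 0 = (0, 0) := by unfold cj; simp
    rw [e0] at hz
    obtain ⟨w0, hw0, hrw⟩ := hA
    have z1 : ∀ u : Vtx, u - ((0, 0) : Vtx) = u := fun u => by
      have : ((0, 0) : Vtx) = 0 := rfl
      rw [this, sub_zero]
    have q1 : Reach (↑F : Set Edg) (0, 0) z := by
      refine hz (0, 0) w0 ?_ ?_ (hrw.mono Set.inter_subset_left)
      · rw [z1]; unfold nv; simp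
      · rw [z1]
        unfold onB at hw0
        unfold nv
        omega
    obtain ⟨y1, k1, k2⟩ := visit 0 (by omega)
    have q2 := k2 z (by rw [e0]; exact hz)
    exact q1.trans (k1.trans q2).symm
  -- the vertices of the boxes
  have hX : ∀ j, ∃ X : Finset Vtx, j < J + 1 → X ⊆ Bc (cj m j) m ∧ v ≤ X.card ∧
      ∀ x ∈ X, Reach (↑F : Set Edg) (0, 0) x := by
    intro j
    by_cases hj : j < J + 1
    · obtain ⟨hC, hv⟩ := hB j hj
      obtain ⟨X, hX1, hX2, hX3⟩ := YT_card (Ou (cj m j) (m + m)) (Bc (cj m j) m) F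
      refine ⟨X, fun _ => ⟨hX1, ?_, ?_⟩⟩
      · rw [← hX2]; exact hv
      · intro x hx
        obtain ⟨z, hz⟩ := CA_meet (by omega) hC
        obtain ⟨w, hw, hr⟩ := hX3 x hx x (Finset.mem_singleton_self _)
        have hxc := mem_Bc.mp (hX1 hx)
        have q1 := hz x w hxc (by unfold Ou at hw; omega) hr
        obtain ⟨y1, k1, k2⟩ := visit j hj
        exact h00.trans (k1.trans ((k2 z hz).trans q1.symm))
    · exact ⟨∅, fun h => absurd h hj⟩
  choose X hX using hX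
  refine ⟨(range (J + 1)).biUnion X, ?_, ?_⟩
  · rw [Finset.card_biUnion]
    · push_cast
      calc ((J : ℝ) + 1) * v = ∑ _j ∈ range (J + 1), v := by
            rw [Finset.sum_const, Finset.card_range, nsmul_eq_mul]; push_cast; ring
        _ ≤ _ := Finset.sum_le_sum fun j hj => (hX j (Finset.mem_range.mp hj)).2.1
    · intro i hi j hj hij
      change Disjoint (X i) (X j)
      rw [Finset.disjoint_left]
      intro x hxi hxj
      have h1 := mem_Bc.mp ((hX i (Finset.mem_range.mp (by exact_mod_cast hi))).1 hxi)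
      have h2 := mem_Bc.mp ((hX j (Finset.mem_range.mp (by exact_mod_cast hj))).1 hxj)
      unfold nv cj at h1 h2
      simp only [Prod.fst_sub, Prod.snd_sub] at h1 h2
      have h3 : |(4 * (m : ℤ) * i) - 4 * m * j| ≤ 2 * m := by
        rw [abs_le]
        constructor <;> omega
      have h4 : (4 * (m : ℤ) * i) - 4 * m * j = 4 * m * ((i : ℤ) - j) := by ring
      rw [h4, abs_mul, abs_of_nonneg (by positivity : (0 : ℤ) ≤ 4 * m)] at h3
      have h5 : (1 : ℤ) ≤ |(i : ℤ) - j| := by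
        apply Int.one_le_abs
        intro h
        apply hij
        omega
      nlinarith
  · intro u hu
    rw [Finset.mem_biUnion] at hu
    obtain ⟨j, hj, hu⟩ := hu
    exact (hX j (Finset.mem_range.mp hj)).2.2 u hu

theorem harris_pow {q : ℝ} (ok : Ok (fun _ : Edg => q)) (S : Finset Edg)
    {B : ℕ → Finset Edg → Prop} (hB : ∀ j, IncrE S (B j)) {r : ℝ} (hr : 0 ≤ r) (J : ℕ)
    (h : ∀ j, j < J → r ≤ Pr (fun _ => q) S (B j)) :
    r ^ J ≤ Pr (fun _ => q) S (fun F => ∀ j, j < J → B j F) := by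
  induction J with
  | zero =>
    rw [pow_zero]
    apply le_of_eq
    exact (Pr_true _ (fun F _ j hj => absurd hj (by omega))).symm
  | succ J ih =>
    have h1 := ih (fun j hj => h j (by omega))
    have h2 := h J (by omega)
    have h3 := Pr_harris ok (S := S) (A := fun F => ∀ j, j < J → B j F) (B := B J)
      (fun F G hFG hG hF j hj => hB j F G hFG hG (hF j hj)) (hB J)
    rw [pow_succ]
    refine (mul_le_mul h1 h2 hr ((pow_nonneg hr J).trans h1)).trans (h3.trans ?_)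
    apply Pr_mono ok
    rintro F _ ⟨k1, k2⟩ j hj
    rcases Nat.lt_succ_iff_lt_or_eq.mp hj with h | h
    · exact k1 j h
    · rw [h]; exact k2

/-- The lower bound at a given scale. -/
theorem low_scale {q κ ρ v : ℝ} {m J : ℕ} (hW : H12S.Win q κ (4 * m)) (hm : 1 ≤ m) (hρ : 0 ≤ ρ)
    (hv : ∀ (c : Vtx) (S : Finset Edg), bo c (4 * m) ⊆ S →
      ρ ≤ Pr (fun _ => q) S (fun F => v ≤ Yc c m F)) :
    arm q (2 * m) * (κ ^ 4 * ρ) ^ (J + 1) * hh q ((4 * m * (J + 1) : ℕ) : ℤ) m ≤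
      Pr (fun _ => q) (boxE (4 * m * (J + 1))) (fun F => Vol (((J : ℝ) + 1) * v) (↑F : Set Edg)) := by
  have h0 : 0 ≤ q := by linarith [hW.lo]
  have h1 : q ≤ 1 := by linarith [hW.hi]
  have ok := okq h0 h1
  have hκ := hW.kpos
  obtain ⟨S, hS⟩ : ∃ S : Finset Edg, S = boxE (4 * m * (J + 1)) := ⟨_, rfl⟩
  rw [← hS]
  have hmJ : m * J + m = m * (J + 1) := by ring
  have hbig : 4 * m ≤ 4 * m * (J + 1) := Nat.le_mul_of_pos_right _ (by omega)
  have s0 : boxE (2 * m) ⊆ S := by rw [hS]; exact boxE_mono (by omega)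
  have sj : ∀ j, j < J + 1 → bo (cj m j) (4 * m) ⊆ S := by
    intro j hj
    rw [hS, ← bo_zero]
    apply bo_sub_bo
    have z1 : cj m j - ((0, 0) : Vtx) = cj m j := by
      have : ((0, 0) : Vtx) = 0 := rfl
      rw [this, sub_zero]
    rw [z1]
    have e : nv (cj m j) = 4 * m * j := by
      unfold nv cj
      simp only [Int.natAbs_mul, Int.natAbs_natCast, Int.natAbs_zero]
      have : (4 : ℤ).natAbs = 4 := rfl
      rw [this]
      omega
    rw [e]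
    calc 4 * m * j + 4 * m = 4 * m * (j + 1) := by ring
      _ ≤ 4 * m * (J + 1) := Nat.mul_le_mul_left _ (by omega)
  have e1 : Pr (fun _ => q) S (Arm (2 * m)) = arm q (2 * m) := pr_Arm q s0
  have e2 : ∀ j, j < J + 1 → κ ^ 4 * ρ ≤
      Pr (fun _ => q) S (fun F => CA (cj m j) m (2 * m) F ∧ v ≤ Yc (cj m j) m F) := by
    intro j hj
    have i1 : κ ^ 4 ≤ Pr (fun _ => q) S (CA (cj m j) m (2 * m)) := by
      refine le_trans ?_ (Pool.Agent.W424.NC.pr_shift_circ h0 h1 (x1 := (cj m j).1)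
        (x2 := (cj m j).2) (r := m) (n := 2 * m) (by omega)
        ((bo_sub_bo (x := cj m j) (c := cj m j) (by rw [sub_self]; unfold nv; simp; omega)).trans
          (sj j hj)))
      apply pow_le_pow_left₀ hκ.le
      refine (hW.pri m hm (by omega)).trans ?_
      apply hh_mono h0 h1
      · push_cast; omega
      · push_cast; omega
      · push_cast; omega
    have i2 := hv (cj m j) S (sj j hj)
    have i3 := Pr_harris ok (S := S) (A := CA (cj m j) m (2 * m))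
      (B := fun F => v ≤ Yc (cj m j) m F) (CA_incr _ _ _ _)
      (fun F G hFG _ hF => hF.trans (YT_incr hFG))
    exact (mul_le_mul i1 i2 hρ ((by positivity : 0 ≤ κ ^ 4).trans i1)).trans i3
  have e3 := harris_pow ok S
    (B := fun j F => CA (cj m j) m (2 * m) F ∧ v ≤ Yc (cj m j) m F)
    (fun j F G hFG hG hF => ⟨CA_incr S _ _ _ F G hFG hG hF.1, hF.2.trans (YT_incr hFG)⟩)
    (r := κ ^ 4 * ρ) (by positivity) (J + 1) e2
  have hsub : LRE (-((2 * m : ℕ) : ℤ)) ((4 * m * J + 2 * m : ℕ) : ℤ) (-(m : ℤ)) m ⊆ S := by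
    rw [hS]
    refine LRE_subset_RE.trans ?_
    unfold boxE
    have h2 : ((4 * m * (J + 1) : ℕ) : ℤ) = 4 * m * J + 4 * m := by push_cast; ring
    have h3 : 0 ≤ (4 : ℤ) * m * J := by positivity
    rw [h2]
    apply RE_subset <;> push_cast <;> omega
  have e4 : hh q ((4 * m * (J + 1) : ℕ) : ℤ) m ≤ Pr (fun _ => q) S
      (LRc (-((2 * m : ℕ) : ℤ)) ((4 * m * J + 2 * m : ℕ) : ℤ) (-(m : ℤ)) m) := by
    rw [pr_LRc q hsub]
    have h2 : ((4 * m * J + 2 * m : ℕ) : ℤ) - (-((2 * m : ℕ) : ℤ)) = ((4 * m * (J + 1) : ℕ) : ℤ) := by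
      push_cast; ring
    have h3 : 0 ≤ (4 : ℤ) * m * J := by positivity
    rw [h2]
    apply hh_mono h0 h1
    · have : 0 < 4 * m * (J + 1) := by positivity
      exact_mod_cast this
    · exact le_rfl
    · omega
  have i1 := Pr_harris ok (S := S) (Arm_incr S (2 * m))
    (B := fun F => ∀ j, j < J + 1 → CA (cj m j) m (2 * m) F ∧ v ≤ Yc (cj m j) m F)
    (fun F G hFG hG hF j hj => ⟨CA_incr S _ _ _ F G hFG hG (hF j hj).1,
      (hF j hj).2.trans (YT_incr hFG)⟩)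
  have i2 := Pr_harris ok (S := S)
    (A := fun F => Arm (2 * m) F ∧ ∀ j, j < J + 1 → CA (cj m j) m (2 * m) F ∧ v ≤ Yc (cj m j) m F)
    (B := LRc (-((2 * m : ℕ) : ℤ)) ((4 * m * J + 2 * m : ℕ) : ℤ) (-(m : ℤ)) m)
    (fun F G hFG hG hF => ⟨hF.1.mono hFG, fun j hj => ⟨CA_incr S _ _ _ F G hFG hG (hF.2 j hj).1,
      (hF.2 j hj).2.trans (YT_incr hFG)⟩⟩)
    (LRc_incr _ _ _ _ _)
  rw [e1] at i1
  have ha0 : 0 ≤ arm q (2 * m) := arm_nonneg h0 h1 _
  have j1 := (mul_le_mul_of_nonneg_left e3 ha0).trans i1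
  have hp : 0 ≤ arm q (2 * m) * (κ ^ 4 * ρ) ^ (J + 1) := by positivity
  refine (mul_le_mul j1 e4 (hh_nonneg h0 h1 _ _) (hp.trans j1)).trans (i2.trans ?_)
  apply Pr_mono ok
  rintro F _ ⟨⟨k1, k2⟩, k3⟩
  exact low_point hm k1 k2 k3

/-- Lower bound for the tail of the volume, at and below the critical point. -/
theorem low_vol : ∃ c C : ℝ, 0 < c ∧ 0 < C ∧ ∀ p : unitInterval, (1 / 4 : ℝ) ≤ p →
    (p : ℝ) ≤ 1 / 2 → ∀ n : ℕ, 1 ≤ n →
    c * (n : ℝ) ^ (-(5 / 91 : ℝ)) * Real.exp (-(C * (n * (1 / 2 - (p : ℝ)) ^ (91 / 36 : ℝ)))) ≤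
      tl p n := by
  obtain ⟨κ, a, C, hκ, ha, hC, hG⟩ := Pool.Agent.W424.NC.nearG
  obtain ⟨K0, hK, hA⟩ := crit_arm
  obtain ⟨ρ, hρ, hρ1, hbv⟩ := box_vol hK (a := a / 3) (by positivity)
  obtain ⟨L, hL⟩ : ∃ L : ℝ, L = Real.log (1 / κ) := ⟨_, rfl⟩
  obtain ⟨L2, hL2⟩ : ∃ L2 : ℝ, L2 = Real.log (1 / (κ ^ 4 * ρ)) := ⟨_, rfl⟩
  obtain ⟨D, hD⟩ : ∃ D : ℝ, D = max (8 * L + L2) 0 := ⟨_, rfl⟩
  have hD0 : 0 ≤ D := by rw [hD]; exact le_max_right _ _
  have hD1 : 8 * L + L2 ≤ D := by rw [hD]; exact le_max_left _ _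
  refine ⟨a * (1 / 4) * κ * Real.exp (-(D * (1 + 3 / a))), D * (3 / a) * C ^ (91 / 48 : ℝ) + 1,
    by positivity, by positivity, ?_⟩
  intro p hp hp1 n hn
  have h0 : (0 : ℝ) ≤ p := p.2.1
  have h1 : (p : ℝ) ≤ 1 := p.2.2
  have hn1 : (1 : ℝ) ≤ n := by exact_mod_cast hn
  have hn0 : (0 : ℝ) < n := by linarith
  obtain ⟨s, hs⟩ : ∃ s : ℝ, s = 1 / 2 - (p : ℝ) := ⟨_, rfl⟩
  have hs0 : 0 ≤ s := by linarith
  obtain ⟨u, hu⟩ : ∃ u : ℝ, u = s ^ (91 / 36 : ℝ) := ⟨_, rfl⟩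
  have hu0 : 0 ≤ u := by rw [hu]; positivity
  rw [← hs, ← hu]
  obtain ⟨x, hx⟩ : ∃ x : ℝ, x = (n : ℝ) ^ (48 / 91 : ℝ) := ⟨_, rfl⟩
  have hx1 : 1 ≤ x := by rw [hx]; exact Real.one_le_rpow hn1 (by norm_num)
  have hx91 : x ^ (91 / 48 : ℝ) = n := by
    rw [hx, ← Real.rpow_mul hn0.le]; norm_num
  have hx5 : x ^ (-(5 / 48 : ℝ)) = (n : ℝ) ^ (-(5 / 91 : ℝ)) := by
    rw [hx, ← Real.rpow_mul hn0.le]; norm_num
  obtain ⟨N, hN⟩ : ∃ N : ℕ, N = ⌈x⌉₊ := ⟨_, rfl⟩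
  have hN1 : x ≤ N := by rw [hN]; exact Nat.le_ceil x
  have hN2 : (N : ℝ) ≤ 2 * x := by
    rw [hN]
    have := Nat.ceil_lt_add_one (a := x) (by linarith)
    linarith
  have hNpos : 1 ≤ N := by
    have : (1 : ℝ) ≤ N := hx1.trans hN1
    exact_mod_cast this
  obtain ⟨m, hm, hmN, hW, harm, hcase⟩ := hG p N hp hp1 hNpos
  rw [← hs] at hcase
  have hm0 : (0 : ℝ) < m := by exact_mod_cast hm
  obtain ⟨g, hg⟩ : ∃ g : ℝ, g = (m : ℝ) ^ (91 / 48 : ℝ) := ⟨_, rfl⟩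
  have hg0 : 0 < g := by rw [hg]; positivity
  obtain ⟨v, hv⟩ : ∃ v : ℝ, v = a / 3 * g := ⟨_, rfl⟩
  have hv0 : 0 < v := by rw [hv]; positivity
  have harm3 : a / 3 * (m : ℝ) ^ (-(5 / 48 : ℝ)) ≤ arm p (3 * m) := by
    refine le_trans ?_ (harm (3 * m) (by omega) (by omega))
    have h2 := pw (t := (m : ℝ)) (u := (((3 * m : ℕ)) : ℝ)) (k := 3) hm0 (by push_cast; linarith)
      (by norm_num) (by push_cast; linarith)
    have h3 : (m : ℝ) ^ (-(5 / 48 : ℝ)) ≤ 3 * (((3 * m : ℕ)) : ℝ) ^ (-(5 / 48 : ℝ)) := h2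
    calc a / 3 * (m : ℝ) ^ (-(5 / 48 : ℝ)) ≤ a / 3 * (3 * (((3 * m : ℕ)) : ℝ) ^ (-(5 / 48 : ℝ))) :=
          mul_le_mul_of_nonneg_left h3 (by positivity)
      _ = _ := by ring
  have hvol := hbv p m h0 hp1 hm (hA (8 * m)) harm3
  obtain ⟨J, hJ⟩ : ∃ J : ℕ, J = ⌊(n : ℝ) / v⌋₊ := ⟨_, rfl⟩
  have hJ1 : (n : ℝ) ≤ ((J : ℝ) + 1) * v := by
    rw [← div_le_iff₀ hv0, hJ]
    exact (Nat.lt_floor_add_one _).le
  have hJ2 : (J : ℝ) ≤ (n : ℝ) / v := by
    rw [hJ]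
    exact Nat.floor_le (by positivity)
  have key := low_scale (q := p) (κ := κ) (ρ := ρ) (v := v) (m := m) (J := J) hW hm hρ.le
    (by rw [hv, hg]; exact hvol)
  have hfin : Pr (fun _ => (p : ℝ)) (boxE (4 * m * (J + 1)))
      (fun F => Vol (((J : ℝ) + 1) * v) (↑F : Set Edg)) ≤ tl p n := by
    refine le_trans (Pr_mono (okq h0 h1) ?_) (le_tl p n (4 * m * (J + 1)))
    rintro F _ ⟨T, hT, hr⟩
    exact ⟨T, hJ1.trans hT, hr⟩
  refine le_trans ?_ (key.trans hfin)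
  -- the crossing probability
  have hhh := Pool.Agent.W424.NC.hh_exp (hW.anti (show m ≤ 4 * m by omega)) hm
    (n := 4 * m * (J + 1)) (by have : 0 < 4 * m * (J + 1) := by positivity
                               omega)
  rw [← hL] at hhh
  have eJ : (((4 * m * (J + 1) : ℕ)) : ℝ) / m = 4 * ((J : ℝ) + 1) := by
    push_cast; field_simp
  rw [eJ] at hhh
  have hpw : (κ ^ 4 * ρ) ^ (J + 1) = Real.exp (-(L2 * ((J : ℝ) + 1))) := by
    have hpos : 0 < κ ^ 4 * ρ := by positivity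
    rw [hL2, one_div, Real.log_inv]
    have e3 : (-(-Real.log (κ ^ 4 * ρ) * ((J : ℝ) + 1))) =
        ((J + 1 : ℕ) : ℝ) * Real.log (κ ^ 4 * ρ) := by push_cast; ring
    rw [e3, Real.exp_nat_mul, Real.exp_log hpos]
  have ha2 : a * (1 / 4) * (n : ℝ) ^ (-(5 / 91 : ℝ)) ≤ arm p (2 * m) := by
    refine le_trans ?_ (harm (2 * m) (by omega) (by omega))
    have hmx : (m : ℝ) ≤ 2 * x := le_trans (by exact_mod_cast hmN) hN2
    have h2 := pw (t := x) (u := (((2 * m : ℕ)) : ℝ)) (k := 4) (by linarith)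
      (by push_cast; linarith) (by norm_num) (by push_cast; linarith)
    have h3 : x ^ (-(5 / 48 : ℝ)) ≤ 4 * (((2 * m : ℕ)) : ℝ) ^ (-(5 / 48 : ℝ)) := h2
    rw [hx5] at h3
    calc a * (1 / 4) * (n : ℝ) ^ (-(5 / 91 : ℝ)) ≤
          a * (1 / 4) * (4 * (((2 * m : ℕ)) : ℝ) ^ (-(5 / 48 : ℝ))) :=
          mul_le_mul_of_nonneg_left h3 (by positivity)
      _ = _ := by ring
  have hnv : (n : ℝ) / v ≤ 3 / a + 3 / a * C ^ (91 / 48 : ℝ) * (n * u) := by
    have hp2 : 0 ≤ 3 / a * C ^ (91 / 48 : ℝ) * (n * u) := by positivity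
    rcases hcase with h | h
    · have h2 : (n : ℝ) ≤ g := by
        rw [← hx91, hg, h]
        exact Real.rpow_le_rpow (by linarith) hN1 (by norm_num)
      have h3 : (n : ℝ) / v ≤ 3 / a := by
        rw [div_le_div_iff₀ hv0 ha, hv]
        calc (n : ℝ) * a ≤ g * a := mul_le_mul_of_nonneg_right h2 ha.le
          _ = 3 * (a / 3 * g) := by ring
      linarith
    · have h2 : 1 ≤ C ^ (91 / 48 : ℝ) * (g * u) := by
        have h3 := Real.one_le_rpow h (show (0 : ℝ) ≤ 91 / 48 by norm_num)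
        rw [Real.mul_rpow hC.le (by positivity), Real.mul_rpow hm0.le (by positivity),
          ← Real.rpow_mul hs0, ← hg] at h3
        have e : (4 / 3 : ℝ) * (91 / 48) = 91 / 36 := by norm_num
        rw [e, ← hu] at h3
        exact h3
      have h3 : (n : ℝ) / v ≤ 3 / a * C ^ (91 / 48 : ℝ) * (n * u) := by
        rw [div_le_iff₀ hv0, hv]
        calc (n : ℝ) = n * 1 := (mul_one _).symm
          _ ≤ n * (C ^ (91 / 48 : ℝ) * (g * u)) := mul_le_mul_of_nonneg_left h2 hn0.le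
          _ = 3 / a * C ^ (91 / 48 : ℝ) * (n * u) * (a / 3 * g) := by field_simp
      have : 0 ≤ 3 / a := by positivity
      linarith
  have hJ3 : (J : ℝ) + 1 ≤ (1 + 3 / a) + 3 / a * C ^ (91 / 48 : ℝ) * (n * u) := by linarith
  have hexp : Real.exp (-(D * (1 + 3 / a))) *
      Real.exp (-((D * (3 / a) * C ^ (91 / 48 : ℝ) + 1) * (n * u))) ≤
      Real.exp (-(L2 * ((J : ℝ) + 1))) * Real.exp (-(2 * L) * (4 * ((J : ℝ) + 1))) := by
    rw [← Real.exp_add, ← Real.exp_add]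
    apply Real.exp_le_exp.mpr
    have hJ0 : (0 : ℝ) ≤ (J : ℝ) + 1 := by positivity
    have h2 : (8 * L + L2) * ((J : ℝ) + 1) ≤ D * ((J : ℝ) + 1) :=
      mul_le_mul_of_nonneg_right hD1 hJ0
    have h3 : D * ((J : ℝ) + 1) ≤ D * ((1 + 3 / a) + 3 / a * C ^ (91 / 48 : ℝ) * (n * u)) :=
      mul_le_mul_of_nonneg_left hJ3 hD0
    have h4 : 0 ≤ n * u := by positivity
    nlinarith
  have hap : 0 ≤ arm p (2 * m) := arm_nonneg h0 h1 _
  have hE1 : 0 < Real.exp (-(L2 * ((J : ℝ) + 1))) := Real.exp_pos _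
  have hE2 : 0 < Real.exp (-(2 * L) * (4 * ((J : ℝ) + 1))) := Real.exp_pos _
  rw [hpw]
  calc a * (1 / 4) * κ * Real.exp (-(D * (1 + 3 / a))) * (n : ℝ) ^ (-(5 / 91 : ℝ)) *
        Real.exp (-((D * (3 / a) * C ^ (91 / 48 : ℝ) + 1) * (n * u)))
      = (a * (1 / 4) * (n : ℝ) ^ (-(5 / 91 : ℝ))) * κ * (Real.exp (-(D * (1 + 3 / a))) *
        Real.exp (-((D * (3 / a) * C ^ (91 / 48 : ℝ) + 1) * (n * u)))) := by ring
    _ ≤ (a * (1 / 4) * (n : ℝ) ^ (-(5 / 91 : ℝ))) * κ * (Real.exp (-(L2 * ((J : ℝ) + 1))) *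
        Real.exp (-(2 * L) * (4 * ((J : ℝ) + 1)))) :=
        mul_le_mul_of_nonneg_left hexp (by positivity)
    _ = (a * (1 / 4) * (n : ℝ) ^ (-(5 / 91 : ℝ))) * Real.exp (-(L2 * ((J : ℝ) + 1))) *
        (κ * Real.exp (-(2 * L) * (4 * ((J : ℝ) + 1)))) := by ring
    _ ≤ arm p (2 * m) * Real.exp (-(L2 * ((J : ℝ) + 1))) *
        (κ * Real.exp (-(2 * L) * (4 * ((J : ℝ) + 1)))) := by
        apply mul_le_mul_of_nonneg_right _ (by positivity)
        exact mul_le_mul_of_nonneg_right ha2 hE1.le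
    _ ≤ _ := mul_le_mul_of_nonneg_left hhh (by positivity)

end Pool.Agent.TH967.VT
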