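import Pool.Agent.TH967.VT.Add

/-!
Moments and exponential moments of the number of vertices connected to a set.
-/

set_option autoImplicit false

namespace Pool.Agent.TH967.VT
open Finset H974 Pool.Agent.H160R2.CV H362P
open Pool.Agent.H160R2.CV.Quad

/-- the hypotheses on the target `T` and on the domain `D` -/
structure Good (q : ℝ) (S : Finset Edg) (T : Vtx → Prop) (D : Finset Vtx) (d : Vtx → ℕ)
    (G : ℝ) : Prop where
  q0 : 1 / 2 ≤ q
  q1 : q ≤ 1
  dist : ∀ x ∈ D, ∀ v, T v → d x ≤ nv (v - x)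
  sub : ∀ x ∈ D, bo x (d x) ⊆ S
  s1 : ∑ x ∈ D, arm q (d x / 3) ≤ G
  s2 : ∀ y ∈ D, ∑ x ∈ D, arm q (nv (y - x) / 3) ≤ G

theorem Good.one {q : ℝ} {S : Finset Edg} {T : Vtx → Prop} {D : Finset Vtx} {d : Vtx → ℕ}
    {G : ℝ} (h : Good q S T D d G) {X : Finset Vtx} {x : Vtx} (hx : x ∈ D) :
    Pr (fun _ => q) S (fun F => OE T (insert x X) (↑F)) ≤
      2 ^ 188 * ((arm q (d x / 3) + ∑ y ∈ X, arm q (nv (y - x) / 3)) *
        Pr (fun _ => q) S (fun F => OE T X (↑F))) := by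
  classical
  have hq0 : 0 ≤ q := by linarith [h.q0]
  have hq1 := h.q1
  obtain ⟨A, hA⟩ : ∃ A : Finset ℕ, A = insert (d x) (X.image (fun u => nv (u - x))) := ⟨_, rfl⟩
  have hne : A.Nonempty := by rw [hA]; exact Finset.insert_nonempty _ _
  obtain ⟨a, ha⟩ : ∃ a : ℕ, a = A.min' hne := ⟨_, rfl⟩
  have haA : a ∈ A := by rw [ha]; exact Finset.min'_mem _ _
  have hmin : ∀ b ∈ A, a ≤ b := fun b hb => by rw [ha]; exact Finset.min'_le _ _ hb
  have had : a ≤ d x := hmin _ (by rw [hA]; exact Finset.mem_insert_self _ _)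
  have haX : ∀ u ∈ X, a ≤ nv (u - x) := fun u hu => hmin _ (by
    rw [hA]; exact Finset.mem_insert_of_mem (Finset.mem_image_of_mem _ hu))
  have hpos : 0 ≤ Pr (fun _ => q) S (fun F => OE T X (↑F)) := Pr_nonneg (okq hq0 hq1) _ _
  have h1 := add_out h.q0 h.q1 (T := T) (X := X) (x := x) (a := a)
    (fun v hv => had.trans (h.dist x hx v hv)) haX (S := S) (by
      refine Finset.Subset.trans ?_ (h.sub x hx)
      unfold bo
      apply RE_subset <;> omega)
  refine h1.trans ?_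
  apply mul_le_mul_of_nonneg_left _ (by positivity)
  apply mul_le_mul_of_nonneg_right _ hpos
  have harm : ∀ n, 0 ≤ arm q n := fun n => arm_nonneg hq0 hq1 n
  rw [hA, Finset.mem_insert, Finset.mem_image] at haA
  rcases haA with haA | ⟨y, hy, haA⟩
  · rw [haA]
    have : 0 ≤ ∑ y ∈ X, arm q (nv (y - x) / 3) := Finset.sum_nonneg fun _ _ => harm _
    linarith
  · rw [← haA]
    have h2 := Finset.single_le_sum (f := fun y => arm q (nv (y - x) / 3))
      (fun i _ => harm _) hy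
    have h3 := harm (d x / 3)
    linarith

theorem Good.H {q : ℝ} {S : Finset Edg} {T : Vtx → Prop} {D : Finset Vtx} {d : Vtx → ℕ}
    {G : ℝ} (h : Good q S T D d G) (X : Finset Vtx) (hX : X ⊆ D) :
    ∑ x ∈ D, Pr (fun _ => q) S (fun F => OE T (insert x X) (↑F)) ≤
      (2 ^ 188 * G) * ((X.card : ℝ) + 1) * Pr (fun _ => q) S (fun F => OE T X (↑F)) := by
  have hq0 : 0 ≤ q := by linarith [h.q0]
  have hpos : 0 ≤ Pr (fun _ => q) S (fun F => OE T X (↑F)) := Pr_nonneg (okq hq0 h.q1) _ _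
  refine (Finset.sum_le_sum fun x hx => h.one (X := X) hx).trans ?_
  rw [← Finset.mul_sum, ← Finset.sum_mul, Finset.sum_add_distrib, Finset.sum_comm]
  have h1 : ∑ y ∈ X, ∑ x ∈ D, arm q (nv (y - x) / 3) ≤ ∑ _y ∈ X, G :=
    Finset.sum_le_sum fun y hy => h.s2 y (hX hy)
  rw [Finset.sum_const, nsmul_eq_mul] at h1
  have h2 := h.s1
  have h3 : (∑ x ∈ D, arm q (d x / 3) + ∑ y ∈ X, ∑ x ∈ D, arm q (nv (y - x) / 3)) *
      Pr (fun _ => q) S (fun F => OE T X (↑F)) ≤ (G * ((X.card : ℝ) + 1)) *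
      Pr (fun _ => q) S (fun F => OE T X (↑F)) :=
    mul_le_mul_of_nonneg_right (by linarith) hpos
  calc _ ≤ 2 ^ 188 * ((G * ((X.card : ℝ) + 1)) *
      Pr (fun _ => q) S (fun F => OE T X (↑F))) := mul_le_mul_of_nonneg_left h3 (by positivity)
    _ = _ := by ring

theorem Good.G0 {q : ℝ} {S : Finset Edg} {T : Vtx → Prop} {D : Finset Vtx} {d : Vtx → ℕ}
    {G : ℝ} (h : Good q S T D d G) : 0 ≤ G :=
  (Finset.sum_nonneg fun _ _ => arm_nonneg (by linarith [h.q0]) h.q1 _).trans h.s1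

theorem Good.mo {q : ℝ} {S : Finset Edg} {T : Vtx → Prop} {D : Finset Vtx} {d : Vtx → ℕ}
    {G : ℝ} (h : Good q S T D d G) (k : ℕ) (X : Finset Vtx) (hX : X ⊆ D) :
    Mo q S T D k X ≤ (2 ^ 188 * G) ^ k * ((X.card + 1).ascFactorial k : ℕ) *
      Pr (fun _ => q) S (fun F => OE T X (↑F)) :=
  Mo_le (by linarith [h.q0]) h.q1 (by have := h.G0; positivity) h.H k X hX

theorem hs_exp (y : ℝ) : HasSum (fun k : ℕ => y ^ k / (k.factorial : ℝ)) (Real.exp y) := by
  rw [Real.exp_eq_exp_ℝ]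
  exact NormedSpace.expSeries_div_hasSum_exp y

theorem Ex_exp (q : ℝ) (S : Finset Edg) (T : Vtx → Prop) (D : Finset Vtx) (X : Finset Vtx)
    (t : ℝ) : HasSum (fun k : ℕ => t ^ k / (k.factorial : ℝ) * Mo q S T D k X)
      (Ex (fun _ => q) S (fun F => ind (OE T X (↑F)) * Real.exp (t * YT T D F))) := by
  have e : ∀ k : ℕ, t ^ k / (k.factorial : ℝ) * Mo q S T D k X =
      Ex (fun _ => q) S (fun F => ind (OE T X (↑F)) * ((t * YT T D F) ^ k / (k.factorial : ℝ))) := by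
    intro k
    unfold Mo
    rw [← Ex_mul_left]
    apply Ex_congr
    intro F _
    rw [mul_pow]
    ring
  simp only [e]
  unfold Ex
  apply hasSum_sum
  intro F _
  exact ((hs_exp _).mul_left _).mul_left _

/-- Exponential moment. -/
theorem Good.expo {q : ℝ} {S : Finset Edg} {T : Vtx → Prop} {D : Finset Vtx} {d : Vtx → ℕ}
    {G : ℝ} (h : Good q S T D d G) {t : ℝ} (ht0 : 0 ≤ t) (ht : t * (2 ^ 188 * G) ≤ 1 / 4)
    {X : Finset Vtx} (hX : X ⊆ D) (hc : X.card ≤ 1) :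
    Ex (fun _ => q) S (fun F => ind (OE T X (↑F)) * Real.exp (t * YT T D F)) ≤
      2 * Pr (fun _ => q) S (fun F => OE T X (↑F)) := by
  have hq0 : 0 ≤ q := by linarith [h.q0]
  have hpos : 0 ≤ Pr (fun _ => q) S (fun F => OE T X (↑F)) := Pr_nonneg (okq hq0 h.q1) _ _
  have hG := h.G0
  refine hasSum_le ?_ (Ex_exp q S T D X t) (hasSum_geometric_two.mul_right _)
  intro k
  have h1 := h.mo k X hX
  have hf : (0 : ℝ) < (k.factorial : ℝ) := by exact_mod_cast k.factorial_pos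
  have h2 : (((X.card + 1).ascFactorial k : ℕ) : ℝ) ≤ (2 : ℝ) ^ k * (k.factorial : ℝ) := by
    have h3 : (X.card + 1).ascFactorial k ≤ 2 ^ k * k.factorial := by
      refine (Nat.ascFactorial_le k (show X.card + 1 ≤ 2 by omega)).trans ?_
      have h4 := Nat.factorial_mul_ascFactorial 1 k
      rw [Nat.factorial_one, one_mul] at h4
      rw [h4, add_comm, Nat.factorial_succ]
      exact Nat.mul_le_mul_right _ (Nat.lt_two_pow_self)
    exact_mod_cast h3
  have h0 : 0 ≤ t ^ k / (k.factorial : ℝ) := by positivity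
  calc t ^ k / (k.factorial : ℝ) * Mo q S T D k X
      ≤ t ^ k / (k.factorial : ℝ) * ((2 ^ 188 * G) ^ k * ((X.card + 1).ascFactorial k : ℕ) *
        Pr (fun _ => q) S (fun F => OE T X (↑F))) := mul_le_mul_of_nonneg_left h1 h0
    _ ≤ t ^ k / (k.factorial : ℝ) * ((2 ^ 188 * G) ^ k * ((2 : ℝ) ^ k * (k.factorial : ℝ)) *
        Pr (fun _ => q) S (fun F => OE T X (↑F))) := by
        apply mul_le_mul_of_nonneg_left _ h0
        apply mul_le_mul_of_nonneg_right _ hpos
        exact mul_le_mul_of_nonneg_left h2 (by positivity)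
    _ = (2 * (t * (2 ^ 188 * G))) ^ k * Pr (fun _ => q) S (fun F => OE T X (↑F)) := by
        have e : (2 * (t * (2 ^ 188 * G))) ^ k = 2 ^ k * (t ^ k * (2 ^ 188 * G) ^ k) := by
          rw [mul_pow, mul_pow t]
        rw [e]
        generalize (2 ^ 188 * G) ^ k = Z
        field_simp
    _ ≤ (1 / 2) ^ k * Pr (fun _ => q) S (fun F => OE T X (↑F)) := by
        apply mul_le_mul_of_nonneg_right _ hpos
        apply pow_le_pow_left₀ (by positivity)
        linarith

/-- Exponential moment minus one, in terms of the first moment. -/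
theorem Good.expo1 {q : ℝ} {S : Finset Edg} {T : Vtx → Prop} {D : Finset Vtx} {d : Vtx → ℕ}
    {G : ℝ} (h : Good q S T D d G) {t : ℝ} (ht0 : 0 ≤ t) (ht : t * (2 ^ 188 * G) ≤ 1 / 4) :
    Ex (fun _ => q) S (fun F => Real.exp (t * YT T D F)) ≤
      1 + 2 * t * ∑ x ∈ D, Pr (fun _ => q) S (fun F => OE T {x} (↑F)) := by
  have hq0 : 0 ≤ q := by linarith [h.q0]
  have hG := h.G0
  obtain ⟨m, hm⟩ : ∃ m : ℝ, m = ∑ x ∈ D, Pr (fun _ => q) S (fun F => OE T {x} (↑F)) := ⟨_, rfl⟩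
  have hm0 : 0 ≤ m := by
    rw [hm]; exact Finset.sum_nonneg fun _ _ => Pr_nonneg (okq hq0 h.q1) _ _
  rw [← hm]
  have e1 : Ex (fun _ => q) S (fun F => Real.exp (t * YT T D F)) =
      Ex (fun _ => q) S (fun F => ind (OE T ∅ (↑F)) * Real.exp (t * YT T D F)) := by
    apply Ex_congr
    intro F _
    have h2 : OE T ∅ (↑F : Set Edg) := fun u hu => absurd hu (Finset.notMem_empty u)
    rw [ind_of h2, one_mul]
  rw [e1]
  have hs2 := Ex_exp q S T D ∅ t
  have hg : HasSum (fun k : ℕ => (2 * t * m) * (1 / 2 : ℝ) ^ k +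
      (if k = 0 then (1 - 2 * t * m) else 0)) (1 + 2 * t * m) := by
    have h3 := (hasSum_geometric_two.mul_left (2 * t * m)).add
      (hasSum_ite_eq (0:ℕ) (1 - 2 * t * m))
    have e2 : 2 * t * m * 2 + (1 - 2 * t * m) = 1 + 2 * t * m := by ring
    rw [e2] at h3
    exact h3
  refine hasSum_le ?_ hs2 hg
  intro k
  rcases Nat.eq_zero_or_pos k with h0 | hpos
  · subst h0
    rw [if_pos rfl, Mo_zero]
    have : Pr (fun _ => q) S (fun F => OE T ∅ (↑F)) ≤ 1 := Pr_le_one (okq hq0 h.q1) _ _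
    simp only [pow_zero, Nat.factorial_zero, Nat.cast_one, div_one, one_mul, mul_one]
    linarith
  · obtain ⟨j, rfl⟩ : ∃ j, k = j + 1 := ⟨k - 1, by omega⟩
    rw [if_neg (by omega), Mo_succ, add_zero]
    have hj : ∀ x ∈ D, Mo q S T D j (insert x ∅) ≤ (2 ^ 188 * G) ^ j * ((j + 1).factorial : ℝ) *
        Pr (fun _ => q) S (fun F => OE T {x} (↑F)) := by
      intro x hx
      have h5 := h.mo j {x} (Finset.singleton_subset_iff.mpr hx)
      rw [Finset.card_singleton] at h5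
      have h4 := Nat.factorial_mul_ascFactorial 1 j
      rw [Nat.factorial_one, one_mul] at h4
      rw [h4, add_comm 1 j] at h5
      exact h5
    have h6 : ∑ x ∈ D, Mo q S T D j (insert x ∅) ≤ (2 ^ 188 * G) ^ j * ((j + 1).factorial : ℝ) * m := by
      refine (Finset.sum_le_sum hj).trans (le_of_eq ?_)
      rw [← Finset.mul_sum, ← hm]
    have hf : (0 : ℝ) < ((j + 1).factorial : ℝ) := by exact_mod_cast (j + 1).factorial_pos
    calc t ^ (j + 1) / ((j + 1).factorial : ℝ) * ∑ x ∈ D, Mo q S T D j (insert x ∅)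
        ≤ t ^ (j + 1) / ((j + 1).factorial : ℝ) *
          ((2 ^ 188 * G) ^ j * ((j + 1).factorial : ℝ) * m) :=
          mul_le_mul_of_nonneg_left h6 (by positivity)
      _ = t * m * (t * (2 ^ 188 * G)) ^ j := by
          have e : (t * (2 ^ 188 * G)) ^ j = t ^ j * (2 ^ 188 * G) ^ j := by rw [mul_pow t]
          rw [e, pow_succ]
          generalize (2 ^ 188 * G) ^ j = Z
          field_simp
      _ ≤ t * m * (1 / 2) ^ j := by
          apply mul_le_mul_of_nonneg_left _ (by positivity)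
          apply pow_le_pow_left₀ (by positivity)
          linarith
      _ = 2 * t * m * (1 / 2) ^ (j + 1) := by rw [pow_succ]; ring

end Pool.Agent.TH967.VT
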