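import Pool.Agent.TH967.VT.Mom

/-!
Sums of one-arm probabilities over boxes.
-/

set_option autoImplicit false

namespace Pool.Agent.TH967.VT
open Finset H974 Pool.Agent.H160R2.CV H362P
open Pool.Agent.H160R2.CV.Quad

/-- comparison of negative powers -/
theorem pw {t u k : ℝ} (ht : 0 < t) (hu : 0 < u) (hk : 1 ≤ k) (h : u ≤ k * t) :
    t ^ (-(5 / 48 : ℝ)) ≤ k * u ^ (-(5 / 48 : ℝ)) := by
  have hk0 : 0 < k := by linarith
  have h1 : u / k ≤ t := by rw [div_le_iff₀ hk0]; linarith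
  have h2 : t ^ (-(5 / 48 : ℝ)) ≤ (u / k) ^ (-(5 / 48 : ℝ)) :=
    Real.rpow_le_rpow_of_nonpos (by positivity) h1 (by norm_num)
  refine h2.trans ?_
  rw [Real.div_rpow hu.le hk0.le, Real.rpow_neg hk0.le, div_inv_eq_mul, mul_comm]
  apply mul_le_mul_of_nonneg_right _ (by positivity)
  calc k ^ (5 / 48 : ℝ) ≤ k ^ (1 : ℝ) := Real.rpow_le_rpow_of_exponent_le hk (by norm_num)
    _ = k := Real.rpow_one k

/-- upper bound for the one-arm probabilities up to scale `n` -/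
def ArmUp (q K0 : ℝ) (n : ℕ) : Prop :=
  ∀ k : ℕ, 1 ≤ k → k ≤ n → arm q k ≤ K0 * (k : ℝ) ^ (-(5 / 48 : ℝ))

theorem ArmUp.anti {q K0 : ℝ} {n m : ℕ} (h : ArmUp q K0 n) (hm : m ≤ n) : ArmUp q K0 m :=
  fun k h1 h2 => h k h1 (h2.trans hm)

theorem ArmUp.third {q K0 : ℝ} {n : ℕ} (h : ArmUp q K0 n) (hK : 1 ≤ K0) {k : ℕ} (hk : k ≤ n) :
    arm q (k / 3) ≤ 6 * K0 * ((k : ℝ) + 1) ^ (-(5 / 48 : ℝ)) := by
  have hk0 : (0 : ℝ) < (k : ℝ) + 1 := by positivity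
  rcases Nat.lt_or_ge k 3 with h3 | h3
  · have e : k / 3 = 0 := by omega
    rw [e, arm_zero]
    have h1 := pw (t := 1) (u := (k : ℝ) + 1) (k := 3) one_pos hk0 (by norm_num) (by
      have : (k : ℝ) ≤ 2 := by exact_mod_cast (by omega : k ≤ 2)
      linarith)
    rw [Real.one_rpow] at h1
    have h2 : 0 ≤ ((k : ℝ) + 1) ^ (-(5 / 48 : ℝ)) := by positivity
    nlinarith
  · have h4 : 1 ≤ k / 3 := by omega
    have h5 := h (k / 3) h4 (by omega)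
    have h6 : (0 : ℝ) < ((k / 3 : ℕ) : ℝ) := by exact_mod_cast h4
    have h7 := pw (t := ((k / 3 : ℕ) : ℝ)) (u := (k : ℝ) + 1) (k := 6) h6 hk0 (by norm_num) (by
      have : k + 1 ≤ 6 * (k / 3) := by omega
      exact_mod_cast this)
    calc arm q (k / 3) ≤ K0 * ((k / 3 : ℕ) : ℝ) ^ (-(5 / 48 : ℝ)) := h5
      _ ≤ K0 * (6 * ((k : ℝ) + 1) ^ (-(5 / 48 : ℝ))) :=
          mul_le_mul_of_nonneg_left h7 (by linarith)
      _ = _ := by ring

theorem ArmUp.sum {q K0 : ℝ} {n : ℕ} (h : ArmUp q K0 n) (hK : 1 ≤ K0) (h0 : 0 ≤ q)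
    (h1 : q ≤ 1) : ∑ x ∈ bx n, arm q (nv x / 3) ≤ 48 * K0 * ((n : ℝ) + 1) ^ (91 / 48 : ℝ) := by
  refine (sum_bx n (fun k => arm q (k / 3)) (fun k => arm_nonneg h0 h1 _)).trans ?_
  have h2 : ∑ k ∈ range (n + 1), ((k : ℝ) + 1) * arm q (k / 3) ≤
      ∑ _k ∈ range (n + 1), 6 * K0 * ((n : ℝ) + 1) ^ (43 / 48 : ℝ) := by
    apply Finset.sum_le_sum
    intro k hk
    rw [Finset.mem_range] at hk
    have hk0 : (0 : ℝ) < (k : ℝ) + 1 := by positivity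
    have hkn : (k : ℝ) + 1 ≤ (n : ℝ) + 1 := by
      have : (k : ℝ) ≤ n := by exact_mod_cast (by omega : k ≤ n)
      linarith
    calc ((k : ℝ) + 1) * arm q (k / 3)
        ≤ ((k : ℝ) + 1) * (6 * K0 * ((k : ℝ) + 1) ^ (-(5 / 48 : ℝ))) :=
          mul_le_mul_of_nonneg_left (h.third hK (by omega)) hk0.le
      _ = 6 * K0 * ((k : ℝ) + 1) ^ (43 / 48 : ℝ) := by
          have e : ((k : ℝ) + 1) ^ (43 / 48 : ℝ) =
              ((k : ℝ) + 1) * ((k : ℝ) + 1) ^ (-(5 / 48 : ℝ)) := by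
            nth_rewrite 2 [← Real.rpow_one ((k : ℝ) + 1)]
            rw [← Real.rpow_add hk0]
            norm_num
          rw [e]; ring
      _ ≤ _ := by
          apply mul_le_mul_of_nonneg_left _ (by linarith)
          exact Real.rpow_le_rpow hk0.le hkn (by norm_num)
  rw [Finset.sum_const, Finset.card_range, nsmul_eq_mul] at h2
  have hn0 : (0 : ℝ) < (n : ℝ) + 1 := by positivity
  calc 8 * ∑ k ∈ range (n + 1), ((k : ℝ) + 1) * arm q (k / 3)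
      ≤ 8 * (((n + 1 : ℕ) : ℝ) * (6 * K0 * ((n : ℝ) + 1) ^ (43 / 48 : ℝ))) := by linarith
    _ = 48 * K0 * ((n : ℝ) + 1) ^ (91 / 48 : ℝ) := by
        have e : ((n : ℝ) + 1) ^ (91 / 48 : ℝ) = ((n : ℝ) + 1) * ((n : ℝ) + 1) ^ (43 / 48 : ℝ) := by
          nth_rewrite 2 [← Real.rpow_one ((n : ℝ) + 1)]
          rw [← Real.rpow_add hn0]
          norm_num
        rw [e]
        push_cast
        ring

theorem ArmUp.sum_sq {q K0 : ℝ} {n : ℕ} (h : ArmUp q K0 n) (hK : 1 ≤ K0) (h0 : 0 ≤ q)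
    (h1 : q ≤ 1) :
    ∑ x ∈ bx n, arm q (nv x / 3) ^ 2 ≤ 288 * K0 ^ 2 * ((n : ℝ) + 1) ^ (86 / 48 : ℝ) := by
  refine (sum_bx n (fun k => arm q (k / 3) ^ 2) (fun k => sq_nonneg _)).trans ?_
  have h2 : ∑ k ∈ range (n + 1), ((k : ℝ) + 1) * arm q (k / 3) ^ 2 ≤
      ∑ _k ∈ range (n + 1), 36 * K0 ^ 2 * ((n : ℝ) + 1) ^ (38 / 48 : ℝ) := by
    apply Finset.sum_le_sum
    intro k hk
    rw [Finset.mem_range] at hk
    have hk0 : (0 : ℝ) < (k : ℝ) + 1 := by positivity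
    have hkn : (k : ℝ) + 1 ≤ (n : ℝ) + 1 := by
      have : (k : ℝ) ≤ n := by exact_mod_cast (by omega : k ≤ n)
      linarith
    calc ((k : ℝ) + 1) * arm q (k / 3) ^ 2
        ≤ ((k : ℝ) + 1) * (6 * K0 * ((k : ℝ) + 1) ^ (-(5 / 48 : ℝ))) ^ 2 :=
          mul_le_mul_of_nonneg_left (pow_le_pow_left₀ (arm_nonneg h0 h1 _)
            (h.third hK (by omega)) 2) hk0.le
      _ = 36 * K0 ^ 2 * ((k : ℝ) + 1) ^ (38 / 48 : ℝ) := by
          have e : ((k : ℝ) + 1) ^ (38 / 48 : ℝ) = ((k : ℝ) + 1) *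
              (((k : ℝ) + 1) ^ (-(5 / 48 : ℝ))) ^ 2 := by
            rw [← Real.rpow_natCast (((k : ℝ) + 1) ^ (-(5 / 48 : ℝ))) 2, ← Real.rpow_mul hk0.le]
            nth_rewrite 2 [← Real.rpow_one ((k : ℝ) + 1)]
            rw [← Real.rpow_add hk0]
            norm_num
          rw [e]; ring
      _ ≤ _ := by
          apply mul_le_mul_of_nonneg_left _ (by positivity)
          exact Real.rpow_le_rpow hk0.le hkn (by norm_num)
  rw [Finset.sum_const, Finset.card_range, nsmul_eq_mul] at h2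
  have hn0 : (0 : ℝ) < (n : ℝ) + 1 := by positivity
  calc 8 * ∑ k ∈ range (n + 1), ((k : ℝ) + 1) * arm q (k / 3) ^ 2
      ≤ 8 * (((n + 1 : ℕ) : ℝ) * (36 * K0 ^ 2 * ((n : ℝ) + 1) ^ (38 / 48 : ℝ))) := by linarith
    _ = 288 * K0 ^ 2 * ((n : ℝ) + 1) ^ (86 / 48 : ℝ) := by
        have e : ((n : ℝ) + 1) ^ (86 / 48 : ℝ) = ((n : ℝ) + 1) * ((n : ℝ) + 1) ^ (38 / 48 : ℝ) := by
          nth_rewrite 2 [← Real.rpow_one ((n : ℝ) + 1)]
          rw [← Real.rpow_add hn0]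
          norm_num
        rw [e]
        push_cast
        ring

/-- the vertices at distance at most `N` from `c` -/
noncomputable def Bc (c : Vtx) (N : ℕ) : Finset Vtx :=
  Finset.Icc (c.1 - N) (c.1 + N) ×ˢ Finset.Icc (c.2 - N) (c.2 + N)

theorem mem_Bc {c x : Vtx} {N : ℕ} : x ∈ Bc c N ↔ nv (x - c) ≤ N := by
  unfold Bc nv
  rw [Finset.mem_product, Finset.mem_Icc, Finset.mem_Icc]
  simp only [Prod.fst_sub, Prod.snd_sub]
  omega

theorem card_Bc (c : Vtx) (N : ℕ) : ((Bc c N).card : ℝ) = (2 * (N : ℝ) + 1) ^ 2 := by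
  unfold Bc
  rw [Finset.card_product, Int.card_Icc, Int.card_Icc]
  have e1 : Int.toNat (c.1 + (N : ℤ) + 1 - (c.1 - N)) = 2 * N + 1 := by omega
  have e2 : Int.toNat (c.2 + (N : ℤ) + 1 - (c.2 - N)) = 2 * N + 1 := by omega
  rw [e1, e2]
  push_cast
  ring

theorem mem_bx' {n : ℕ} {x : Vtx} : x ∈ bx n ↔ nv x ≤ n := by
  unfold bx nv
  rw [Finset.mem_product, Finset.mem_Icc, Finset.mem_Icc]
  omega

theorem nv_tri' (u v w : Vtx) : nv (u - w) ≤ nv (u - v) + nv (v - w) := by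
  unfold nv
  simp only [Prod.fst_sub, Prod.snd_sub]
  omega

theorem nv_comm' (x y : Vtx) : nv (x - y) = nv (y - x) := by
  unfold nv
  simp only [Prod.fst_sub, Prod.snd_sub]
  omega

theorem sum_Bc {c y : Vtx} {N : ℕ} (hy : y ∈ Bc c N) (f : ℕ → ℝ) (hf : ∀ k, 0 ≤ f k) :
    ∑ x ∈ Bc c N, f (nv (y - x)) ≤ ∑ z ∈ bx (2 * N), f (nv z) := by
  classical
  have h1 : ∑ x ∈ Bc c N, f (nv (y - x)) = ∑ z ∈ (Bc c N).image (fun x => y - x), f (nv z) := by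
    rw [Finset.sum_image]
    intro a _ b _ hab
    exact sub_right_injective hab
  rw [h1]
  apply Finset.sum_le_sum_of_subset_of_nonneg
  · intro z hz
    rw [Finset.mem_image] at hz
    obtain ⟨x, hx, rfl⟩ := hz
    rw [mem_bx']
    rw [mem_Bc] at hx hy
    have h2 := nv_tri' y c x
    rw [nv_comm' c x] at h2
    omega
  · intro _ _ _
    exact hf _

theorem bo_sub_bo {x c : Vtx} {m n : ℕ} (h : nv (x - c) + m ≤ n) : bo x m ⊆ bo c n := by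
  unfold bo
  unfold nv at h
  simp only [Prod.fst_sub, Prod.snd_sub] at h
  apply RE_subset <;> omega

/-- the constant `G` -/
noncomputable def GG (K0 : ℝ) (N : ℕ) : ℝ := 3888 * K0 * (N : ℝ) ^ (91 / 48 : ℝ)

theorem nine_pow : (9 : ℝ) ^ (91 / 48 : ℝ) ≤ 81 := by
  calc (9 : ℝ) ^ (91 / 48 : ℝ) ≤ (9 : ℝ) ^ (2 : ℝ) :=
        Real.rpow_le_rpow_of_exponent_le (by norm_num) (by norm_num)
    _ = 81 := by norm_num

theorem s2_bound {q K0 : ℝ} {N R1 : ℕ} (hN : 1 ≤ N) (hR : R1 ≤ 4 * N) (h : ArmUp q K0 (8 * N))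
    (hK : 1 ≤ K0) (h0 : 0 ≤ q) (h1 : q ≤ 1) {c y : Vtx} (hy : y ∈ Bc c R1) :
    ∑ x ∈ Bc c R1, arm q (nv (y - x) / 3) ≤ GG K0 N := by
  have h2 := sum_Bc hy (fun k => arm q (k / 3)) (fun k => arm_nonneg h0 h1 _)
  have h3 := (h.anti (show 2 * R1 ≤ 8 * N by omega)).sum hK h0 h1
  refine h2.trans (h3.trans ?_)
  unfold GG
  have hN1 : (1 : ℝ) ≤ N := by exact_mod_cast hN
  have h4 : ((2 * R1 : ℕ) : ℝ) + 1 ≤ 9 * N := by
    have : (R1 : ℝ) ≤ 4 * N := by exact_mod_cast hR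
    push_cast
    linarith
  have h5 : (((2 * R1 : ℕ) : ℝ) + 1) ^ (91 / 48 : ℝ) ≤ 81 * (N : ℝ) ^ (91 / 48 : ℝ) := by
    calc (((2 * R1 : ℕ) : ℝ) + 1) ^ (91 / 48 : ℝ) ≤ (9 * (N : ℝ)) ^ (91 / 48 : ℝ) :=
          Real.rpow_le_rpow (by positivity) h4 (by norm_num)
      _ = (9 : ℝ) ^ (91 / 48 : ℝ) * (N : ℝ) ^ (91 / 48 : ℝ) :=
          Real.mul_rpow (by norm_num) (by linarith)
      _ ≤ _ := mul_le_mul_of_nonneg_right nine_pow (by positivity)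
  calc 48 * K0 * (((2 * R1 : ℕ) : ℝ) + 1) ^ (91 / 48 : ℝ)
      ≤ 48 * K0 * (81 * (N : ℝ) ^ (91 / 48 : ℝ)) := mul_le_mul_of_nonneg_left h5 (by linarith)
    _ = _ := by ring

/-- The target is the outside of a box. -/
theorem good_out {q K0 : ℝ} {N R1 : ℕ} (hN : 1 ≤ N) (hR : R1 ≤ 4 * N) (h : ArmUp q K0 (8 * N))
    (hK : 1 ≤ K0) (h0 : 1 / 2 ≤ q) (h1 : q ≤ 1) (c : Vtx) {S : Finset Edg}
    (hS : bo c (R1 + N) ⊆ S) :
    Good q S (fun v => R1 + N ≤ nv (v - c)) (Bc c R1) (fun _ => N) (GG K0 N) := by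
  have hq0 : 0 ≤ q := by linarith
  refine ⟨h0, h1, ?_, ?_, ?_, fun y hy => s2_bound hN hR h hK hq0 h1 hy⟩
  · intro x hx v hv
    rw [mem_Bc] at hx
    have := nv_tri' v x c
    omega
  · intro x hx
    rw [mem_Bc] at hx
    exact (bo_sub_bo (by omega)).trans hS
  · rw [Finset.sum_const, nsmul_eq_mul, card_Bc]
    have hN1 : (1 : ℝ) ≤ N := by exact_mod_cast hN
    have hN0 : (0 : ℝ) < N := by linarith
    have h3 := h.third hK (show N ≤ 8 * N by omega)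
    have h4 : ((N : ℝ) + 1) ^ (-(5 / 48 : ℝ)) ≤ (N : ℝ) ^ (-(5 / 48 : ℝ)) :=
      Real.rpow_le_rpow_of_nonpos hN0 (by linarith) (by norm_num)
    have h5 : (2 * (R1 : ℝ) + 1) ^ 2 ≤ 81 * (N : ℝ) ^ 2 := by
      have h6 : (R1 : ℝ) ≤ 4 * N := by exact_mod_cast hR
      have h7 : 2 * (R1 : ℝ) + 1 ≤ 9 * N := by linarith
      have h8 : (0 : ℝ) ≤ R1 := Nat.cast_nonneg _
      nlinarith
    have e : (N : ℝ) ^ (91 / 48 : ℝ) = (N : ℝ) ^ 2 * (N : ℝ) ^ (-(5 / 48 : ℝ)) := by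
      rw [← Real.rpow_natCast (N : ℝ) 2, ← Real.rpow_add hN0]
      norm_num
    unfold GG
    rw [e]
    have hp : 0 ≤ (N : ℝ) ^ (-(5 / 48 : ℝ)) := by positivity
    calc (2 * (R1 : ℝ) + 1) ^ 2 * arm q (N / 3)
        ≤ (81 * (N : ℝ) ^ 2) * (6 * K0 * (N : ℝ) ^ (-(5 / 48 : ℝ))) := by
          apply mul_le_mul h5 _ (arm_nonneg hq0 h1 _) (by positivity)
          exact h3.trans (mul_le_mul_of_nonneg_left h4 (by linarith))
      _ ≤ _ := by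
          have : 0 ≤ K0 * ((N : ℝ) ^ 2 * (N : ℝ) ^ (-(5 / 48 : ℝ))) := by
            have : 0 ≤ K0 := by linarith
            positivity
          nlinarith

/-- The target is one vertex. -/
theorem good_pt {q K0 : ℝ} {N R1 : ℕ} (hN : 1 ≤ N) (hR : R1 ≤ 4 * N) (h : ArmUp q K0 (8 * N))
    (hK : 1 ≤ K0) (h0 : 1 / 2 ≤ q) (h1 : q ≤ 1) (c : Vtx) {S : Finset Edg}
    (hS : bo c (2 * R1) ⊆ S) :
    Good q S (fun v => v = c) (Bc c R1) (fun x => nv (c - x)) (GG K0 N) := by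
  have hq0 : 0 ≤ q := by linarith
  have hc : c ∈ Bc c R1 := by
    rw [mem_Bc, sub_self]
    exact Nat.zero_le _
  refine ⟨h0, h1, ?_, ?_, s2_bound hN hR h hK hq0 h1 hc,
    fun y hy => s2_bound hN hR h hK hq0 h1 hy⟩
  · intro x hx v hv
    rw [hv]
  · intro x hx
    rw [mem_Bc] at hx
    refine (bo_sub_bo ?_).trans hS
    rw [nv_comm' c x]
    omega

end Pool.Agent.TH967.VT
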