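import Pool.Agent.TH967.VT.UpB
import Pool.Agent.TH291.NC.Theta
import Pool.Agent.W424.NC.Stab

/-!
The volume of the cluster above the critical point.
-/

set_option autoImplicit false

namespace Pool.Agent.TH967.VT
open Finset H974 Filter MeasureTheory Pool.Agent.H160R2.CV H362P
open Pool.Agent.H160R2.CV.Quad Pool.Agent.H160R2.CV.VolAux

/-! ### from finite boxes to the infinite lattice -/

theorem law_boxp (p : unitInterval) (m : ℕ) (Q : Set Edg → Prop) :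
    (bondLaw p).real {ω | Q (opn ω ∩ ↑(boxE m))} = Pr (fun _ => (p : ℝ)) (boxE m) (fun F => Q ↑F) := by
  have h := law_event p (boxE m) (fun F => Q ↑F)
  have e : {ω | Q (opn ω ∩ ↑(boxE m))} = {ω | (fun F : Finset Edg => Q ↑F) (FF (boxE m) ω)} := by
    ext ω
    simp only [Set.mem_ofPred_eq, FF_coe]
  rw [e, h]

theorem upperp (p : unitInterval) (Q : Set Edg → Prop) (hmono : ∀ F G, F ⊆ G → Q F → Q G)
    (hbox : ∀ F, Q F → ∃ m : ℕ, Q (F ∩ ↑(boxE m))) (c : ℝ)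
    (h : ∀ m : ℕ, Pr (fun _ => (p : ℝ)) (boxE m) (fun F => Q ↑F) ≤ c) :
    (bondLaw p).real {ω | Q (opn ω)} ≤ c := by
  have e : {ω : sqLattice.edgeSet → Bool | Q (opn ω)} = ⋃ m : ℕ, {ω | Q (opn ω ∩ ↑(boxE m))} := by
    ext ω
    rw [Set.mem_iUnion]
    constructor
    · intro hω
      exact hbox _ hω
    · rintro ⟨m, hm⟩
      exact hmono _ _ Set.inter_subset_left hm
  have hm : Monotone (fun m : ℕ => {ω : sqLattice.edgeSet → Bool | Q (opn ω ∩ ↑(boxE m))}) := by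
    intro m m' hmm ω hω
    exact hmono _ _ (Set.inter_subset_inter_right _ (InfAux.boxE_coe_mono hmm)) hω
  have h1 := tendsto_measure_iUnion_atTop (μ := bondLaw p) hm
  rw [← e] at h1
  have h2 : Tendsto (fun m : ℕ => (bondLaw p).real {ω | Q (opn ω ∩ ↑(boxE m))}) atTop
      (nhds ((bondLaw p).real {ω | Q (opn ω)})) :=
    (ENNReal.tendsto_toReal (measure_ne_top _ _)).comp h1
  refine le_of_tendsto' h2 (fun m => ?_)
  rw [law_boxp]
  exact h m

theorem lowerp (p : unitInterval) (Q : Set Edg → Prop) (hmono : ∀ F G, F ⊆ G → Q F → Q G) (m : ℕ) :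
    Pr (fun _ => (p : ℝ)) (boxE m) (fun F => Q ↑F) ≤ (bondLaw p).real {ω | Q (opn ω)} := by
  rw [← law_boxp]
  exact measureReal_mono (fun ω hω => hmono _ _ Set.inter_subset_left hω)

/-- the tail of the volume of the cluster of the origin -/
noncomputable def tl (p : unitInterval) (n : ℕ) : ℝ :=
  (bondLaw p).real {ω | (n : ℕ∞) ≤ (cluster0 ω).encard}

theorem tl_eq (p : unitInterval) (n : ℕ) : tl p n = (bondLaw p).real {ω | Vol n (opn ω)} := by
  unfold tl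
  congr 1
  ext ω
  exact InfAux.encard_iff ω n

theorem tl_le (p : unitInterval) (n : ℕ) (c : ℝ)
    (h : ∀ m : ℕ, Pr (fun _ => (p : ℝ)) (boxE m) (fun F => Vol (n : ℝ) (↑F : Set Edg)) ≤ c) :
    tl p n ≤ c := by
  rw [tl_eq]
  exact upperp p (fun F : Set Edg => Vol n F) (fun F G hFG h => InfAux.vol_mono hFG h)
    (fun F h => InfAux.vol_box h) _ h

theorem le_tl (p : unitInterval) (n m : ℕ) :
    Pr (fun _ => (p : ℝ)) (boxE m) (fun F => Vol (n : ℝ) (↑F : Set Edg)) ≤ tl p n := by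
  rw [tl_eq]
  exact lowerp p (fun F : Set Edg => Vol n F) (fun F G hFG h => InfAux.vol_mono hFG h) m

theorem tl_mono {p q : unitInterval} (h : p ≤ q) (n : ℕ) : tl p n ≤ tl q n := by
  apply tl_le
  intro m
  refine le_trans ?_ (le_tl q n m)
  apply Pr_mono_param (okq p.2.1 p.2.2) (okq q.2.1 q.2.2) (fun _ => h)
  intro F G h _ hF
  exact InfAux.vol_mono (by exact_mod_cast h) hF

theorem theta_le_tl (p : unitInterval) (n : ℕ) : theta p ≤ tl p n := by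
  unfold theta tl
  refine measureReal_mono ?_ (measure_ne_top _ _)
  intro ω hω
  have : (cluster0 ω).encard = ⊤ := Set.encard_eq_top_iff.mpr hω
  simp only [Set.mem_ofPred_eq]
  rw [this]
  exact le_top

/-! ### above the critical point -/

theorem two_upq {q : ℝ} (h0 : 0 ≤ q) (h1 : q ≤ 1) (S : Finset Edg) (x : Vtx) :
    Pr (fun _ => q) S (fun F => Reach (↑F) (0, 0) x) ≤ arm q (nv x / 3) ^ 2 := by
  obtain ⟨m, hm⟩ : ∃ m : ℕ, m = nv x / 3 := ⟨_, rfl⟩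
  rw [← hm]
  have z1 : x - ((0, 0) : Vtx) = x := by
    have : ((0, 0) : Vtx) = 0 := rfl
    rw [this, sub_zero]
  rcases Nat.eq_zero_or_pos m with h | h
  · rw [h, arm_zero, one_pow]
    exact Pr_le_one (okq h0 h1) _ _
  · have hd : Disjoint (bo (0, 0) m) (bo x m) := by
      apply bo_disj
      rw [nv_comm', z1]
      omega
    have h2 := indepq h0 h1 S (bo (0, 0) m) (bo x m) hd (A := LA (0, 0) m) (B := LA x m)
      (LA_inc _ _) (LA_inc _ _) (LA_loc (Finset.Subset.refl _)) (LA_loc (Finset.Subset.refl _))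
    have h3 : Pr (fun _ => q) S (fun F => Reach (↑F) (0, 0) x) ≤
        Pr (fun _ => q) S (fun F => LA (0, 0) m F ∧ LA x m F) := by
      apply Pr_mono (okq h0 h1)
      intro F _ hr
      exact ⟨LA_of_reach (by rw [z1]; omega) hr, LA_of_reach (by rw [nv_comm', z1]; omega) hr.symm⟩
    refine h3.trans (h2.trans ?_)
    rw [sq]
    exact mul_le_mul (pr_LAq h0 h1 _ _ _) (pr_LAq h0 h1 _ _ _) (Pr_nonneg (okq h0 h1) _ _)
      (arm_nonneg h0 h1 _)

theorem vol_upq {q K0 : ℝ} (h0 : 0 ≤ q) (h1 : q ≤ 1) (hK : 1 ≤ K0) {N : ℕ} (hN : 1 ≤ N)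
    (hA : ArmUp q K0 N) {n : ℝ} (hn : 0 < n) (S : Finset Edg) :
    Pr (fun _ => q) S (fun F => Vol n (↑F : Set Edg)) ≤
      K0 * (N : ℝ) ^ (-(5 / 48 : ℝ)) + 288 * K0 ^ 2 * ((N : ℝ) + 1) ^ (86 / 48 : ℝ) / n := by
  have ok := okq h0 h1
  have key : Pr (fun _ => q) S (fun F => Vol n (↑F : Set Edg)) ≤
      Ex (fun _ => q) S (fun F => ind (Far (0, 0) N F) + (1 / n) * X (bx N) F) := by
    unfold Pr
    apply Ex_mono ok
    intro F _
    by_cases hV : Vol n (↑F : Set Edg)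
    · rw [ind_of hV]
      by_cases hF : Far (0, 0) N F
      · rw [ind_of hF]
        have := X_nonneg (bx N) F
        have : 0 ≤ (1 / n) * X (bx N) F := by positivity
        linarith
      · obtain ⟨T, hT, hr⟩ := hV
        have hTs : ∀ u ∈ T, u ∈ bx N := by
          intro u hu
          by_contra hn'
          rw [mem_bx', not_le] at hn'
          apply hF
          refine ⟨u, ?_, hr u hu⟩
          have : u - ((0, 0) : Vtx) = u := by
            have : ((0, 0) : Vtx) = 0 := rfl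
            rw [this, sub_zero]
          rw [this]
          exact hn'.le
        obtain ⟨T', -, hX, -, h5⟩ := X_eq (bx N) F
        have hsub : T ⊆ T' := fun u hu => h5 u (hTs u hu) (hr u hu)
        have hc : (T.card : ℝ) ≤ T'.card := by exact_mod_cast Finset.card_le_card hsub
        have : 1 ≤ (1 / n) * X (bx N) F := by
          rw [hX, one_div, ← div_eq_inv_mul, le_div_iff₀ hn]
          linarith
        have := ind_nonneg (Far (0, 0) N F)
        linarith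
    · rw [ind_not_of hV]
      have h6 := X_nonneg (bx N) F
      have h7 := ind_nonneg (Far (0, 0) N F)
      positivity
  have hEX : Ex (fun _ => q) S (X (bx N)) = ∑ x ∈ bx N, Pr (fun _ => q) S (fun F => Reach (↑F) (0, 0) x) := by
    unfold X
    rw [Ex_sum]
    rfl
  rw [Ex_add, Ex_mul_left, hEX] at key
  have h2 : Ex (fun _ => q) S (fun F => ind (Far (0, 0) N F)) ≤ arm q N := by
    refine le_trans (Pr_mono ok ?_) (arm_bound h0 h1 S (0, 0) N)
    rintro F _ ⟨u, hu, hr⟩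
    refine ⟨u, ?_, hr⟩
    unfold nv at hu
    simp only [Prod.fst_sub, Prod.snd_sub] at hu
    simp only
    omega
  have h3 : ∑ x ∈ bx N, Pr (fun _ => q) S (fun F => Reach (↑F) (0, 0) x) ≤
      288 * K0 ^ 2 * ((N : ℝ) + 1) ^ (86 / 48 : ℝ) :=
    (Finset.sum_le_sum fun x _ => two_upq h0 h1 S x).trans (hA.sum_sq hK h0 h1)
  have h4 : 1 / n * ∑ x ∈ bx N, Pr (fun _ => q) S (fun F => Reach (↑F) (0, 0) x) ≤
      288 * K0 ^ 2 * ((N : ℝ) + 1) ^ (86 / 48 : ℝ) / n := by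
    rw [one_div, ← div_eq_inv_mul]
    exact div_le_div_of_nonneg_right h3 hn.le
  have h5 := hA N hN le_rfl
  linarith

/-- the one-arm bound inside the critical window -/
theorem win_arm : ∃ K0 b : ℝ, 1 ≤ K0 ∧ 0 < b ∧ b ≤ 1 ∧ ∀ (q : ℝ) (N : ℕ), 1 / 2 ≤ q →
    (N : ℝ) * (q - 1 / 2) ^ (4 / 3 : ℝ) ≤ b → ArmUp q K0 N := by
  obtain ⟨κ, b0, hκ, hb0, hst⟩ := Pool.Agent.W424.NC.armS
  obtain ⟨K0, hK, hA⟩ := crit_arm
  refine ⟨3 * K0, min (b0 ^ (4 / 3 : ℝ)) 1, by linarith, lt_min (by positivity) one_pos,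
    min_le_right _ _, ?_⟩
  intro q N hq hN k hk1 hkN
  have hk0 : (0 : ℝ) < k := by exact_mod_cast hk1
  have hs0 : 0 ≤ q - 1 / 2 := by linarith
  have h1 : |q - 1 / 2| ≤ b0 * (k : ℝ) ^ (-(3 / 4 : ℝ)) := by
    rw [abs_of_nonneg hs0]
    have h2 : (k : ℝ) * (q - 1 / 2) ^ (4 / 3 : ℝ) ≤ b0 ^ (4 / 3 : ℝ) := by
      calc (k : ℝ) * (q - 1 / 2) ^ (4 / 3 : ℝ) ≤ N * (q - 1 / 2) ^ (4 / 3 : ℝ) :=
            mul_le_mul_of_nonneg_right (by exact_mod_cast hkN) (by positivity)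
        _ ≤ _ := hN.trans (min_le_left _ _)
    have h3 : (k : ℝ) ^ (3 / 4 : ℝ) * (q - 1 / 2) ≤ b0 := by
      have h4 : ((k : ℝ) * (q - 1 / 2) ^ (4 / 3 : ℝ)) ^ (3 / 4 : ℝ) ≤
          (b0 ^ (4 / 3 : ℝ)) ^ (3 / 4 : ℝ) := Real.rpow_le_rpow (by positivity) h2 (by norm_num)
      rw [Real.mul_rpow hk0.le (by positivity), ← Real.rpow_mul hs0, ← Real.rpow_mul hb0.le] at h4
      norm_num at h4
      exact h4
    have h5 : (k : ℝ) ^ (3 / 4 : ℝ) * (k : ℝ) ^ (-(3 / 4 : ℝ)) = 1 := by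
      rw [← Real.rpow_add hk0]; norm_num
    calc q - 1 / 2 = (k : ℝ) ^ (3 / 4 : ℝ) * (q - 1 / 2) * (k : ℝ) ^ (-(3 / 4 : ℝ)) := by
          rw [mul_right_comm, h5, one_mul]
      _ ≤ b0 * (k : ℝ) ^ (-(3 / 4 : ℝ)) := mul_le_mul_of_nonneg_right h3 (by positivity)
  have h2 := (hst k hk1 q h1).2.1
  have h3 := hA k k hk1 le_rfl
  calc arm q k ≤ 3 * arm (1 / 2) k := h2
    _ ≤ 3 * (K0 * (k : ℝ) ^ (-(5 / 48 : ℝ))) := by linarith
    _ = _ := by ring

/-- The tail of the volume above the critical point: upper bound. -/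
theorem sup_upper : ∃ C : ℝ, 0 < C ∧ ∀ q : ℝ, 1 / 2 ≤ q → q ≤ 1 → ∀ n : ℕ, 1 ≤ n → ∀ m : ℕ,
    Pr (fun _ => q) (boxE m) (fun F => Vol (n : ℝ) (↑F : Set Edg)) ≤
      C * max ((n : ℝ) ^ (-(5 / 91 : ℝ))) ((q - 1 / 2) ^ (5 / 36 : ℝ)) := by
  obtain ⟨K0, b, hK, hb, hb1, hwin⟩ := win_arm
  have hK0 : 0 < K0 := by linarith
  obtain ⟨C1, hC1⟩ : ∃ C1 : ℝ, C1 = K0 + 4 * (288 * K0 ^ 2) := ⟨_, rfl⟩
  have hC1p : 0 < C1 := by rw [hC1]; positivity
  refine ⟨2 * C1 + (2 / b) * C1 + 1 / b, by positivity, ?_⟩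
  intro q h0 h1 n hn m
  have ok := okq (show 0 ≤ q by linarith) h1
  have hn1 : (1 : ℝ) ≤ n := by exact_mod_cast hn
  have hn0 : (0 : ℝ) < n := by linarith
  obtain ⟨s, hs⟩ : ∃ s : ℝ, s = q - 1 / 2 := ⟨_, rfl⟩
  have hs0 : 0 ≤ s := by linarith
  have hs1 : s ≤ 1 := by linarith
  obtain ⟨a, ha⟩ : ∃ a : ℝ, a = (n : ℝ) ^ (48 / 91 : ℝ) := ⟨_, rfl⟩
  have ha1 : 1 ≤ a := by rw [ha]; exact Real.one_le_rpow hn1 (by norm_num)
  have ha91 : a ^ (91 / 48 : ℝ) = n := by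
    rw [ha, ← Real.rpow_mul hn0.le]; norm_num
  have ha5 : a ^ (-(5 / 48 : ℝ)) = (n : ℝ) ^ (-(5 / 91 : ℝ)) := by
    rw [ha, ← Real.rpow_mul hn0.le]; norm_num
  -- the bound at a scale
  have step : ∀ N : ℕ, 1 ≤ N → (N : ℝ) ≤ a → (N : ℝ) * s ^ (4 / 3 : ℝ) ≤ b →
      Pr (fun _ => q) (boxE m) (fun F => Vol (n : ℝ) (↑F : Set Edg)) ≤
        C1 * (N : ℝ) ^ (-(5 / 48 : ℝ)) := by
    intro N hN hNa hNs
    have hN1 : (1 : ℝ) ≤ N := by exact_mod_cast hN
    have hN0 : (0 : ℝ) < N := by linarith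
    have h2 := vol_upq (by linarith) h1 hK hN (hwin q N h0 (by rw [← hs]; exact hNs)) hn0 (boxE m)
    have h3 : ((N : ℝ) + 1) ^ (86 / 48 : ℝ) ≤ 4 * (N : ℝ) ^ (86 / 48 : ℝ) := by
      calc ((N : ℝ) + 1) ^ (86 / 48 : ℝ) ≤ (2 * (N : ℝ)) ^ (86 / 48 : ℝ) :=
            Real.rpow_le_rpow (by positivity) (by linarith) (by norm_num)
        _ = (2 : ℝ) ^ (86 / 48 : ℝ) * (N : ℝ) ^ (86 / 48 : ℝ) :=
            Real.mul_rpow (by norm_num) hN0.le
        _ ≤ 4 * (N : ℝ) ^ (86 / 48 : ℝ) := by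
            apply mul_le_mul_of_nonneg_right _ (by positivity)
            calc (2 : ℝ) ^ (86 / 48 : ℝ) ≤ (2 : ℝ) ^ (2 : ℝ) :=
                  Real.rpow_le_rpow_of_exponent_le (by norm_num) (by norm_num)
              _ = 4 := by norm_num
    have h4 : (N : ℝ) ^ (86 / 48 : ℝ) = (N : ℝ) ^ (-(5 / 48 : ℝ)) * (N : ℝ) ^ (91 / 48 : ℝ) := by
      rw [← Real.rpow_add hN0]; norm_num
    have h5 : (N : ℝ) ^ (91 / 48 : ℝ) ≤ n := by
      rw [← ha91]
      exact Real.rpow_le_rpow hN0.le hNa (by norm_num)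
    have h6 : 288 * K0 ^ 2 * ((N : ℝ) + 1) ^ (86 / 48 : ℝ) / n ≤
        4 * (288 * K0 ^ 2) * (N : ℝ) ^ (-(5 / 48 : ℝ)) := by
      rw [div_le_iff₀ hn0]
      calc 288 * K0 ^ 2 * ((N : ℝ) + 1) ^ (86 / 48 : ℝ)
          ≤ 288 * K0 ^ 2 * (4 * ((N : ℝ) ^ (-(5 / 48 : ℝ)) * (N : ℝ) ^ (91 / 48 : ℝ))) := by
            apply mul_le_mul_of_nonneg_left _ (by positivity)
            rw [← h4]; exact h3
        _ ≤ 288 * K0 ^ 2 * (4 * ((N : ℝ) ^ (-(5 / 48 : ℝ)) * n)) := by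
            apply mul_le_mul_of_nonneg_left _ (by positivity)
            apply mul_le_mul_of_nonneg_left _ (by norm_num)
            exact mul_le_mul_of_nonneg_left h5 (by positivity)
        _ = _ := by ring
    calc Pr (fun _ => q) (boxE m) (fun F => Vol (n : ℝ) (↑F : Set Edg)) ≤ _ := h2
      _ ≤ K0 * (N : ℝ) ^ (-(5 / 48 : ℝ)) + 4 * (288 * K0 ^ 2) * (N : ℝ) ^ (-(5 / 48 : ℝ)) := by
          linarith
      _ = _ := by rw [hC1]; ring
  have hmax1 : (n : ℝ) ^ (-(5 / 91 : ℝ)) ≤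
      max ((n : ℝ) ^ (-(5 / 91 : ℝ))) ((q - 1 / 2) ^ (5 / 36 : ℝ)) := le_max_left _ _
  have hmax2 : s ^ (5 / 36 : ℝ) ≤
      max ((n : ℝ) ^ (-(5 / 91 : ℝ))) ((q - 1 / 2) ^ (5 / 36 : ℝ)) := by
    rw [hs]; exact le_max_right _ _
  obtain ⟨Y, hY⟩ : ∃ Y : ℝ, Y = max ((n : ℝ) ^ (-(5 / 91 : ℝ))) ((q - 1 / 2) ^ (5 / 36 : ℝ)) :=
    ⟨_, rfl⟩
  rw [← hY] at hmax1 hmax2 ⊢
  have hY0 : 0 ≤ Y := le_trans (by positivity) hmax1
  have t1 : 0 ≤ 2 * C1 * Y := by positivity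
  have t2 : 0 ≤ (2 / b) * C1 * Y := by positivity
  have t3 : 0 ≤ 1 / b * Y := by positivity
  have hfloor : ∀ x : ℝ, 1 ≤ x → 1 ≤ ⌊x⌋₊ ∧ ((⌊x⌋₊ : ℕ) : ℝ) ≤ x ∧ x / 2 ≤ ((⌊x⌋₊ : ℕ) : ℝ) := by
    intro x hx
    have h2 := Nat.floor_le (show 0 ≤ x by linarith)
    have h3 := Nat.lt_floor_add_one x
    have h4 : 1 ≤ ⌊x⌋₊ := by rw [Nat.one_le_floor_iff]; exact hx
    have h5 : (1 : ℝ) ≤ ((⌊x⌋₊ : ℕ) : ℝ) := by exact_mod_cast h4
    exact ⟨h4, h2, by linarith⟩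
  have h2pow : ∀ x y : ℝ, 0 < x → x / 2 ≤ y → y ^ (-(5 / 48 : ℝ)) ≤ 2 * x ^ (-(5 / 48 : ℝ)) := by
    intro x y hx hxy
    have := pw (t := y) (u := x) (k := 2) (by linarith) hx (by norm_num) (by linarith)
    exact this
  rcases le_or_gt (a * s ^ (4 / 3 : ℝ)) b with hle | hgt
  · -- inside the window
    obtain ⟨f1, f2, f3⟩ := hfloor a ha1
    have h2 := step ⌊a⌋₊ f1 f2 (le_trans (mul_le_mul_of_nonneg_right f2 (by positivity)) hle)
    have h3 := h2pow a _ (by linarith) f3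
    rw [ha5] at h3
    have h4 : C1 * ((⌊a⌋₊ : ℕ) : ℝ) ^ (-(5 / 48 : ℝ)) ≤ 2 * C1 * Y := by
      calc C1 * ((⌊a⌋₊ : ℕ) : ℝ) ^ (-(5 / 48 : ℝ)) ≤ C1 * (2 * (n : ℝ) ^ (-(5 / 91 : ℝ))) :=
            mul_le_mul_of_nonneg_left h3 hC1p.le
        _ ≤ C1 * (2 * Y) := by
            apply mul_le_mul_of_nonneg_left _ hC1p.le
            linarith
        _ = _ := by ring
    calc Pr (fun _ => q) (boxE m) (fun F => Vol (n : ℝ) (↑F : Set Edg))
        ≤ 2 * C1 * Y := h2.trans h4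
      _ ≤ (2 * C1 + (2 / b) * C1 + 1 / b) * Y := by nlinarith
  · -- outside the window
    have hspos : 0 < s := by
      rcases hs0.eq_or_lt with h | h
      · rw [← h, Real.zero_rpow (by norm_num), mul_zero] at hgt
        linarith
      · exact h
    obtain ⟨x, hx⟩ : ∃ x : ℝ, x = b * s ^ (-(4 / 3 : ℝ)) := ⟨_, rfl⟩
    have hxs : x * s ^ (4 / 3 : ℝ) = b := by
      rw [hx, mul_assoc, ← Real.rpow_add hspos]; norm_num
    have hxp : 0 < x := by rw [hx]; positivity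
    have hs43 : 0 < s ^ (4 / 3 : ℝ) := by positivity
    rcases le_or_gt 1 x with h1x | h1x
    · obtain ⟨f1, f2, f3⟩ := hfloor x h1x
      have hxa : x ≤ a := by
        by_contra hc
        rw [not_le] at hc
        have := mul_lt_mul_of_pos_right hc hs43
        linarith
      have h2 := step ⌊x⌋₊ f1 (f2.trans hxa) (by
        rw [← hxs]
        exact mul_le_mul_of_nonneg_right f2 hs43.le)
      have h3 := h2pow x _ hxp f3
      have h4 : x ^ (-(5 / 48 : ℝ)) ≤ 1 / b * s ^ (5 / 36 : ℝ) := by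
        rw [hx, Real.mul_rpow hb.le (by positivity), ← Real.rpow_mul hspos.le]
        have e : (-(4 / 3 : ℝ)) * (-(5 / 48 : ℝ)) = 5 / 36 := by norm_num
        rw [e]
        apply mul_le_mul_of_nonneg_right _ (by positivity)
        rw [one_div, ← Real.rpow_neg_one b]
        exact Real.rpow_le_rpow_of_exponent_ge hb hb1 (by norm_num)
      calc Pr (fun _ => q) (boxE m) (fun F => Vol (n : ℝ) (↑F : Set Edg))
          ≤ C1 * ((⌊x⌋₊ : ℕ) : ℝ) ^ (-(5 / 48 : ℝ)) := h2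
        _ ≤ C1 * (2 * (1 / b * s ^ (5 / 36 : ℝ))) := by
            apply mul_le_mul_of_nonneg_left _ hC1p.le
            linarith
        _ ≤ C1 * (2 * (1 / b * Y)) := by
            apply mul_le_mul_of_nonneg_left _ hC1p.le
            apply mul_le_mul_of_nonneg_left _ (by norm_num)
            exact mul_le_mul_of_nonneg_left hmax2 (by positivity)
        _ = (2 / b) * C1 * Y := by ring
        _ ≤ (2 * C1 + (2 / b) * C1 + 1 / b) * Y := by nlinarith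
    · have h4 : b ≤ s ^ (5 / 36 : ℝ) := by
        have h5 : b ≤ s ^ (4 / 3 : ℝ) := by
          have := mul_le_mul_of_nonneg_right h1x.le hs43.le
          rw [one_mul, hxs] at this
          exact this
        refine h5.trans ?_
        exact Real.rpow_le_rpow_of_exponent_ge hspos hs1 (by norm_num)
      calc Pr (fun _ => q) (boxE m) (fun F => Vol (n : ℝ) (↑F : Set Edg)) ≤ 1 :=
            Pr_le_one ok _ _
        _ = 1 / b * b := by field_simp
        _ ≤ 1 / b * Y := mul_le_mul_of_nonneg_left (h4.trans hmax2) (by positivity)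
        _ ≤ (2 * C1 + (2 / b) * C1 + 1 / b) * Y := by nlinarith

/-- The tail of the volume above the critical point: both bounds. -/
theorem sup_both : ∃ c C : ℝ, 0 < c ∧ 0 < C ∧ ∀ p : unitInterval, (1 / 2 : ℝ) ≤ p → ∀ n : ℕ,
    1 ≤ n →
    c * max ((n : ℝ) ^ (-(5 / 91 : ℝ))) (((p : ℝ) - 1 / 2) ^ (5 / 36 : ℝ)) ≤ tl p n ∧
    tl p n ≤ C * max ((n : ℝ) ^ (-(5 / 91 : ℝ))) (((p : ℝ) - 1 / 2) ^ (5 / 36 : ℝ)) := by
  obtain ⟨C, hC, hup⟩ := sup_upper
  obtain ⟨c1, C1, hc1, hC1, hcr⟩ := sharp_vol Pool.Agent.H160R2.SA.arSharp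
  obtain ⟨c2, hc2, hth⟩ := TH291.NC.theta_lower
  refine ⟨min c1 c2, C, lt_min hc1 hc2, hC, fun p hp n hn => ⟨?_, ?_⟩⟩
  · have hm : 0 < min c1 c2 := lt_min hc1 hc2
    rw [mul_max_of_nonneg _ _ hm.le]
    apply max_le
    · have h1 : hlf ≤ p := hp
      refine le_trans ?_ (tl_mono h1 n)
      refine le_trans ?_ (hcr n hn).1
      exact mul_le_mul_of_nonneg_right (min_le_left _ _) (by positivity)
    · rcases hp.eq_or_lt with h | h
      · rw [← h, sub_self, Real.zero_rpow (by norm_num), mul_zero]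
        unfold tl
        exact measureReal_nonneg
      · refine le_trans ?_ (theta_le_tl p n)
        refine le_trans ?_ (hth p h)
        exact mul_le_mul_of_nonneg_right (min_le_right _ _) (by
          have : 0 < (p : ℝ) - 1 / 2 := by linarith
          positivity)
  · exact tl_le p n _ (fun m => hup p hp p.2.2 n hn m)

end Pool.Agent.TH967.VT
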