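import Pool.Agent.TH967.VT.Block

/-!
The volume of the cluster below the critical point: large clusters which reach a large distance.
-/

set_option autoImplicit false

namespace Pool.Agent.TH967.VT
open Finset H974 Pool.Agent.H160R2.CV H362P
open Pool.Agent.H160R2.CV.Quad

/-- the block of a vertex -/
def blk (M : ℕ) (x : Vtx) : ℤ × ℤ := (x.1 / M, x.2 / M)

theorem div_step {M : ℕ} (hM : 1 ≤ M) (a : ℤ) :
    (a + 1) / (M : ℤ) = a / (M : ℤ) ∨ (a + 1) / (M : ℤ) = a / (M : ℤ) + 1 := by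
  have hM' : (0 : ℤ) < M := by exact_mod_cast hM
  have h1 : a / (M : ℤ) ≤ (a + 1) / (M : ℤ) := Int.ediv_le_ediv hM' (by omega)
  have h2 : (a + 1) / (M : ℤ) ≤ (a + M) / (M : ℤ) := Int.ediv_le_ediv hM' (by omega)
  have h3 : (a + M) / (M : ℤ) = a / (M : ℤ) + 1 := by
    have := Int.add_mul_ediv_right a 1 hM'.ne'
    rwa [one_mul] at this
  omega

theorem blk_step {M : ℕ} (hM : 1 ≤ M) {G : Set Edg} {u v : Vtx} (h : Adj G u v) :
    blk M u = blk M v ∨ nnb (blk M u) (blk M v) := by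
  obtain ⟨⟨a, b, s⟩, _, hc⟩ := h
  have h1 := div_step hM a
  have h2 := div_step hM b
  have key : ∀ w w' : Vtx, (w = (a, b) ∧ (w' = (a + 1, b) ∨ w' = (a, b + 1))) →
      ((w.1 / (M : ℤ) = w'.1 / (M : ℤ) ∧ w.2 / (M : ℤ) = w'.2 / (M : ℤ)) ∨
      (w'.1 / (M : ℤ) = w.1 / (M : ℤ) + 1 ∧ w.2 / (M : ℤ) = w'.2 / (M : ℤ)) ∨
      (w'.1 / (M : ℤ) = w.1 / (M : ℤ) ∧ w'.2 / (M : ℤ) = w.2 / (M : ℤ) + 1)) := by
    rintro w w' ⟨rfl, rfl | rfl⟩
    · rcases h1 with h1 | h1
      · left; exact ⟨h1.symm, rfl⟩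
      · right; left; exact ⟨h1, rfl⟩
    · rcases h2 with h2 | h2
      · left; exact ⟨rfl, h2.symm⟩
      · right; right; exact ⟨rfl, h2⟩
  have fin : ∀ w w' : Vtx, (w = (a, b) ∧ (w' = (a + 1, b) ∨ w' = (a, b + 1))) →
      (blk M w = blk M w' ∨ nnb (blk M w) (blk M w')) ∧
      (blk M w' = blk M w ∨ nnb (blk M w') (blk M w)) := by
    intro w w' hw
    have := key w w' hw
    unfold blk nnb
    simp only [Prod.mk.injEq]
    omega
  cases s
  · simp only [src_mk, tgt_false] at hc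
    rcases hc with ⟨hu, hv⟩ | ⟨hu, hv⟩
    · exact (fin u v ⟨hu.symm, Or.inr hv.symm⟩).1
    · exact (fin v u ⟨hu.symm, Or.inr hv.symm⟩).2
  · simp only [src_mk, tgt_true] at hc
    rcases hc with ⟨hu, hv⟩ | ⟨hu, hv⟩
    · exact (fin u v ⟨hu.symm, Or.inl hv.symm⟩).1
    · exact (fin v u ⟨hu.symm, Or.inl hv.symm⟩).2

theorem blk_near {M : ℕ} (hM : 1 ≤ M) (x : Vtx) : nv (x - cz M (blk M x)) ≤ M - 1 := by
  have hM' : (0 : ℤ) < M := by exact_mod_cast hM
  have h1 := Int.emod_add_mul_ediv x.1 M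
  have h2 := Int.emod_add_mul_ediv x.2 M
  have h3 := Int.emod_nonneg x.1 hM'.ne'
  have h4 := Int.emod_nonneg x.2 hM'.ne'
  have h5 := Int.emod_lt_of_pos x.1 hM'
  have h6 := Int.emod_lt_of_pos x.2 hM'
  unfold nv cz blk
  simp only [Prod.fst_sub, Prod.snd_sub]
  have e1 : x.1 - (M : ℤ) * (x.1 / M) = x.1 % M := by linarith
  have e2 : x.2 - (M : ℤ) * (x.2 / M) = x.2 % M := by linarith
  rw [e1, e2]
  omega

theorem nv_cz (M : ℕ) (z : ℤ × ℤ) : nv (cz M z) = M * nv z := by
  unfold nv cz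
  simp only [Int.natAbs_mul, Int.natAbs_natCast]
  rw [Nat.mul_max_mul_left]

/-- the cluster of the origin in the box `m` -/
noncomputable def Cl (m : ℕ) (F : Finset Edg) : Finset Vtx := by
  classical exact (bx m).filter (fun x => Reach (↑F : Set Edg) (0, 0) x)

theorem mem_Cl {m : ℕ} {F : Finset Edg} (hF : F ⊆ boxE m) {x : Vtx} :
    x ∈ Cl m F ↔ Reach (↑F : Set Edg) (0, 0) x := by
  classical
  unfold Cl
  rw [Finset.mem_filter]
  constructor
  · exact fun h => h.2
  · intro h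
    refine ⟨?_, h⟩
    rw [mem_bx']
    induction h with
    | refl => exact Nat.zero_le _
    | tail _ hs _ =>
      obtain ⟨⟨a, b, s⟩, he, hc⟩ := hs
      have he' := hF (Finset.mem_coe.mp he)
      unfold boxE at he'
      cases s
      · simp only [src_mk, tgt_false] at hc
        rw [mem_RE_false] at he'
        rcases hc with ⟨_, rfl⟩ | ⟨rfl, _⟩ <;> unfold nv <;> simp only <;> omega
      · simp only [src_mk, tgt_true] at hc
        rw [mem_RE_true] at he'
        rcases hc with ⟨_, rfl⟩ | ⟨rfl, _⟩ <;> unfold nv <;> simp only <;> omega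

theorem vol_Cl {m : ℕ} {F : Finset Edg} (hF : F ⊆ boxE m) {n : ℝ} (h : Vol n (↑F : Set Edg)) :
    n ≤ ((Cl m F).card : ℝ) := by
  obtain ⟨T, hT, hr⟩ := h
  refine hT.trans ?_
  exact_mod_cast Finset.card_le_card (fun x hx => (mem_Cl hF).mpr (hr x hx))

/-- the blocks visited by the cluster -/
noncomputable def Zb (m M : ℕ) (F : Finset Edg) : Finset (ℤ × ℤ) := (Cl m F).image (blk M)

theorem conn_Zb {m M : ℕ} (hM : 1 ≤ M) {F : Finset Edg} (hF : F ⊆ boxE m) :
    ConnA (Zb m M F) (0, 0) := by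
  have h0 : ((0, 0) : Vtx) ∈ Cl m F := (mem_Cl hF).mpr (Reach.refl _ _)
  have hb0 : blk M ((0, 0) : Vtx) = (0, 0) := by unfold blk; simp
  constructor
  · unfold Zb
    rw [Finset.mem_image]
    exact ⟨(0, 0), h0, hb0⟩
  · intro z hz
    unfold Zb at hz
    rw [Finset.mem_image] at hz
    obtain ⟨x, hx, rfl⟩ := hz
    rw [mem_Cl hF] at hx
    induction hx with
    | refl => rw [hb0]
    | @tail y y' h1 hs ih =>
      have m1 : blk M y ∈ Zb m M F := Finset.mem_image_of_mem _ ((mem_Cl hF).mpr h1)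
      have m2 : blk M y' ∈ Zb m M F :=
        Finset.mem_image_of_mem _ ((mem_Cl hF).mpr (h1.tail hs))
      rcases blk_step hM hs with h2 | h2
      · rw [← h2]; exact ih
      · exact ih.tail ⟨m1, m2, h2⟩

/-- the far blocks -/
def farF (A : Finset (ℤ × ℤ)) : Finset (ℤ × ℤ) := A.filter (fun z => 4 ≤ nv z)

theorem card_farF (A : Finset (ℤ × ℤ)) : A.card ≤ (farF A).card + 49 := by
  have h1 : A.card = (farF A).card + (A.filter (fun z => ¬ 4 ≤ nv z)).card :=
    (Finset.card_filter_add_card_filter_not (s := A) (fun z => 4 ≤ nv z)).symm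
  have h2 : (A.filter (fun z => ¬ 4 ≤ nv z)).card ≤
      (Finset.Icc (-3 : ℤ) 3 ×ˢ Finset.Icc (-3 : ℤ) 3).card := by
    apply Finset.card_le_card
    intro z hz
    have h3 := (Finset.mem_filter.1 hz).2
    unfold nv at h3
    rw [Finset.mem_product, Finset.mem_Icc, Finset.mem_Icc]
    omega
  have h4 : (Finset.Icc (-3 : ℤ) 3 ×ˢ Finset.Icc (-3 : ℤ) 3).card = 49 := by
    rw [Finset.card_product, Int.card_Icc]
    rfl
  omega

theorem Cl_card_le {m M : ℕ} (hM : 2 ≤ M) {F F' : Finset Edg} (hF : F' ⊆ boxE m) (hFF : F' ⊆ F)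
    (h5 : OE (Ou (0, 0) (4 * M + M)) {(0, 0)} (↑F' : Set Edg)) :
    ((Cl m F').card : ℝ) ≤ YT (Ou (0, 0) (4 * M + M)) (Bc (0, 0) (4 * M)) F +
      ∑ z ∈ farF (Zb m M F'), YT (Ou (cz M z) (M + M)) (Bc (cz M z) M) F := by
  classical
  have h1 : ((Cl m F').card : ℝ) = (((Cl m F').filter (fun x => ¬ 4 ≤ nv (blk M x))).card : ℝ) +
      (((Cl m F').filter (fun x => 4 ≤ nv (blk M x))).card : ℝ) := by
    have := Finset.card_filter_add_card_filter_not (s := Cl m F') (fun x => 4 ≤ nv (blk M x))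
    rw [← this]
    push_cast
    ring
  rw [h1]
  have z1 : ∀ z : Vtx, z - (0, 0) = z := fun z => by
    have : ((0, 0) : Vtx) = 0 := rfl
    rw [this, sub_zero]
  have hmono : ∀ {T : Vtx → Prop} {x : Vtx}, OE T {x} (↑F' : Set Edg) → OE T {x} (↑F : Set Edg) :=
    fun h => OE.mono (by exact_mod_cast hFF) h
  apply add_le_add
  · have h2 : (((Cl m F').filter (fun x => ¬ 4 ≤ nv (blk M x))).card : ℝ) =
        ∑ x ∈ (Cl m F').filter (fun x => ¬ 4 ≤ nv (blk M x)),
          ind (OE (Ou (0, 0) (4 * M + M)) {x} (↑F : Set Edg)) := by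
      rw [Finset.card_eq_sum_ones, Nat.cast_sum]
      apply Finset.sum_congr rfl
      intro x hx
      have hx1 := (mem_Cl hF).mp (Finset.mem_filter.1 hx).1
      rw [ind_of, Nat.cast_one]
      apply hmono
      intro u hu
      rw [Finset.mem_singleton] at hu
      obtain ⟨v, hv, hr⟩ := h5 (0, 0) (Finset.mem_singleton_self _)
      refine ⟨v, hv, ?_⟩
      rw [hu]
      exact hx1.symm.trans hr
    rw [h2]
    unfold YT
    apply Finset.sum_le_sum_of_subset_of_nonneg
    · intro x hx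
      have hx2 := (Finset.mem_filter.1 hx).2
      rw [mem_Bc, z1]
      have h3 := blk_near (show 1 ≤ M by omega) x
      have h4 := nv_tri' x (cz M (blk M x)) 0
      rw [sub_zero, sub_zero, nv_cz] at h4
      have h6 : M * nv (blk M x) ≤ M * 3 := Nat.mul_le_mul_left _ (by omega)
      omega
    · intro _ _ _
      exact ind_nonneg _
  · have hmaps : ∀ x ∈ (Cl m F').filter (fun x => 4 ≤ nv (blk M x)), blk M x ∈ farF (Zb m M F') := by
      intro x hx
      rw [Finset.mem_filter] at hx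
      unfold farF
      rw [Finset.mem_filter]
      exact ⟨Finset.mem_image_of_mem _ hx.1, hx.2⟩
    rw [Finset.card_eq_sum_card_fiberwise hmaps, Nat.cast_sum]
    apply Finset.sum_le_sum
    intro z hz
    unfold farF at hz
    rw [Finset.mem_filter] at hz
    have h2 : ((((Cl m F').filter (fun x => 4 ≤ nv (blk M x))).filter
        (fun x => blk M x = z)).card : ℝ) =
        ∑ x ∈ ((Cl m F').filter (fun x => 4 ≤ nv (blk M x))).filter (fun x => blk M x = z),
          ind (OE (Ou (cz M z) (M + M)) {x} (↑F : Set Edg)) := by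
      rw [Finset.card_eq_sum_ones, Nat.cast_sum]
      apply Finset.sum_congr rfl
      intro x hx
      have hx1 := (mem_Cl hF).mp (Finset.mem_filter.1 (Finset.mem_filter.1 hx).1).1
      rw [ind_of, Nat.cast_one]
      apply hmono
      intro u hu
      rw [Finset.mem_singleton] at hu
      refine ⟨(0, 0), ?_, by rw [hu]; exact hx1.symm⟩
      unfold Ou
      have e0 : nv (((0, 0) : Vtx) - cz M z) = M * nv z := by
        rw [nv_comm', z1, nv_cz]
      rw [e0]
      have : M * 4 ≤ M * nv z := Nat.mul_le_mul_left _ hz.2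
      omega
    rw [h2]
    unfold YT
    apply Finset.sum_le_sum_of_subset_of_nonneg
    · intro x hx
      have hx2 := (Finset.mem_filter.1 hx).2
      rw [mem_Bc, ← hx2]
      have h3 := blk_near (show 1 ≤ M by omega) x
      omega
    · intro _ _ _
      exact ind_nonneg _

theorem act_of {m M : ℕ} (hM : 2 ≤ M) {F F' : Finset Edg} (hF : F' ⊆ boxE m) (hFF : F' ⊆ F)
    {z : ℤ × ℤ} (hz : z ∈ farF (Zb m M F')) : Act (cz M z) M F := by
  unfold farF Zb at hz
  rw [Finset.mem_filter, Finset.mem_image] at hz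
  obtain ⟨⟨x, hx, rfl⟩, h4⟩ := hz
  have hx1 := (mem_Cl hF).mp hx
  refine ⟨x, blk_near (by omega) x, ?_⟩
  intro u hu
  rw [Finset.mem_singleton] at hu
  refine ⟨(0, 0), ?_, ?_⟩
  · unfold Ou
    have z1 : ∀ z : Vtx, z - (0, 0) = z := fun z => by
      have : ((0, 0) : Vtx) = 0 := rfl
      rw [this, sub_zero]
    have e0 : nv (((0, 0) : Vtx) - cz M (blk M x)) = M * nv (blk M x) := by
      rw [nv_comm', z1, nv_cz]
    rw [e0]
    have : M * 4 ≤ M * nv (blk M x) := Nat.mul_le_mul_left _ h4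
    omega
  · rw [hu]
    exact (hx1.mono (by exact_mod_cast hFF)).symm

/-- the arm factor times the weights of the far blocks -/
noncomputable def gA (t : ℝ) (M : ℕ) (A : Finset (ℤ × ℤ)) (F : Finset Edg) : ℝ :=
  ind (LA (0, 0) M F) * ∏ z ∈ farF A, wt t M (cz M z) F

/-- the factor of the near blocks -/
noncomputable def fA (t : ℝ) (M : ℕ) (F : Finset Edg) : ℝ :=
  ind (OE (Ou (0, 0) (4 * M + M)) {(0, 0)} (↑F : Set Edg)) *
    Real.exp (t * YT (Ou (0, 0) (4 * M + M)) (Bc (0, 0) (4 * M)) F)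

theorem key_point {m M : ℕ} (hM : 2 ≤ M) {F F' : Finset Edg} (hF : F' ⊆ boxE m) (hFF : F' ⊆ F)
    {n t : ℝ} (ht : 0 ≤ t) (hV : Vol n (↑F' : Set Edg))
    (h5 : OE (Ou (0, 0) (4 * M + M)) {(0, 0)} (↑F' : Set Edg)) :
    Real.exp (t * n) ≤ fA t M F * gA t M (Zb m M F') F := by
  have h5' : OE (Ou (0, 0) (4 * M + M)) {(0, 0)} (↑F : Set Edg) :=
    OE.mono (by exact_mod_cast hFF) h5
  have hLA : LA (0, 0) M F := by
    obtain ⟨v, hv, hr⟩ := h5' (0, 0) (Finset.mem_singleton_self _)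
    exact LA_of_reach (u := v) (by unfold Ou at hv; omega) hr
  unfold fA gA
  rw [ind_of h5', ind_of hLA, one_mul, one_mul]
  have e1 : ∏ z ∈ farF (Zb m M F'), wt t M (cz M z) F =
      Real.exp (∑ z ∈ farF (Zb m M F'), t * YT (Ou (cz M z) (M + M)) (Bc (cz M z) M) F) := by
    rw [Real.exp_sum]
    apply Finset.prod_congr rfl
    intro z hz
    unfold wt
    rw [ind_of (act_of hM hF hFF hz), one_mul]
  rw [e1, ← Real.exp_add]
  apply Real.exp_le_exp.mpr
  rw [← Finset.mul_sum, ← mul_add]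
  exact mul_le_mul_of_nonneg_left ((vol_Cl hF hV).trans (Cl_card_le hM hF hFF h5)) ht

theorem bo_zero (R : ℕ) : bo (0, 0) R = boxE R := by
  unfold bo boxE
  congr 1 <;> simp

theorem exA {q K0 : ℝ} (h0 : 0 ≤ q) (h1 : q ≤ 1 / 2) {M : ℕ} (hM : 2 ≤ M)
    (hA : ArmUp (1 / 2) K0 (8 * M)) (hK : 1 ≤ K0) {δ : ℝ} (hδ0 : 0 ≤ δ) (hδ : Sub q M δ)
    (hδ1 : 2 * δ ≤ ((1 / 1024 : ℝ) ^ 25) ^ 2) (A : Finset (ℤ × ℤ))
    {S : Finset Edg} (hS : ∀ z ∈ A, bo (cz M z) (M + M) ⊆ S) (hS0 : boxE (4 * M + M) ⊆ S)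
    {t : ℝ} (ht0 : 0 ≤ t) (ht : 100 * t * (2 ^ 188 * GG K0 M) ≤ 1 / 4) :
    Ex (fun _ => q) S (fun F => fA t M F * gA t M A F) ≤
      (2 * 32 ^ 49) * arm (1 / 2) M * (1 / 32 : ℝ) ^ A.card := by
  have ok := okq h0 (by linarith)
  have hM1 : 1 ≤ M := by omega
  have hGG : 0 ≤ GG K0 M := by unfold GG; have : 0 ≤ K0 := by linarith
                               positivity
  have hGG2 : 0 ≤ t * (2 ^ 188 * GG K0 M) := by positivity
  have cs := Ex_cs ok S (fA t M) (gA t M A)
  -- first factor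
  have hg := good_out (q := 1 / 2) (K0 := K0) (N := M) (R1 := 4 * M) hM1 le_rfl hA hK le_rfl
    (by norm_num) (0, 0) (S := S) (by rw [bo_zero]; exact hS0)
  have hf2 : Ex (fun _ => q) S (fun F => (fA t M F) ^ 2) ≤ 2 * arm (1 / 2) M := by
    have e1 : Ex (fun _ => q) S (fun F => (fA t M F) ^ 2) = Ex (fun _ => q) S (fun F =>
        ind (OE (Ou (0, 0) (4 * M + M)) {(0, 0)} (↑F : Set Edg)) *
          Real.exp (2 * t * YT (Ou (0, 0) (4 * M + M)) (Bc (0, 0) (4 * M)) F)) := by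
      apply Ex_congr
      intro F _
      unfold fA
      rw [mul_pow, sq (ind _), ind_sq, ← Real.exp_nat_mul]
      congr 2
      push_cast
      ring
    rw [e1]
    refine (exp_low h0 h1 hg (t := 2 * t) (by linarith) (by linarith)
      (X := {(0, 0)}) ?_ (by simp)).trans ?_
    · rw [Finset.singleton_subset_iff, mem_Bc, sub_self]
      exact Nat.zero_le _
    · apply mul_le_mul_of_nonneg_left _ (by norm_num)
      refine le_trans ?_ (arm_bound (q := 1 / 2) (by norm_num) (by norm_num) S (0, 0) M)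
      apply Pr_mono (okq (by norm_num) (by norm_num))
      intro F _ h
      obtain ⟨v, hv, hr⟩ := h (0, 0) (Finset.mem_singleton_self _)
      refine ⟨v, ?_, hr⟩
      unfold nv at hv
      simp only [Prod.fst_sub, Prod.snd_sub] at hv
      simp only
      omega
  -- second factor
  have hg2 : Ex (fun _ => q) S (fun F => (gA t M A F) ^ 2) ≤
      arm (1 / 2) M * (1 / 1024 : ℝ) ^ (farF A).card := by
    have e1 : Ex (fun _ => q) S (fun F => (gA t M A F) ^ 2) = Ex (fun _ => q) S (fun F =>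
        ind (LA (0, 0) M F) * ∏ z ∈ farF A, wt (2 * t) M (cz M z) F) := by
      apply Ex_congr
      intro F _
      unfold gA
      rw [mul_pow, sq (ind _), ind_sq, ← Finset.prod_pow]
      congr 1
      apply Finset.prod_congr rfl
      intro z _
      rw [wt_pow _ _ _ _ (by norm_num)]
      norm_num
    rw [e1]
    have hfS : ∀ z ∈ farF A, bo (cz M z) (M + M) ⊆ S := fun z hz =>
      hS z (Finset.mem_filter.1 hz).1
    have e2 := Ex_mul_indep (p := fun _ : Edg => q) (U := S) (S := bo (0, 0) M)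
      (T := (farF A).biUnion (fun z => bo (cz M z) (M + M)))
      (by rw [bo_zero]; exact (boxE_mono (by omega)).trans hS0)
      (by rw [Finset.biUnion_subset]; exact hfS) (by
        rw [Finset.disjoint_biUnion_right]
        intro z hz
        apply bo_disj
        have h4 := (Finset.mem_filter.1 hz).2
        have e0 : nv (((0, 0) : Vtx) - cz M z) = M * nv z := by
          rw [nv_comm']
          have : cz M z - ((0, 0) : Vtx) = cz M z := by
            have : ((0, 0) : Vtx) = 0 := rfl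
            rw [this, sub_zero]
          rw [this, nv_cz]
        rw [e0]
        have : M * 4 ≤ M * nv z := Nat.mul_le_mul_left _ h4
        omega)
      (f := fun F => ind (LA (0, 0) M F))
      (g := fun F => ∏ z ∈ farF A, wt (2 * t) M (cz M z) F)
      (fun F _ => ind_congr (LA_loc (Finset.Subset.refl _) F))
      (fun F _ => by
        apply Finset.prod_congr rfl
        intro z hz
        have hs : F ∩ (farF A).biUnion (fun z => bo (cz M z) (M + M)) ∩ bo (cz M z) (M + M) =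
            F ∩ bo (cz M z) (M + M) := by
          ext e
          simp only [Finset.mem_inter, Finset.mem_biUnion]
          constructor
          · rintro ⟨⟨k1, _⟩, k2⟩
            exact ⟨k1, k2⟩
          · rintro ⟨k1, k2⟩
            exact ⟨⟨k1, z, hz, k2⟩, k2⟩
        exact (wt_loc _ _ _ F).trans ((congrArg _ hs.symm).trans (wt_loc _ _ _ _).symm))
    rw [e2]
    have b1 : Ex (fun _ => q) S (fun F => ind (LA (0, 0) M F)) ≤ arm (1 / 2) M :=
      (pr_LAq h0 (by linarith) S (0, 0) M).trans (arm_mono_param h0 h1 (by norm_num) M)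
    have b2 := blocks h0 h1 hM hA hK hδ0 hδ hδ1 (farF A) hfS (t := 2 * t) (by linarith)
      (by linarith)
    exact mul_le_mul b1 b2 (Ex_nonneg ok fun F _ => Finset.prod_nonneg fun z _ => wt_nonneg _ _ _ _)
      (arm_nonneg (by norm_num) (by norm_num) _)
  have harm := arm_nonneg (q := 1 / 2) (by norm_num) (by norm_num) M
  have hb : Ex (fun _ => q) S (fun F => fA t M F * gA t M A F) ≤
      2 * arm (1 / 2) M * (1 / 32 : ℝ) ^ (farF A).card := by
    apply le_of_sq_le_sq _ (by positivity)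
    calc (Ex (fun _ => q) S (fun F => fA t M F * gA t M A F)) ^ 2
        ≤ (2 * arm (1 / 2) M) * (arm (1 / 2) M * (1 / 1024 : ℝ) ^ (farF A).card) := by
          refine cs.trans (mul_le_mul hf2 hg2 (Ex_nonneg ok fun F _ => sq_nonneg _) (by positivity))
      _ ≤ (2 * arm (1 / 2) M * (1 / 32 : ℝ) ^ (farF A).card) ^ 2 := by
          have e3 : ((1 / 32 : ℝ) ^ (farF A).card) ^ 2 = (1 / 1024 : ℝ) ^ (farF A).card := by
            rw [← pow_mul, mul_comm, pow_mul]
            norm_num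
          rw [mul_pow, e3]
          have : 0 ≤ arm (1 / 2) M ^ 2 * (1 / 1024 : ℝ) ^ (farF A).card := by positivity
          nlinarith
  refine hb.trans ?_
  have e4 : (1 / 32 : ℝ) ^ (farF A).card ≤ 32 ^ 49 * (1 / 32 : ℝ) ^ A.card := by
    have h6 := card_farF A
    have h7 : (1 / 32 : ℝ) ^ ((farF A).card + 49) ≤ (1 / 32 : ℝ) ^ A.card :=
      pow_le_pow_of_le_one (by norm_num) (by norm_num) h6
    calc (1 / 32 : ℝ) ^ (farF A).card = 32 ^ 49 * (1 / 32 : ℝ) ^ ((farF A).card + 49) := by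
          rw [pow_add, mul_comm, mul_assoc, ← mul_pow]
          norm_num
      _ ≤ _ := mul_le_mul_of_nonneg_left h7 (by positivity)
  calc 2 * arm (1 / 2) M * (1 / 32 : ℝ) ^ (farF A).card
      ≤ 2 * arm (1 / 2) M * (32 ^ 49 * (1 / 32 : ℝ) ^ A.card) :=
        mul_le_mul_of_nonneg_left e4 (by positivity)
    _ = _ := by ring

/-- Large clusters which reach a large distance. -/
theorem up_far {q K0 : ℝ} (h0 : 0 ≤ q) (h1 : q ≤ 1 / 2) {M : ℕ} (hM : 2 ≤ M)
    (hA : ArmUp (1 / 2) K0 (8 * M)) (hK : 1 ≤ K0) {δ : ℝ} (hδ0 : 0 ≤ δ) (hδ : Sub q M δ)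
    (hδ1 : 2 * δ ≤ ((1 / 1024 : ℝ) ^ 25) ^ 2) {t : ℝ} (ht0 : 0 ≤ t)
    (ht : 100 * t * (2 ^ 188 * GG K0 M) ≤ 1 / 4) (m : ℕ) (n : ℝ) :
    Pr (fun _ => q) (boxE m) (fun F => Vol n (↑F : Set Edg) ∧
      OE (Ou (0, 0) (4 * M + M)) {(0, 0)} (↑F : Set Edg)) ≤
      (2 * 32 ^ 49) * arm (1 / 2) M * Real.exp (-(t * n)) := by
  classical
  have ok := okq h0 (by linarith)
  obtain ⟨m', hm'⟩ : ∃ m' : ℕ, m' = m + 5 * M := ⟨_, rfl⟩
  obtain ⟨Q, hQ⟩ : ∃ Q : Finset Edg → Prop, Q = fun F : Finset Edg =>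
      (Vol n (↑F : Set Edg) ∧ OE (Ou (0, 0) (4 * M + M)) {(0, 0)} (↑F : Set Edg)) := ⟨_, rfl⟩
  have e1 : Pr (fun _ => q) (boxE m) Q = Pr (fun _ => q) (boxE m') (fun F => Q (F ∩ boxE m)) := by
    have h2 : Pr (fun _ => q) (boxE m') (fun F => Q (F ∩ boxE m)) =
        Pr (fun _ => q) (boxE m) (fun F => Q (F ∩ boxE m)) :=
      Pr_local (boxE_mono (by omega)) (fun F _ => by
        rw [Finset.inter_assoc, Finset.inter_self])
    rw [h2]
    apply Pr_congr
    intro F hF
    rw [Finset.inter_eq_left.mpr hF]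
  rw [← hQ, e1]
  obtain ⟨W, hW⟩ : ∃ W : Finset (ℤ × ℤ), W = (bx m).image (blk M) := ⟨_, rfl⟩
  obtain ⟨AA, hAA⟩ : ∃ AA : Finset (Finset (ℤ × ℤ)),
      AA = W.powerset.filter (fun A => ConnA A (0, 0)) := ⟨_, rfl⟩
  have hmem : ∀ F, Zb m M (F ∩ boxE m) ∈ AA := by
    intro F
    rw [hAA, Finset.mem_filter, Finset.mem_powerset]
    refine ⟨?_, conn_Zb (by omega) Finset.inter_subset_right⟩
    rw [hW]
    unfold Zb Cl
    exact Finset.image_subset_image (Finset.filter_subset _ _)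
  have hpt : ∀ F, ind (Q (F ∩ boxE m)) ≤ Real.exp (-(t * n)) *
      ∑ A ∈ AA, fA t M F * gA t M A F := by
    intro F
    have hnn : ∀ A, 0 ≤ fA t M F * gA t M A F := by
      intro A
      unfold fA gA
      exact mul_nonneg (mul_nonneg (ind_nonneg _) (Real.exp_pos _).le)
        (mul_nonneg (ind_nonneg _) (Finset.prod_nonneg fun z _ => wt_nonneg _ _ _ _))
    have hsum : 0 ≤ ∑ A ∈ AA, fA t M F * gA t M A F := Finset.sum_nonneg fun A _ => hnn A
    by_cases hF : Q (F ∩ boxE m)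
    · rw [ind_of hF]
      rw [hQ] at hF
      have h3 := key_point (m := m) hM (F := F) (F' := F ∩ boxE m) Finset.inter_subset_right
        Finset.inter_subset_left ht0 hF.1 hF.2
      have h4 := Finset.single_le_sum (f := fun A => fA t M F * gA t M A F)
        (fun A _ => hnn A) (hmem F)
      calc (1 : ℝ) = Real.exp (-(t * n)) * Real.exp (t * n) := by
            rw [← Real.exp_add]; simp
        _ ≤ _ := mul_le_mul_of_nonneg_left (h3.trans h4) (Real.exp_pos _).le
    · rw [ind_not_of hF]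
      exact mul_nonneg (Real.exp_pos _).le hsum
  have h5 : Pr (fun _ => q) (boxE m') (fun F => Q (F ∩ boxE m)) ≤
      Ex (fun _ => q) (boxE m') (fun F => Real.exp (-(t * n)) *
        ∑ A ∈ AA, fA t M F * gA t M A F) := Ex_mono ok (fun F _ => hpt F)
  refine h5.trans ?_
  rw [Ex_mul_left, Ex_sum]
  have h6 : ∑ A ∈ AA, Ex (fun _ => q) (boxE m') (fun F => fA t M F * gA t M A F) ≤
      ∑ A ∈ AA, (2 * 32 ^ 49) * arm (1 / 2) M * (1 / 32 : ℝ) ^ A.card := by
    apply Finset.sum_le_sum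
    intro A hA'
    rw [hAA, Finset.mem_filter, Finset.mem_powerset] at hA'
    refine exA h0 h1 hM hA hK hδ0 hδ hδ1 A ?_ (boxE_mono (by omega)) ht0 ht
    intro z hz
    have hz2 := hA'.1 hz
    rw [hW, Finset.mem_image] at hz2
    obtain ⟨x, hx, rfl⟩ := hz2
    rw [mem_bx'] at hx
    rw [← bo_zero]
    apply bo_sub_bo
    have z1 : ∀ z : Vtx, z - (0, 0) = z := fun z => by
      have : ((0, 0) : Vtx) = 0 := rfl
      rw [this, sub_zero]
    rw [z1]
    have h7 := blk_near (show 1 ≤ M by omega) x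
    have h8 := nv_tri' (cz M (blk M x)) x 0
    rw [sub_zero, sub_zero, nv_comm'] at h8
    omega
  rw [← Finset.mul_sum] at h6
  have h7 := animal_sum W (0, 0) AA (fun A hA' => by
    rw [hAA, Finset.mem_filter, Finset.mem_powerset] at hA'
    exact hA')
  have harm := arm_nonneg (q := 1 / 2) (by norm_num) (by norm_num) M
  calc Real.exp (-(t * n)) * ∑ A ∈ AA, Ex (fun _ => q) (boxE m') (fun F => fA t M F * gA t M A F)
      ≤ Real.exp (-(t * n)) * ((2 * 32 ^ 49) * arm (1 / 2) M * 1) := by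
        apply mul_le_mul_of_nonneg_left _ (Real.exp_pos _).le
        exact h6.trans (mul_le_mul_of_nonneg_left h7 (by positivity))
    _ = _ := by ring

end Pool.Agent.TH967.VT
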